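import Pool.Agent.H27.HB.TG

/-!
# Targets, block X: asymptotics of the optimal constant as `p → 2-`
-/

set_option autoImplicit false

namespace Pool.Agent.H27.HB
open MeasureTheory Set Filter Topology Pool.Agent.H80.HS Pool.Agent.H93.HQ
open scoped ContDiff ENNReal

/-- The Jerison-Lee function, normalised in `L^q`. -/
noncomputable def yq (n : ℕ) (q : ℝ) (z : H n) : ℝ := ms q (u0 n) ^ (-(1 / q)) * u0 n z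

/-- The value of the Sobolev quotient at the Jerison-Lee function. -/
noncomputable def Rq (n : ℕ) (p : ℝ) : ℝ :=
  en p (hg (u0 n)) / ms (ps n p) (u0 n) ^ th n p

/-- The value of `∫ |z|^a w^(-s)`. -/
noncomputable def JJ (n : ℕ) (a s : ℝ) : ℝ :=
  Real.sqrt Real.pi * Real.Gamma (s - 1 / 2) / Real.Gamma s * (Real.pi ^ n / Real.Gamma n) *
    (Real.Gamma (n + a / 2) * Real.Gamma (2 * s - 1 - n - a / 2) / Real.Gamma (2 * s - 1))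

/-- The reciprocal of the Sobolev quotient of the Jerison-Lee function, in closed form. -/
noncomputable def KK (n : ℕ) (p : ℝ) : ℝ :=
  JJ n 0 (n * ps n p / 2) ^ ((2 * (n : ℝ) + 2 - p) / (2 * n + 2)) /
    ((2 * n) ^ p * JJ n p ((n + 1) * p / 2))

/-- Second divided difference: `t^q - s^q - q s^(q-1) (t-s) = (q (q-1) / 2) bb (t-s)^2`. -/
noncomputable def bb (q s t : ℝ) : ℝ :=
  if s = t then s ^ (q - 2) else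
    (t ^ q - s ^ q - q * s ^ (q - 1) * (t - s)) / (q * (q - 1) / 2 * (t - s) ^ 2)

/-- GRU: the gradient of the Jerison-Lee function. -/
def T_GRU : Prop := ∀ (n : ℕ) (z : H n), ContDiff ℝ ∞ (u0 n) ∧
  ‖hg (u0 n) z‖ = 2 * n * mz z * ww z ^ (-((n : ℝ) + 1) / 2)

/-- JJI: the integrals of the Jerison-Lee function. -/
def T_JJI : Prop := ∀ (n : ℕ) (a s : ℝ), 1 ≤ n → 0 ≤ a → 0 < 2 * s - 1 - n - a / 2 →
  Integrable (fun z : H n => mz z ^ a * ww z ^ (-s)) ∧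
  ∫ z : H n, mz z ^ a * ww z ^ (-s) = JJ n a s

/-- UCL: the Jerison-Lee function lies in `Cl p`. -/
def T_UCL : Prop := ∀ n : ℕ, 1 ≤ n → ∀ p : ℝ, 3 / 2 ≤ p → p ≤ 5 / 2 →
  Cl p (u0 n) (hg (u0 n)) ∧ 0 < ms (ps n p) (u0 n) ∧ 0 < en p (hg (u0 n)) ∧
  Rq n p = (KK n p)⁻¹ ∧ 0 < KK n p ∧ ∀ S : ℝ, Opt n p S → S ≤ Rq n p

/-- UTL: uniformity in the exponent. -/
def T_UTL : Prop := ∀ n : ℕ, 1 ≤ n →
  (∀ q : ℕ → ℝ, Tendsto q atTop (𝓝 (ps n 2)) →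
    Tendsto (fun k => ms (q k) (u0 n)) atTop (𝓝 (ms (ps n 2) (u0 n))) ∧
    Tail q (fun _ => u0 n)) ∧
  ∃ A : ℝ, 0 < A ∧ ∀ p : ℝ, 15 / 8 ≤ p → p ≤ 2 →
    A⁻¹ ≤ ms (ps n p) (u0 n) ∧ ms (ps n p) (u0 n) ≤ A ∧ en p (hg (u0 n)) ≤ A ∧
    ∫ z, |u0 n z ^ ps n p - u0 n z ^ ps n 2| ≤ A * (2 - p)

/-- LNA: the linear part, first half. -/
def T_LNA : Prop := ∀ n : ℕ, 1 ≤ n → ∃ A : ℝ, 0 < A ∧ ∀ p : ℝ, 15 / 8 ≤ p → p ≤ 2 →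
  ∀ h : H n → G n, MemLp h (ENNReal.ofReal p) →
    |∫ z, (‖hg (u0 n) z‖ ^ (p - 2) - 1) * inner ℝ (hg (u0 n) z) (h z)| ≤
      A * (2 - p) * en p h ^ (1 / p)

/-- LNB: the linear part, second half. -/
def T_LNB : Prop := ∀ n : ℕ, 1 ≤ n → ∃ A : ℝ, 0 < A ∧ ∀ p : ℝ, 15 / 8 ≤ p → p ≤ 2 →
  ∀ f : H n → ℝ, MemLp f (ENNReal.ofReal (ps n p)) →
    |∫ z, (u0 n z ^ (ps n 2 - 1) - u0 n z ^ (ps n p - 1)) * f z| ≤
      A * (2 - p) * ms (ps n p) f ^ (1 / ps n p)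

/-- WKP: the weak equation of the Jerison-Lee function, tested with `Cl p`. -/
def T_WKP : Prop := ∀ n : ℕ, 1 ≤ n → ∀ p : ℝ, 15 / 8 ≤ p → p ≤ 2 →
  ∀ (f : H n → ℝ) (h : H n → G n), Cl p f h →
  Integrable (fun z => inner ℝ (hg (u0 n) z) (h z)) ∧
  Integrable (fun z => ‖hg (u0 n) z‖ ^ (p - 2) * inner ℝ (hg (u0 n) z) (h z)) ∧
  Integrable (fun z => u0 n z ^ (ps n 2 - 1) * f z) ∧
  Integrable (fun z => u0 n z ^ (ps n p - 1) * f z) ∧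
  ∫ z, inner ℝ (hg (u0 n) z) (h z) = 4 * (n : ℝ) ^ 2 * ∫ z, u0 n z ^ (ps n 2 - 1) * f z

/-- CVS: strong convexity with the sharp constant, for `1 < p ≤ 2`. -/
def T_CVS : Prop := ∀ (n : ℕ) (p : ℝ), 1 < p → p ≤ 2 → ∀ a b : G n,
  ‖a‖ ^ p + p * (‖a‖ ^ (p - 2) * inner ℝ a (b - a)) +
    p * (p - 1) / 2 * (2 * (‖a‖ + ‖b‖)) ^ (p - 2) * ‖a - b‖ ^ 2 ≤ ‖b‖ ^ p

/-- BBE: properties of the second divided difference. -/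
def T_BBE : Prop := (∀ q s t : ℝ, 2 < q → 0 ≤ s → 0 ≤ t →
    t ^ q - s ^ q - q * s ^ (q - 1) * (t - s) = q * (q - 1) / 2 * bb q s t * (t - s) ^ 2 ∧
    0 ≤ bb q s t ∧ bb q s t ≤ max s t ^ (q - 2)) ∧
  (∀ (q s t : ℕ → ℝ) (Q L : ℝ), 2 < Q → 0 < L → Tendsto q atTop (𝓝 Q) →
    Tendsto s atTop (𝓝 L) → Tendsto t atTop (𝓝 L) →
    Tendsto (fun k => bb (q k) (s k) (t k)) atTop (𝓝 (L ^ (Q - 2)))) ∧
  ∀ q : ℝ, Measurable (fun x : ℝ × ℝ => bb q x.1 x.2)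

/-- GLJ: the limit of the integrals with `bb`. -/
def T_GLJ : Prop := ∀ (n : ℕ) (q : ℕ → ℝ) (Q C : ℝ) (u v W : ℕ → H n → ℝ) (y Z : H n → ℝ),
  2 < Q → (∀ k, 2 < q k) → Tendsto q atTop (𝓝 Q) → (∀ z, 0 < y z) → Measurable y →
  AEStronglyMeasurable Z volume →
  (∀ k, AEStronglyMeasurable (u k) volume) → (∀ k, AEStronglyMeasurable (v k) volume) →
  (∀ k, AEStronglyMeasurable (W k) volume) →
  (∀ k, ∀ᵐ z, 0 ≤ u k z) → (∀ k, ∀ᵐ z, 0 ≤ v k z) →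
  (∀ᵐ z, Tendsto (fun k => u k z) atTop (𝓝 (y z))) →
  (∀ᵐ z, Tendsto (fun k => v k z) atTop (𝓝 (y z))) →
  (∀ᵐ z, Tendsto (fun k => W k z) atTop (𝓝 (Z z))) → Tail q u → Tail q v →
  (∀ k, Integrable (fun z => |W k z| ^ q k) ∧ ms (q k) (W k) ≤ C) →
  Tendsto (fun k => ∫ z, bb (q k) (u k z) (v k z) * W k z ^ 2) atTop
    (𝓝 (∫ z, y z ^ (Q - 2) * Z z ^ 2))

/-- The weighted norm of the difference of `g` and the gradient of the Jerison-Lee function. -/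
noncomputable def N2 {n : ℕ} (p : ℝ) (g : H n → G n) : ℝ :=
  ∫ z, (‖hg (u0 n) z‖ + ‖g z‖) ^ (p - 2) * ‖hg (u0 n) z - g z‖ ^ 2

/-- LOW: the lower bound for the energy. -/
def T_LOW : Prop := ∀ n : ℕ, 1 ≤ n → ∀ B : ℝ, ∃ A : ℝ, 0 < A ∧ ∀ p S : ℝ, 15 / 8 ≤ p →
  p < 2 → 2 < ps n p → Opt n p S → ∀ (v : H n → ℝ) (g : H n → G n), Cl p v g →
  (∀ᵐ z, 0 ≤ v z) → ms (ps n p) v = ms (ps n p) (u0 n) → en p g ≤ B →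
  Integrable (fun z => (‖hg (u0 n) z‖ + ‖g z‖) ^ (p - 2) * ‖hg (u0 n) z - g z‖ ^ 2) ∧
  en p (fun z => g z - hg (u0 n) z) ≤ A ^ (2 - p) * N2 p g ^ (p / 2) ∧
  ∫ z, bb (ps n p) (u0 n z) (v z) * (v z - u0 n z) ^ 2 ≤ A * N2 p g ∧
  en p (hg (u0 n)) + p * (p - 1) / 2 * 2 ^ (p - 2) * N2 p g
    - p * (4 * (n : ℝ) ^ 2) * ((ps n p - 1) / 2) *
      (∫ z, bb (ps n p) (u0 n z) (v z) * (v z - u0 n z) ^ 2)
    - A * (2 - p) * Real.sqrt (N2 p g) ≤ en p g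

/-- RAT: the rate of convergence. -/
def T_RAT : Prop := ∀ n : ℕ, 1 ≤ n → ∃ A δ : ℝ, 0 < A ∧ 0 < δ ∧ δ ≤ 1 / 8 ∧ ∀ p S : ℝ,
  2 - δ < p → p < 2 → Opt n p S → ∀ (v : H n → ℝ) (g : H n → G n),
  Ext p S (fun z => ms (ps n p) (u0 n) ^ (-(1 / ps n p)) * v z)
    (fun z => ms (ps n p) (u0 n) ^ (-(1 / ps n p)) • g z) → (∀ᵐ z, 0 ≤ v z) →
  Cen (fun z => |v z| ^ ps n p) → Real.sqrt (N2 p g) ≤ A * (2 - p)

/-- CON: asymptotics of the optimal constant and of the extremals. -/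
def T_CON : Prop := ∀ n : ℕ, 1 ≤ n → ∃ A δ : ℝ, 0 < A ∧ 0 < δ ∧ δ ≤ 1 / 8 ∧ ∀ p S : ℝ,
  2 - δ < p → p < 2 → Opt n p S →
  KK n p ≤ S⁻¹ ∧ S⁻¹ ≤ KK n p + A * (2 - p) ^ 2 ∧
  ∀ (U : H n → ℝ) (g : H n → G n), Ext p S U g → (∀ᵐ z, 0 ≤ U z) →
    Cen (fun z => |U z| ^ ps n p) →
    ms (ps n p) (fun z => U z - yq n (ps n p) z) ^ (1 / ps n p) ≤ A * (2 - p)

/-- The final statement with the asymptotics of the optimal constant. -/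
def T_FI2 : Prop := ∀ n : ℕ, 1 ≤ n → IsLeast {C : ℝ | SobolevIneq ℝ n 2 C} (KK n 2) ∧
  ∃ δ A : ℝ, 0 < δ ∧ δ < 1 ∧ 0 < A ∧ ∀ p : ℝ, 2 - δ < p → p < 2 → ∃ C : ℝ, IsLeast {C : ℝ | SobolevIneq ℝ n p C} C ∧
  0 < KK n p ∧ KK n p ≤ C ∧ C ≤ KK n p + A * (2 - p) ^ 2 ∧
  ∃ U : H n → ℝ, (∀ z, 0 ≤ U z) ∧ ms (ps n p) U = 1 ∧ Extr n p C U ∧
    (∀ u : H n → ℝ, Extr n p C u ↔ ∃ (c : ℝ) (a : H n) (r : ℝ), c ≠ 0 ∧ 0 < r ∧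
      u =ᵐ[volume] fun z => c * U (dil r (mul a z))) ∧
    (∀ M ∈ Matrix.unitaryGroup (Fin n) ℂ, (fun z => U (ua M z)) =ᵐ[volume] U) ∧
    (fun z => U (rfn z)) =ᵐ[volume] U ∧
    ms (ps n p) (fun z => U z - yq n (ps n p) z) ^ (1 / ps n p) ≤ A * (2 - p)

end Pool.Agent.H27.HB
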