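import Pool.Agent.H27.HB.Defs

/-!
# Targets, block D: compactness, existence, the limit `p → 2`
-/

set_option autoImplicit false

namespace Pool.Agent.H27.HB
open MeasureTheory Set Filter Topology Pool.Agent.H80.HS Pool.Agent.H93.HQ
open scoped ContDiff ENNReal

/-- The tolerance for centring. -/
noncomputable def kap (n : ℕ) : ℝ := 1 / (8 * (n + 1))

/-- `φ` is almost optimal and almost centred, up to `ε`. -/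
def Near {n : ℕ} (p S ε : ℝ) (φ : H n → ℝ) : Prop :=
  Tst φ ∧ ms (ps n p) φ = 1 ∧ en p (hg φ) ≤ S + ε

/-! ### Concentration -/

/-- CHI: a cutoff function. -/
def T_CHI : Prop := ∀ n : ℕ, ∃ χ : H n → ℝ, Tst χ ∧ (∀ z, 0 ≤ χ z ∧ χ z ≤ 1) ∧
  (∀ z, N z ≤ 1 → χ z = 1) ∧ ∀ z, 2 ≤ N z → χ z = 0

/-- SPL: dichotomy for the unit ball. -/
def T_SPL : Prop := ∀ n : ℕ, 1 ≤ n → ∀ a b η : ℝ, 1 < a → a ≤ b → b < 2 * n + 2 → 0 < η →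
  ∃ ε Λ : ℝ, 0 < ε ∧ 1 < Λ ∧ ∀ p S : ℝ, a ≤ p → p ≤ b → Opt n p S →
  ∀ φ : H n → ℝ, Near p S ε φ →
    ∫ z in {z | N z ≤ 1}, |φ z| ^ ps n p ≤ η ∨ ∫ z in {z | Λ < N z}, |φ z| ^ ps n p ≤ η

/-- SPB: dichotomy for all balls. -/
def T_SPB : Prop := ∀ n : ℕ, 1 ≤ n → ∀ a b η : ℝ, 1 < a → a ≤ b → b < 2 * n + 2 → 0 < η →
  ∃ ε Λ : ℝ, 0 < ε ∧ 1 < Λ ∧ ∀ p S : ℝ, a ≤ p → p ≤ b → Opt n p S →
  ∀ φ : H n → ℝ, Near p S ε φ → ∀ (c : H n) (r : ℝ), 0 < r →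
    ∫ z in {z | N (mul c z) ≤ r}, |φ z| ^ ps n p ≤ η ∨
    ∫ z in {z | Λ * r < N (mul c z)}, |φ z| ^ ps n p ≤ η

/-- LIP: the Cayley transform is Lipschitz for the gauge distance, with a limit at infinity. -/
def T_LIP : Prop := ∀ n : ℕ, ∃ C : ℝ, 0 < C ∧
  (∀ (z : H n), ∑ i : Option (Fin n), (rz i true z ^ 2 + rz i false z ^ 2) = 1) ∧
  (∀ (x y : H n) (i : Option (Fin n)) (b : Bool),
    |rz i b x - rz i b y| ≤ C * N (mul (-x) y)) ∧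
  ∀ (x : H n), |rz none true x + 1| * N x ≤ C ∧ |rz none false x| * N x ≤ C ∧
    ∀ j b, |rz (some j) b x| * N x ≤ C

/-- NCC: no concentration and tightness, from the dichotomy and centring. -/
def T_NCC : Prop := ∀ n : ℕ, 1 ≤ n → ∀ a b η : ℝ, 1 < a → a ≤ b → b < 2 * n + 2 → 0 < η →
  ∃ ε r R : ℝ, 0 < ε ∧ 0 < r ∧ ∀ p S : ℝ, a ≤ p → p ≤ b → Opt n p S →
  ∀ φ : H n → ℝ, Near p S ε φ → (∀ i b', |∫ z, |φ z| ^ ps n p * rz i b' z| ≤ kap n) →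
    (∀ c : H n, ∫ z in {z | N (mul c z) ≤ r}, |φ z| ^ ps n p ≤ η) ∧
    ∫ z in {z | R < N z}, |φ z| ^ ps n p ≤ η

/-- TRM: smooth truncation from below. -/
def T_TRM : Prop := ∃ C : ℝ, 0 < C ∧ ∀ (n : ℕ) (M : ℝ) (φ : H n → ℝ), 0 < M → Tst φ →
  ∃ f : H n → ℝ, Tst f ∧ (∀ z, |f z| ≤ |φ z|) ∧ (∀ z, |φ z| ≤ M → f z = 0) ∧
  (∀ z, 2 * M ≤ |φ z| → f z = φ z) ∧ ∀ z, ‖hg f z‖ ≤ C * ‖hg φ z‖

/-- EQI: uniform smallness of the tails. -/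
def T_EQI : Prop := ∀ n : ℕ, 1 ≤ n → ∀ a b η : ℝ, 1 < a → a ≤ b → b < 2 * n + 2 → 0 < η →
  ∃ ε M R : ℝ, 0 < ε ∧ ∀ p S : ℝ, a ≤ p → p ≤ b → Opt n p S →
  ∀ φ : H n → ℝ, Near p S ε φ → (∀ i b', |∫ z, |φ z| ^ ps n p * rz i b' z| ≤ kap n) →
    ∫ z in {z | M < |φ z| ∨ R < N z}, |φ z| ^ ps n p ≤ η

/-! ### Local compactness -/

/-- TRE: estimate for right translations. -/
def T_TRE : Prop := ∀ n : ℕ, 1 ≤ n → ∀ R : ℝ, 0 < R → ∃ C R' : ℝ, 0 < C ∧ 0 < R' ∧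
  ∀ φ : H n → ℝ, Tst φ → ∀ h : H n, N h ≤ 1 →
    ∫ z in {z | N z ≤ R}, |φ (mul z h) - φ z| ≤
      C * N h * ∫ z in {z | N z ≤ R'}, grad φ z

/-- KOL: compactness from equicontinuity of right translations. -/
def T_KOL : Prop := ∀ (n : ℕ) (f : ℕ → H n → ℝ), (∀ k, Continuous (f k)) →
  (∀ R : ℝ, ∃ C : ℝ, ∀ k, ∫ z in {z | N z ≤ R}, |f k z| ≤ C) →
  (∀ R ε : ℝ, 0 < ε → ∃ δ : ℝ, 0 < δ ∧ ∀ k, ∀ h : H n, N h ≤ δ →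
    ∫ z in {z | N z ≤ R}, |f k (mul z h) - f k z| ≤ ε) →
  ∃ (σ : ℕ → ℕ) (u : H n → ℝ), StrictMono σ ∧ Measurable u ∧
    ∀ᵐ z, Tendsto (fun k => f (σ k) z) atTop (𝓝 (u z))

/-- REL: bounded sequences have almost everywhere convergent subsequences. -/
def T_REL : Prop := ∀ n : ℕ, 1 ≤ n → ∀ (a b C : ℝ) (p : ℕ → ℝ) (φ : ℕ → H n → ℝ),
  1 < a → a ≤ b → b < 2 * n + 2 → (∀ k, a ≤ p k ∧ p k ≤ b) → (∀ k, Tst (φ k)) →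
  (∀ k, ms (ps n (p k)) (φ k) ≤ C) → (∀ k, en (p k) (hg (φ k)) ≤ C) →
  ∃ (σ : ℕ → ℕ) (u : H n → ℝ), StrictMono σ ∧ Measurable u ∧
    ∀ᵐ z, Tendsto (fun k => φ (σ k) z) atTop (𝓝 (u z))

/-- VIT: Vitali's theorem. -/
def T_VIT : Prop := ∀ (n : ℕ) (F : ℕ → H n → ℝ) (f : H n → ℝ),
  (∀ k, AEStronglyMeasurable (F k) volume) →
  (∀ᵐ z, Tendsto (fun k => F k z) atTop (𝓝 (f z))) →
  (∀ η : ℝ, 0 < η → ∃ M R : ℝ, ∀ᶠ k in atTop, Integrable (F k) ∧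
    ∫ z in {z | M < |F k z| ∨ R < N z}, |F k z| ≤ η) →
  Integrable f ∧ Tendsto (fun k => ∫ z, |F k z - f z|) atTop (𝓝 0) ∧
    Tendsto (fun k => ∫ z, F k z) atTop (𝓝 (∫ z, f z))

/-- VTQ: Vitali's theorem for powers with varying exponents. -/
def T_VTQ : Prop := ∀ (n : ℕ) (q : ℕ → ℝ) (Q : ℝ) (φ : ℕ → H n → ℝ) (u : H n → ℝ), 1 ≤ Q →
  (∀ k, 1 ≤ q k) → Tendsto q atTop (𝓝 Q) → (∀ k, AEStronglyMeasurable (φ k) volume) →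
  AEStronglyMeasurable u volume →
  (∀ᵐ z, Tendsto (fun k => φ k z) atTop (𝓝 (u z))) → Tail q φ →
  Integrable (fun z => |u z| ^ Q) ∧
  Tendsto (fun k => ∫ z, |φ k z| ^ q k) atTop (𝓝 (∫ z, |u z| ^ Q)) ∧
  (∀ θ : H n → ℝ, Measurable θ → (∃ B : ℝ, ∀ z, |θ z| ≤ B) →
    Tendsto (fun k => ∫ z, |φ k z| ^ q k * θ z) atTop (𝓝 (∫ z, |u z| ^ Q * θ z))) ∧
  ((∀ k, q k = Q) → Tendsto (fun k => ms Q (fun z => φ k z - u z)) atTop (𝓝 0))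

/-! ### Centring -/

/-- CEN: every weight can be centred. -/
def T_CEN : Prop := ∀ n : ℕ, 1 ≤ n → ∀ ρ : H n → ℝ, Integrable ρ → (∀ z, 0 ≤ ρ z) →
  0 < ∫ z, ρ z → ∃ (a : H n) (r : ℝ), 0 < r ∧
    ∀ (i : Option (Fin n)) (b : Bool), ∫ z, ρ z * rz i b (dil r (mul a z)) = 0

/-- CNT: centring of functions. -/
def T_CNT : Prop := ∀ n : ℕ, 1 ≤ n → ∀ p : ℝ, 1 < p → p < 2 * n + 2 →
  ∀ u : H n → ℝ, MemLp u (ENNReal.ofReal (ps n p)) → 0 < ms (ps n p) u →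
  ∃ (a : H n) (r : ℝ), 0 < r ∧ Cen (fun z => |act p a r u z| ^ ps n p)

/-! ### Existence -/

/-- MIN: centred minimising sequences. -/
def T_MIN : Prop := ∀ n : ℕ, 1 ≤ n → ∀ p S : ℝ, 1 < p → p < 2 * n + 2 → Opt n p S →
  ∃ φ : ℕ → H n → ℝ, ∀ k : ℕ, Near p S (1 / ((k : ℝ) + 1)) (φ k) ∧
    Cen (fun z => |φ k z| ^ ps n p)

/-- EXI: existence of centred extremals for `1 < p ≤ 2`. -/
def T_EXI : Prop := ∀ n : ℕ, 1 ≤ n → ∀ p S : ℝ, 1 < p → p ≤ 2 → Opt n p S →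
  ∃ (u : H n → ℝ) (g : H n → G n), Ext p S u g ∧ Cen (fun z => |u z| ^ ps n p)

/-! ### The limit `p → 2` -/

/-- APX: approximation of extremals by test functions. -/
def T_APX : Prop := ∀ n : ℕ, 1 ≤ n → ∀ p S ε : ℝ, 1 < p → p < 2 * n + 2 → 0 < ε →
  Opt n p S → ∀ (u : H n → ℝ) (g : H n → G n), Ext p S u g →
  Cen (fun z => |u z| ^ ps n p) → ∃ φ : H n → ℝ, Near p S ε φ ∧
    ms (ps n p) (fun z => φ z - u z) ≤ ε ∧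
    ∀ i b, |∫ z, |φ z| ^ ps n p * rz i b z| ≤ ε

/-- RIE: the gradient of a function of finite energy, by duality. -/
def T_RIE : Prop := ∀ n : ℕ, 1 ≤ n → ∀ (u : H n → ℝ) (A : ℝ), 0 ≤ A →
  LocallyIntegrable u volume →
  (∀ ψ : Fin n ⊕ Fin n → H n → ℝ, (∀ i, Tst (ψ i)) →
    |∫ z, u z * (∑ j, (X (ψ (Sum.inl j)) j z + Y (ψ (Sum.inr j)) j z))| ^ 2 ≤
      A * ∫ z, ∑ i, ψ i z ^ 2) →
  ∃ g : H n → G n, MemLp g 2 ∧ en 2 g ≤ A ∧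
    ∀ ψ : Fin n ⊕ Fin n → H n → ℝ, (∀ i, Tst (ψ i)) →
    ∫ z, u z * (∑ j, (X (ψ (Sum.inl j)) j z + Y (ψ (Sum.inr j)) j z)) =
      - ∫ z, ∑ i, g z i * ψ i z

/-- The mollification `∫ η(y) f(y⁻¹ z) dy`. -/
noncomputable def mol {n : ℕ} {E : Type} [NormedAddCommGroup E] [NormedSpace ℝ E]
    (η : H n → ℝ) (f : H n → E) (z : H n) : E := ∫ y, η y • f (mul (-y) z)

/-- MO1: regularity of mollifications. -/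
def T_MO1 : Prop := ∀ (n : ℕ) (η u : H n → ℝ), Tst η → LocallyIntegrable u volume →
  ContDiff ℝ ∞ (mol η u)

/-- MO2: the gradient of mollifications. -/
def T_MO2 : Prop := ∀ (n : ℕ) (η u : H n → ℝ) (g : H n → G n), 1 ≤ n → Tst η →
  LocallyIntegrable u volume → LocallyIntegrable g volume →
  (∀ ψ : Fin n ⊕ Fin n → H n → ℝ, (∀ i, Tst (ψ i)) →
    ∫ z, u z * (∑ j, (X (ψ (Sum.inl j)) j z + Y (ψ (Sum.inr j)) j z)) =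
      - ∫ z, ∑ i, g z i * ψ i z) →
  ∀ z, hg (mol η u) z = mol η g z

/-- MO3: convergence of mollifications. -/
def T_MO3 : Prop := ∀ (n : ℕ) (E : Type) [NormedAddCommGroup E] [NormedSpace ℝ E]
  [CompleteSpace E] (q : ℝ) (f : H n → E), 1 ≤ q → MemLp f (ENNReal.ofReal q) →
  (∀ η : H n → ℝ, Tst η → MemLp (mol η f) (ENNReal.ofReal q)) ∧
  ∀ ε : ℝ, 0 < ε → ∃ δ : ℝ, 0 < δ ∧ ∀ η : H n → ℝ, Tst η → (∀ z, 0 ≤ η z) →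
    ∫ z, η z = 1 → (∀ z, δ ≤ N z → η z = 0) → ∫ z, ‖mol η f z - f z‖ ^ q ≤ ε

/-- MOL: weak gradients in `L^2` are limits of gradients of test functions. -/
def T_MOL : Prop := ∀ n : ℕ, 1 ≤ n → ∀ (u : H n → ℝ) (g : H n → G n),
  MemLp u (ENNReal.ofReal (ps n 2)) → MemLp g 2 →
  (∀ ψ : Fin n ⊕ Fin n → H n → ℝ, (∀ i, Tst (ψ i)) →
    ∫ z, u z * (∑ j, (X (ψ (Sum.inl j)) j z + Y (ψ (Sum.inr j)) j z)) =
      - ∫ z, ∑ i, g z i * ψ i z) → Cl 2 u g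

/-- LSC: lower semicontinuity of the energy as `p → 2`. -/
def T_LSC : Prop := ∀ n : ℕ, 1 ≤ n → ∀ (p A : ℕ → ℝ) (A' C : ℝ) (φ : ℕ → H n → ℝ)
  (u : H n → ℝ), (∀ k, 1 < p k ∧ p k < 2 * n + 2) → Tendsto p atTop (𝓝 2) →
  Tendsto A atTop (𝓝 A') → (∀ k, Tst (φ k)) → AEStronglyMeasurable u volume →
  (∀ᵐ z, Tendsto (fun k => φ k z) atTop (𝓝 (u z))) →
  (∀ k, ms (ps n (p k)) (φ k) ≤ C) → (∀ k, en (p k) (hg (φ k)) ≤ A k) →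
  ∃ g : H n → G n, Cl 2 u g ∧ en 2 g ≤ A'

/-- SUP: upper semicontinuity of the optimal constant. -/
def T_SUP : Prop := ∀ n : ℕ, 1 ≤ n → ∀ (p S : ℕ → ℝ) (P T : ℝ),
  (∀ k, 1 < p k ∧ p k < 2 * n + 2) → 1 < P → P < 2 * n + 2 → Tendsto p atTop (𝓝 P) →
  (∀ k, Opt n (p k) (S k)) → Opt n P T → ∀ ε : ℝ, 0 < ε → ∀ᶠ k in atTop, S k ≤ T + ε

/-- CTS: centred extremals converge to the Jerison-Lee function. -/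
def T_CTS : Prop := ∀ n : ℕ, 1 ≤ n → ∀ (p S : ℕ → ℝ) (T : ℝ) (u : ℕ → H n → ℝ)
  (g : ℕ → H n → G n), (∀ k, 1 < p k ∧ p k ≤ 2) → Tendsto p atTop (𝓝 2) →
  (∀ k, Opt n (p k) (S k)) → Opt n 2 T → (∀ k, Ext (p k) (S k) (u k) (g k)) →
  (∀ k, ∀ᵐ z, 0 ≤ u k z) → (∀ k, Cen (fun z => |u k z| ^ ps n (p k))) →
  ∃ σ : ℕ → ℕ, StrictMono σ ∧
    (∀ᵐ z, Tendsto (fun k => u (σ k) z) atTop (𝓝 (ub n z))) ∧
    Tail (fun k => ps n (p (σ k))) (fun k => u (σ k)) ∧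
    Tendsto (fun k => S (σ k)) atTop (𝓝 T)

end Pool.Agent.H27.HB
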