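import Pool.Agent.H27.HB.Defs

/-!
# Targets, block F: the Cayley transform and the case `p = 2`
-/

set_option autoImplicit false

namespace Pool.Agent.H27.HB
open MeasureTheory Set Filter Topology Pool.Agent.H80.HS Pool.Agent.H93.HQ
open scoped ContDiff ENNReal

/-- CAL: the Laplacian of the monomials. -/
def T_CAL : Prop := ∀ n : ℕ, 1 ≤ n → ∀ (α β : Fin n → ℕ) (a b : ℕ),
  (∑ j, α j) ≤ a → (∑ j, β j) ≤ b →
  ContDiff ℝ ∞ (EE α β a b) ∧ ∀ z : H n,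
    - (∑ j, (X (fun y => X (EE α β a b) j y) j z + Y (fun y => Y (EE α β a b) j y) j z)) *
      (ww z : ℂ) = LL α β a b z

/-- BND: size of the monomials and of their gradients. -/
def T_BND : Prop := ∀ n : ℕ, 1 ≤ n → ∀ (α β : Fin n → ℕ) (a b : ℕ),
  (∑ j, α j) ≤ a → (∑ j, β j) ≤ b → ∃ C : ℝ, 0 < C ∧ ∀ z : H n,
    ‖EE α β a b z‖ ≤ C * u0 n z ∧ ‖LL α β a b z‖ ≤ C * u0 n z ∧
    ∑ j, (‖X (EE α β a b) j z‖ ^ 2 + ‖Y (EE α β a b) j z‖ ^ 2) ≤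
      C * ww z ^ (-((n : ℝ) + 1 / 2))

/-- WIN: integrability of powers of `w`. -/
def T_WIN : Prop := ∀ (n : ℕ) (s : ℝ), ((n : ℝ) + 1) / 2 < s →
  Integrable (fun z : H n => ww z ^ (-s))

/-- MEM: the monomials lie in `Cl 2`. -/
def T_MEM : Prop := ∀ n : ℕ, 1 ≤ n → ∀ (α β : Fin n → ℕ) (a b : ℕ),
  (∑ j, α j) ≤ a → (∑ j, β j) ≤ b →
  Cl 2 (fun z => (EE α β a b z).re) (hg fun z => (EE α β a b z).re) ∧
  Cl 2 (fun z => (EE α β a b z).im) (hg fun z => (EE α β a b z).im)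

/-- WKE: the weak equation of the monomials. -/
def T_WKE : Prop := ∀ n : ℕ, 1 ≤ n → ∀ (α β : Fin n → ℕ) (a b : ℕ),
  (∑ j, α j) ≤ a → (∑ j, β j) ≤ b → ∀ (f : H n → ℝ) (g : H n → G n), Cl 2 f g →
  Integrable (fun z => f z / ww z * (LL α β a b z).re) ∧
  Integrable (fun z => f z / ww z * (LL α β a b z).im) ∧
  Integrable (fun z => f z / ww z * u0 n z) ∧
  ∫ z, inner ℝ (g z) (hg (fun y => (EE α β a b y).re) z) =
    ∫ z, f z / ww z * (LL α β a b z).re ∧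
  ∫ z, inner ℝ (g z) (hg (fun y => (EE α β a b y).im) z) =
    ∫ z, f z / ww z * (LL α β a b z).im

/-- MOM: recursion for the moments of weak solutions. -/
def T_MOM : Prop := ∀ n : ℕ, 1 ≤ n → ∀ (μ : ℝ) (f : H n → ℝ) (g : H n → G n), WS μ f g →
  ∀ (α β : Fin n → ℕ) (a b : ℕ), (∑ j, α j) ≤ a → (∑ j, β j) ≤ b →
  (16 * ((n : ℂ) / 2 + a) * ((n : ℂ) / 2 + b) - (4 * (n : ℂ) ^ 2 + 16 * μ)) * mo f α β a b =
    8 * ((n : ℂ) / 2 + a) * ((b : ℂ) - ((∑ j, β j : ℕ) : ℂ)) * mo f α β a (b - 1)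
    + 8 * ((n : ℂ) / 2 + b) * ((a : ℂ) - ((∑ j, α j : ℕ) : ℂ)) * mo f α β (a - 1) b
    + 4 * ∑ j, (α j : ℂ) * (β j : ℂ) *
        mo f (Function.update α j (α j - 1)) (Function.update β j (β j - 1)) (a - 1) (b - 1)

/-- SEP: the moments determine the function. -/
def T_SEP : Prop := ∀ n : ℕ, 1 ≤ n → ∀ f : H n → ℝ, MemLp f (ENNReal.ofReal (ps n 2)) →
  (∀ (α β : Fin n → ℕ) (a b : ℕ), (∑ j, α j) ≤ a → (∑ j, β j) ≤ b → mo f α β a b = 0) →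
  f =ᵐ[volume] 0

/-- KR0: the ground state. -/
def T_KR0 : Prop := ∀ n : ℕ, 1 ≤ n → ∀ (f : H n → ℝ) (g : H n → G n), WS 0 f g →
  ∃ c : ℝ, f =ᵐ[volume] fun z => c * u0 n z

/-- KR1: the kernel of the second variation, centred. -/
def T_KR1 : Prop := ∀ n : ℕ, 1 ≤ n → ∀ (f : H n → ℝ) (g : H n → G n), WS ((n : ℝ) / 2) f g →
  (∫ z, u0 n z / ww z * f z = 0) →
  (∀ i b, ∫ z, u0 n z / ww z * f z * rz i b z = 0) → f =ᵐ[volume] 0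

/-- GSI: the ground state inequality. -/
def T_GSI : Prop := ∀ n : ℕ, 1 ≤ n → ∀ (f : H n → ℝ) (g : H n → G n), Cl 2 f g →
  Integrable (fun z => f z ^ 2 / ww z) ∧
  4 * (n : ℝ) ^ 2 * ∫ z, f z ^ 2 / ww z ≤ en 2 g

/-- GSE: equality in the ground state inequality. -/
def T_GSE : Prop := ∀ n : ℕ, 1 ≤ n → ∀ (f : H n → ℝ) (g : H n → G n), Cl 2 f g →
  en 2 g ≤ 4 * (n : ℝ) ^ 2 * ∫ z, f z ^ 2 / ww z → WS 0 f g

/-- ZID: identities for the Cayley transform. -/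
def T_ZID : Prop := ∀ n : ℕ, 1 ≤ n →
  (∀ (i : Option (Fin n)) (b : Bool), ContDiff ℝ ∞ (rz i b : H n → ℝ)) ∧
  (∀ (i : Option (Fin n)) (b : Bool) (z : H n), |rz i b z| ≤ 1) ∧
  (∀ z : H n, ∑ i : Option (Fin n), (rz i true z ^ 2 + rz i false z ^ 2) = 1) ∧
  (∀ z : H n, ∑ i : Option (Fin n), (rz i true z • hg (rz i true) z +
    rz i false z • hg (rz i false) z) = 0) ∧
  ∀ z : H n, ∑ i : Option (Fin n), (‖hg (rz i true) z‖ ^ 2 + ‖hg (rz i false) z‖ ^ 2) =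
    8 * n / ww z

/-- ZIQ: the gradients of the Cayley transform lie in `L^Q`. -/
def T_ZIQ : Prop := ∀ n : ℕ, 1 ≤ n → ∀ (i : Option (Fin n)) (b : Bool),
  Integrable (fun z : H n => ‖hg (rz i b) z‖ ^ (2 * (n : ℝ) + 2))

/-- SV2: the second variation at an extremal. -/
def T_SV2 : Prop := ∀ n : ℕ, 1 ≤ n → ∀ S : ℝ, Opt n 2 S →
  ∀ (u : H n → ℝ) (g : H n → G n), Ext 2 S u g → ∀ (χ : H n → ℝ) (h : H n → G n) (B : ℝ),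
  Measurable χ → (∀ z, |χ z| ≤ B) → Cl 2 (fun z => χ z * u z) h →
  ∫ z, |u z| ^ ps n 2 * χ z = 0 →
  S * (ps n 2 - 1) * ∫ z, |u z| ^ ps n 2 * χ z ^ 2 ≤ en 2 h

/-- CL2: centred extremals for `p = 2`. -/
def T_CL2 : Prop := ∀ n : ℕ, 1 ≤ n → ∀ S : ℝ, Opt n 2 S →
  ∀ (u : H n → ℝ) (g : H n → G n), Ext 2 S u g → (∀ᵐ z, 0 ≤ u z) →
  Cen (fun z => |u z| ^ ps n 2) → u =ᵐ[volume] ub n

/-- U0X: the Jerison-Lee function is extremal. -/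
def T_U0X : Prop := ∀ n : ℕ, 1 ≤ n → ∀ S : ℝ, Opt n 2 S →
  Ext 2 S (ub n) (hg (ub n)) ∧ (∀ z, 0 < ub n z) ∧
  (∀ z, S * ub n z ^ (ps n 2 - 2) = 4 * (n : ℝ) ^ 2 / ww z) ∧
  ∀ (f : H n → ℝ) (h : H n → G n), Cl 2 f h →
    ∫ z, inner ℝ (h z) (hg (ub n) z) = S * ∫ z, ub n z ^ (ps n 2 - 1) * f z

/-- SGP: the spectral gap. -/
def T_SGP : Prop := ∀ n : ℕ, 1 ≤ n → ∀ S : ℝ, Opt n 2 S →
  ∀ (f : H n → ℝ) (h : H n → G n), Cl 2 f h → ∫ z, ub n z ^ (ps n 2 - 1) * f z = 0 →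
  Integrable (fun z => ub n z ^ (ps n 2 - 2) * f z ^ 2) ∧
  S * (ps n 2 - 1) * ∫ z, ub n z ^ (ps n 2 - 2) * f z ^ 2 ≤ en 2 h

/-- GAP: no centred function attains the spectral gap. -/
def T_GAP : Prop := ∀ n : ℕ, 1 ≤ n → ∀ S : ℝ, Opt n 2 S →
  ∀ (f : H n → ℝ) (h : H n → G n), Cl 2 f h → ∫ z, ub n z ^ (ps n 2 - 1) * f z = 0 →
  (∀ i b, ∫ z, ub n z ^ (ps n 2 - 1) * f z * rz i b z = 0) →
  en 2 h ≤ S * (ps n 2 - 1) * ∫ z, ub n z ^ (ps n 2 - 2) * f z ^ 2 → f =ᵐ[volume] 0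

end Pool.Agent.H27.HB
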