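import Pool.Agent.H27.HB.Defs

/-!
# Targets, block G: uniqueness for `p` near `2`, and the final statement
-/

set_option autoImplicit false

namespace Pool.Agent.H27.HB
open MeasureTheory Set Filter Topology Pool.Agent.H80.HS Pool.Agent.H93.HQ
open scoped ContDiff ENNReal

/-- BQE: elementary properties of the divided differences. -/
def T_BQE : Prop := (∀ q s t : ℝ, 2 < q → 0 ≤ s → 0 ≤ t →
    (s ^ (q - 1) - t ^ (q - 1)) * (s - t) = (q - 1) * bq q s t * (s - t) ^ 2 ∧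
    s ^ q - t ^ q = q * cq q s t * (s - t) ∧
    0 ≤ bq q s t ∧ bq q s t ≤ max s t ^ (q - 2) ∧
    0 ≤ cq q s t ∧ cq q s t ≤ max s t ^ (q - 1)) ∧
  (∀ (q s t : ℕ → ℝ) (Q L : ℝ), 2 < Q → 0 < L → Tendsto q atTop (𝓝 Q) →
    Tendsto s atTop (𝓝 L) → Tendsto t atTop (𝓝 L) →
    Tendsto (fun k => bq (q k) (s k) (t k)) atTop (𝓝 (L ^ (Q - 2))) ∧
    Tendsto (fun k => cq (q k) (s k) (t k)) atTop (𝓝 (L ^ (Q - 1)))) ∧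
  ∀ q : ℝ, Measurable (fun x : ℝ × ℝ => bq q x.1 x.2) ∧
    Measurable (fun x : ℝ × ℝ => cq q x.1 x.2)

/-- DIF: the difference of two extremals. -/
def T_DIF : Prop := ∀ n : ℕ, 1 ≤ n → ∀ p S : ℝ, 1 < p → p < 2 → 2 < ps n p → Opt n p S →
  ∀ (u v : H n → ℝ) (g h : H n → G n), Ext p S u g → Ext p S v h → (∀ᵐ z, 0 ≤ u z) →
  (∀ᵐ z, 0 ≤ v z) →
  Integrable (fun z => (‖g z‖ + ‖h z‖) ^ (p - 2) * ‖g z - h z‖ ^ 2) ∧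
  Integrable (fun z => bq (ps n p) (u z) (v z) * (u z - v z) ^ 2) ∧
  (p - 1) * ∫ z, (‖g z‖ + ‖h z‖) ^ (p - 2) * ‖g z - h z‖ ^ 2 ≤
    S * (ps n p - 1) * ∫ z, bq (ps n p) (u z) (v z) * (u z - v z) ^ 2

/-- NQ: the normalised difference. -/
def T_NQ : Prop := ∀ n : ℕ, 1 ≤ n → ∀ p S : ℝ, 1 < p → p < 2 → 2 < ps n p → Opt n p S →
  ∀ (u v : H n → ℝ) (g h : H n → G n), Ext p S u g → Ext p S v h → (∀ᵐ z, 0 ≤ u z) →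
  (∀ᵐ z, 0 ≤ v z) → Cen (fun z => |u z| ^ ps n p) → Cen (fun z => |v z| ^ ps n p) →
  ¬ u =ᵐ[volume] v →
  ∃ (W : H n → ℝ) (D : H n → G n), Cl p W D ∧ en p D ≤ (2 ^ p * S) ^ ((2 - p) / 2) ∧
    p - 1 ≤ S * (ps n p - 1) * ∫ z, bq (ps n p) (u z) (v z) * W z ^ 2 ∧
    ∫ z, cq (ps n p) (u z) (v z) * W z = 0 ∧
    ∀ i b, ∫ z, cq (ps n p) (u z) (v z) * W z * rz i b z = 0

/-- GLI: the limits of the integrals. -/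
def T_GLI : Prop := ∀ (n : ℕ) (q : ℕ → ℝ) (Q C : ℝ) (u v W : ℕ → H n → ℝ) (y Z : H n → ℝ),
  2 < Q → (∀ k, 2 < q k) → Tendsto q atTop (𝓝 Q) → (∀ z, 0 < y z) → Measurable y →
  AEStronglyMeasurable Z volume →
  (∀ k, AEStronglyMeasurable (u k) volume) → (∀ k, AEStronglyMeasurable (v k) volume) →
  (∀ k, AEStronglyMeasurable (W k) volume) →
  (∀ k, ∀ᵐ z, 0 ≤ u k z) → (∀ k, ∀ᵐ z, 0 ≤ v k z) →
  (∀ᵐ z, Tendsto (fun k => u k z) atTop (𝓝 (y z))) →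
  (∀ᵐ z, Tendsto (fun k => v k z) atTop (𝓝 (y z))) →
  (∀ᵐ z, Tendsto (fun k => W k z) atTop (𝓝 (Z z))) → Tail q u → Tail q v →
  (∀ k, Integrable (fun z => |W k z| ^ q k) ∧ ms (q k) (W k) ≤ C) →
  Tendsto (fun k => ∫ z, bq (q k) (u k z) (v k z) * W k z ^ 2) atTop
    (𝓝 (∫ z, y z ^ (Q - 2) * Z z ^ 2)) ∧
  ∀ θ : H n → ℝ, Measurable θ → (∀ z, |θ z| ≤ 1) →
    Tendsto (fun k => ∫ z, cq (q k) (u k z) (v k z) * W k z * θ z) atTop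
      (𝓝 (∫ z, y z ^ (Q - 1) * Z z * θ z))

/-- UNQ: uniqueness of centred extremals for `p` near `2`. -/
def T_UNQ : Prop := ∀ n : ℕ, 1 ≤ n → ∃ δ : ℝ, 0 < δ ∧ δ < 1 ∧ ∀ p S : ℝ, 2 - δ < p →
  p < 2 → Opt n p S → ∀ (u v : H n → ℝ) (g h : H n → G n), Ext p S u g → Ext p S v h →
  (∀ᵐ z, 0 ≤ u z) → (∀ᵐ z, 0 ≤ v z) → Cen (fun z => |u z| ^ ps n p) →
  Cen (fun z => |v z| ^ ps n p) → u =ᵐ[volume] v

/-- CEQ: equivariance of centring. -/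
def T_CEQ : Prop := ∀ n : ℕ, 1 ≤ n → ∀ Φ : H n → H n,
  ((∃ A ∈ Matrix.unitaryGroup (Fin n) ℂ, Φ = ua A) ∨ Φ = rfn) →
  ∀ ρ : H n → ℝ, Integrable ρ → Cen ρ → Cen (fun z => ρ (Φ z))

/-- LIM: the limit of the optimal constants. -/
def T_LIM : Prop := ∀ n : ℕ, 1 ≤ n → ∀ T : ℝ, Opt n 2 T → ∀ ε : ℝ, 0 < ε →
  ∃ δ : ℝ, 0 < δ ∧ δ < 1 ∧ ∀ p S : ℝ, 2 - δ < p → p < 2 → Opt n p S →
    |S - T| < ε ∧ ∀ (u : H n → ℝ) (g : H n → G n), Ext p S u g → (∀ᵐ z, 0 ≤ u z) →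
      Cen (fun z => |u z| ^ ps n p) → ∫ z in {z : H n | N z < 1 / ε}, |u z - ub n z| < ε

/-- The final statement. -/
def T_FIN : Prop := ∀ n : ℕ, 1 ≤ n → ∀ ε : ℝ, 0 < ε → ∃ δ : ℝ, 0 < δ ∧ δ < 1 ∧
  ∀ p : ℝ, 2 - δ < p → p < 2 → ∀ C : ℝ, IsLeast {C : ℝ | SobolevIneq ℝ n p C} C →
  ∃ U : H n → ℝ, (∀ z, 0 ≤ U z) ∧ Extr n p C U ∧
    (∀ u : H n → ℝ, Extr n p C u ↔ ∃ (c : ℝ) (a : H n) (r : ℝ), c ≠ 0 ∧ 0 < r ∧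
      u =ᵐ[volume] fun z => c * U (dil r (mul a z))) ∧
    (∀ A ∈ Matrix.unitaryGroup (Fin n) ℂ, (fun z => U (ua A z)) =ᵐ[volume] U) ∧
    (fun z => U (rfn z)) =ᵐ[volume] U ∧
    ∫ z in {z : H n | N z < 1 / ε}, |U z - ub n z| < ε ∧
    ∀ C' : ℝ, IsLeast {C : ℝ | SobolevIneq ℝ n 2 C} C' → |C - C'| < ε

end Pool.Agent.H27.HB
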