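import Pool.Agent.H27.HB.FIN

/-!
Row U0X of MP_8352e3_an: the Jerison-Lee function is extremal.
-/

set_option autoImplicit false

namespace Pool.Agent.H27.HB
open MeasureTheory Set Filter Topology Pool.Agent.H80.HS Pool.Agent.H93.HQ
open scoped ContDiff ENNReal

lemma u0x_ww_pos {n : ℕ} (z : H n) : 0 < ww z := by
  have := sq_nonneg' z
  unfold ww
  positivity

lemma u0x_u0_pos {n : ℕ} (z : H n) : 0 < u0 n z := Real.rpow_pos_of_pos (u0x_ww_pos z) _

lemma u0x_ww_smooth {n : ℕ} : ContDiff ℝ ∞ (fun z : H n => ww z) := by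
  have h1 : ContDiff ℝ ∞ (fun z : H n => sq z) := by
    unfold Pool.Agent.H93.HQ.sq
    have h2 : ContDiff ℝ ∞ (fun z : H n => ‖z.1‖ ^ 2) := contDiff_fst.norm_sq ℝ
    have h3 : ContDiff ℝ ∞ (fun z : H n => ‖z.2.1‖ ^ 2) :=
      (contDiff_fst.comp contDiff_snd).norm_sq ℝ
    exact h2.add h3
  unfold ww
  exact ((contDiff_const.add h1).pow 2).add ((contDiff_snd.comp contDiff_snd).pow 2)

lemma u0x_u0_smooth {n : ℕ} : ContDiff ℝ ∞ (u0 n : H n → ℝ) := by
  unfold u0
  exact u0x_ww_smooth.rpow_const_of_ne fun z => (u0x_ww_pos z).ne'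

lemma u0x_EE {n : ℕ} (z : H n) :
    EE (fun _ : Fin n => 0) (fun _ => 0) 0 0 z = (u0 n z : ℂ) := by
  simp [EE]

lemma u0x_LL {n : ℕ} (z : H n) :
    LL (fun _ : Fin n => 0) (fun _ => 0) 0 0 z = ((4 * (n : ℝ) ^ 2 * u0 n z : ℝ) : ℂ) := by
  unfold LL
  rw [u0x_EE]
  simp only [Finset.sum_const_zero, Nat.cast_zero, sub_zero, mul_zero, zero_mul, add_zero]
  push_cast
  ring

theorem pf_U0X (hCL2 : T_CL2) (hEXI : T_EXI) (hSGN : T_SGN) (hCLA : T_CLA) (hCLC : T_CLC)
    (hMEM : T_MEM) (hZER : T_ZER) (hWKE : T_WKE) (hHGA : T_HGA) : T_U0X := by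
  intro n hn S hS
  have hn' : (1 : ℝ) ≤ n := by exact_mod_cast hn
  have hn0 : (n : ℝ) ≠ 0 := by positivity
  have hpQ : (2 : ℝ) < 2 * n + 2 := by linarith
  obtain ⟨hq, hth, hqt⟩ := fin_exp hn (by norm_num : (1 : ℝ) < 2) hpQ
  set q := ps n 2 with hqdef
  have hq0 : 0 < q := by linarith
  have hq2 : q = 2 + 2 / n := by
    rw [hqdef]; unfold ps
    rw [eq_comm, eq_div_iff (by linarith)]
    have h3 : (2 : ℝ) / n * n = 2 := div_mul_cancel₀ _ hn0
    nlinarith
  set M0 : ℝ := ms q (u0 n) with hM0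
  set c : ℝ := M0 ^ (-(1 / q)) with hc
  have hM0n : 0 ≤ M0 := integral_nonneg fun z => Real.rpow_nonneg (abs_nonneg _) _
  have hub : ∀ z, ub n z = c * u0 n z := fun z => rfl
  have hc0 : 0 ≤ c := Real.rpow_nonneg hM0n _
  -- existence
  obtain ⟨U, g, hU, hU0, hUc⟩ := fin_exist hEXI hSGN hCLA hCLC hn (by norm_num) le_rfl hS
  have h1 : U =ᵐ[volume] ub n := hCL2 n hn S hS U g hU (Eventually.of_forall hU0) hUc
  have hms : ms q (ub n) = 1 := by
    rw [← hU.2.1]
    refine integral_congr_ae ?_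
    filter_upwards [h1] with z hz
    rw [← hz]
  have hms2 : ms q (ub n) = |c| ^ q * M0 := by
    have : ms q (ub n) = ms q (fun z => c * u0 n z) := rfl
    rw [this, fin_ms_mul]
  have hM0p : 0 < M0 := by
    rcases hM0n.lt_or_eq with h | h
    · exact h
    · rw [hms, ← h, mul_zero] at hms2
      exact absurd hms2 one_ne_zero
  have hcp : 0 < c := Real.rpow_pos_of_pos hM0p _
  have hubp : ∀ z, 0 < ub n z := fun z => by
    rw [hub]; exact mul_pos hcp (u0x_u0_pos z)
  -- the gradient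
  have hgub : ∀ z, hg (ub n) z = c • hg (u0 n) z := by
    intro z
    have hd := (u0x_u0_smooth (n := n)).differentiable (by simp) z
    have := (hHGA n (u0 n) (u0 n) z hd hd).1 c 0
    simp only [zero_mul, add_zero, zero_smul] at this
    exact this
  have hcl0 : Cl 2 (u0 n) (hg (u0 n)) := by
    have h2 := (hMEM n hn (fun _ => 0) (fun _ => 0) 0 0 (by simp) (by simp)).1
    have h3 : (fun z : H n => (EE (fun _ : Fin n => 0) (fun _ => 0) 0 0 z).re) = u0 n := by
      ext z
      rw [u0x_EE]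
      simp
    rw [h3] at h2
    exact h2
  have hclub : Cl 2 (ub n) (hg (ub n)) := by
    have h2 := fin_cl_smul hCLA hn (by norm_num) hpQ hcl0 c
    have h3 : (fun z => c • hg (u0 n) z) = hg (ub n) := by
      ext1 z; rw [hgub]
    rw [h3] at h2
    exact h2
  have hclg : Cl 2 (ub n) g := (hCLC n hn 2 (by norm_num) hpQ).1 _ _ _ _ hU.1 h1
    (EventuallyEq.refl _ _)
  have hgg : hg (ub n) =ᵐ[volume] g := by
    have h2 := hCLA n hn 2 (by norm_num) hpQ _ _ _ _ 1 (-1) hclub hclg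
    have h3 : (fun z : H n => 1 * ub n z + -1 * ub n z) = fun _ => 0 := by
      ext z; ring
    rw [h3] at h2
    have h4 := hZER n hn 2 (by norm_num) hpQ _ h2
    filter_upwards [h4] with z hz
    simp only [one_smul, neg_smul, Pi.zero_apply] at hz
    exact add_neg_eq_zero.1 hz
  have hen : en 2 (hg (ub n)) = S := by
    rw [← hU.2.2]
    refine integral_congr_ae ?_
    filter_upwards [hgg] with z hz
    rw [hz]
  -- the weak equation
  have hweak : ∀ (f : H n → ℝ) (h : H n → G n), Cl 2 f h →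
      ∫ z, inner ℝ (h z) (hg (ub n) z) = 4 * (n : ℝ) ^ 2 * ∫ z, f z / ww z * ub n z := by
    intro f h hf
    obtain ⟨-, -, -, h2, -⟩ := hWKE n hn (fun _ => 0) (fun _ => 0) 0 0 (by simp) (by simp) f h hf
    have h3 : (fun z : H n => (EE (fun _ : Fin n => 0) (fun _ => 0) 0 0 z).re) = u0 n := by
      ext z
      rw [u0x_EE]
      simp
    rw [h3] at h2
    have h4 : ∀ z : H n, (LL (fun _ : Fin n => 0) (fun _ => 0) 0 0 z).re =
        4 * (n : ℝ) ^ 2 * u0 n z := by
      intro z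
      rw [u0x_LL, Complex.ofReal_re]
    simp only [h4] at h2
    have h5 : ∫ z, inner ℝ (h z) (hg (ub n) z) = c * ∫ z, inner ℝ (h z) (hg (u0 n) z) := by
      rw [← integral_const_mul]
      refine integral_congr_ae (Eventually.of_forall fun z => ?_)
      simp only
      rw [hgub, inner_smul_right]
    rw [h5, h2, ← integral_const_mul, ← integral_const_mul]
    refine integral_congr_ae (Eventually.of_forall fun z => ?_)
    simp only
    rw [hub]
    ring
  -- powers
  have hpow : ∀ z : H n, u0 n z ^ (q - 2) = (ww z)⁻¹ := by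
    intro z
    unfold u0
    rw [← Real.rpow_mul (u0x_ww_pos z).le]
    have : -(n : ℝ) / 2 * (q - 2) = -1 := by
      rw [hq2]; field_simp; ring
    rw [this, Real.rpow_neg_one]
  have hSval : S = 4 * (n : ℝ) ^ 2 * (c ^ 2 * M0) := by
    have h2 := hweak _ _ hclub
    have h3 : ∫ z, inner ℝ (hg (ub n) z) (hg (ub n) z) = S := by
      rw [← hen]
      refine integral_congr_ae (Eventually.of_forall fun z => ?_)
      simp only
      rw [real_inner_self_eq_norm_sq, Real.rpow_two]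
    rw [h3] at h2
    rw [h2]
    congr 1
    rw [hM0]
    unfold ms
    rw [← integral_const_mul]
    refine integral_congr_ae (Eventually.of_forall fun z => ?_)
    simp only
    rw [abs_of_pos (u0x_u0_pos z), hub]
    have h4 : u0 n z ^ q = u0 n z ^ (2 : ℝ) * (ww z)⁻¹ := by
      rw [← hpow, ← Real.rpow_add (u0x_u0_pos z)]
      ring_nf
    rw [h4, Real.rpow_two]
    ring
  have hSub : ∀ z, S * ub n z ^ (q - 2) = 4 * (n : ℝ) ^ 2 / ww z := by
    intro z
    rw [hub, Real.mul_rpow hcp.le (u0x_u0_pos z).le, hpow, hSval]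
    have h2 : c ^ 2 * M0 * c ^ (q - 2) = 1 := by
      rw [← Real.rpow_two, hc, ← Real.rpow_mul hM0n, ← Real.rpow_mul hM0n]
      nth_rewrite 2 [← Real.rpow_one M0]
      rw [← Real.rpow_add hM0p, ← Real.rpow_add hM0p]
      have : -(1 / q) * 2 + 1 + -(1 / q) * (q - 2) = 0 := by field_simp; ring
      rw [this, Real.rpow_zero]
    calc 4 * (n : ℝ) ^ 2 * (c ^ 2 * M0) * (c ^ (q - 2) * (ww z)⁻¹)
        = 4 * (n : ℝ) ^ 2 * (c ^ 2 * M0 * c ^ (q - 2)) * (ww z)⁻¹ := by ring
      _ = _ := by rw [h2, mul_one, div_eq_mul_inv]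
  refine ⟨⟨hclub, hms, hen⟩, hubp, hSub, ?_⟩
  intro f h hf
  rw [hweak f h hf, ← integral_const_mul, ← integral_const_mul]
  refine integral_congr_ae (Eventually.of_forall fun z => ?_)
  simp only
  have h2 : ub n z ^ (q - 1) = ub n z ^ (q - 2) * ub n z := by
    nth_rewrite 3 [← Real.rpow_one (ub n z)]
    rw [← Real.rpow_add (hubp z)]
    ring_nf
  rw [h2]
  have h3 : S * (ub n z ^ (q - 2) * ub n z * f z) = (S * ub n z ^ (q - 2)) * (ub n z * f z) := by
    ring
  rw [h3, hSub]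
  ring

end Pool.Agent.H27.HB
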