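import Pool.Agent.H27.HB.FIN
import Pool.Agent.H27.HB.TX
import Pool.Agent.H27.HB.U0X

/-!
Row CON of MP_8352e3_an: asymptotics of the optimal constant and of the extremals.
-/

set_option autoImplicit false

namespace Pool.Agent.H27.HB
open MeasureTheory Set Filter Topology Pool.Agent.H80.HS Pool.Agent.H93.HQ
open scoped ContDiff ENNReal

lemma con_exp {n : ℕ} (hn : 1 ≤ n) {p : ℝ} (h1 : 2 - min (1 / 8) (2 / ((n : ℝ) + 2)) < p)
    (h2 : p < 2) : 15 / 8 < p ∧ 2 < ps n p ∧ ps n p ≤ 4 ∧ 1 / 2 ≤ th n p ∧ th n p ≤ 1 := by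
  have hn' : (1 : ℝ) ≤ n := by exact_mod_cast hn
  have hδh : min (1 / 8) (2 / ((n : ℝ) + 2)) ≤ 1 / 8 := min_le_left _ _
  have hδ2 : min (1 / 8) (2 / ((n : ℝ) + 2)) ≤ 2 / ((n : ℝ) + 2) := min_le_right _ _
  have h3 : (0 : ℝ) < 2 * n + 2 - p := by linarith
  refine ⟨by linarith, ?_, ?_, ?_, ?_⟩
  · unfold ps
    rw [lt_div_iff₀ h3]
    have h4 : 2 - 2 / ((n : ℝ) + 2) < p := by linarith
    have h5 : (2 - 2 / ((n : ℝ) + 2)) * (n + 2) = 2 * n + 2 := by field_simp; ring
    nlinarith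
  · unfold ps
    rw [div_le_iff₀ h3]
    nlinarith
  · unfold th
    rw [le_div_iff₀ (by positivity)]
    linarith
  · unfold th
    rw [div_le_iff₀ (by positivity)]
    linarith

theorem pf_CON (hRAT : T_RAT) (hLOW : T_LOW) (hUCL : T_UCL) (hUTL : T_UTL) (hOPT : T_OPT)
    (hCLA : T_CLA) (hSOB : T_SOB) (hEXI : T_EXI) (hSGN : T_SGN) (hCLC : T_CLC) : T_CON := by
  intro n hn
  have hn' : (1 : ℝ) ≤ n := by exact_mod_cast hn
  obtain ⟨A1, δ1, hA1, hδ1, hδ1', hR⟩ := hRAT n hn
  obtain ⟨-, A0, hA0, hU2⟩ := hUTL n hn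
  obtain ⟨A2, hA2, hL⟩ := hLOW n hn A0
  obtain ⟨L, M', hLp, hLM⟩ := hOPT n hn (3 / 2) 2 (by norm_num) (by norm_num) (by linarith)
  have hA01 : 1 ≤ A0 := by
    obtain ⟨h1, h2, -, -⟩ := hU2 2 (by norm_num) le_rfl
    have h3 : A0⁻¹ ≤ A0 := h1.trans h2
    by_contra h
    rw [not_le] at h
    have h4 : 1 < A0⁻¹ := (one_lt_inv₀ hA0).2 h
    linarith
  set K3 : ℝ := max 1 (max 1 A2 / L) with hK3
  have hK31 : 1 ≤ K3 := le_max_left _ _
  set C3 : ℝ := 12 * (n : ℝ) ^ 2 * A2 * A1 ^ 2 + A2 * A1 with hC3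
  have hC30 : 0 < C3 := by positivity
  set δ : ℝ := min δ1 (min (1 / 8) (2 / ((n : ℝ) + 2))) with hδ
  have hδ0 : 0 < δ := by positivity
  have core : ∀ p S : ℝ, 2 - δ < p → p < 2 → Opt n p S → ∀ (U : H n → ℝ) (g : H n → G n),
      Ext p S U g → (∀ᵐ z, 0 ≤ U z) → Cen (fun z => |U z| ^ ps n p) →
      Rq n p - S ≤ C3 * A0 * (2 - p) ^ 2 ∧
      ms (ps n p) (fun z => U z - yq n (ps n p) z) ^ (1 / ps n p) ≤
        A0 * K3 * A1 * (2 - p) := by
    intro p S hp1 hp2 hS U g hU hU0 hUc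
    have hpδ1 : 2 - δ1 < p := by
      have : δ ≤ δ1 := min_le_left _ _
      linarith
    obtain ⟨hp15, hq2, hq4, hth, hth1⟩ := con_exp hn (p := p) (by
      have : δ ≤ min (1 / 8) (2 / ((n : ℝ) + 2)) := min_le_right _ _
      linarith) hp2
    have hpQ : p < 2 * n + 2 := by linarith
    have hp11 : 1 < p := by linarith
    have hp0 : 0 < p := by linarith
    have hex := fin_exp hn hp11 hpQ
    have hq0 : 0 < ps n p := by linarith
    obtain ⟨hMl, hMu, hEu, -⟩ := hU2 p hp15.le hp2.le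
    set M : ℝ := ms (ps n p) (u0 n) with hM
    have hM0 : 0 < M := (inv_pos.2 hA0).trans_le hMl
    set c : ℝ := M ^ (1 / ps n p) with hc
    have hc0 : 0 < c := Real.rpow_pos_of_pos hM0 _
    have hcinv : M ^ (-(1 / ps n p)) * c = 1 := by
      rw [hc, ← Real.rpow_add hM0]
      simp
    set v : H n → ℝ := fun z => c * U z with hv
    set gv : H n → G n := fun z => c • g z with hgv
    have hvE : Ext p S (fun z => M ^ (-(1 / ps n p)) * v z)
        (fun z => M ^ (-(1 / ps n p)) • gv z) := by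
      have h1 : (fun z => M ^ (-(1 / ps n p)) * v z) = U := by
        ext z
        simp only [hv]
        rw [← mul_assoc, hcinv, one_mul]
      have h2 : (fun z => M ^ (-(1 / ps n p)) • gv z) = g := by
        ext1 z
        simp only [hgv]
        rw [smul_smul, hcinv, one_smul]
      rw [h1, h2]
      exact hU
    have hvcl : Cl p v gv := fin_cl_smul hCLA hn hp11 hpQ hU.1 c
    have hv0 : ∀ᵐ z, 0 ≤ v z := by
      filter_upwards [hU0] with z hz
      exact mul_nonneg hc0.le hz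
    have hcq : |c| ^ ps n p = M := by
      rw [abs_of_pos hc0, hc, ← Real.rpow_mul hM0.le, one_div, inv_mul_cancel₀ hq0.ne',
        Real.rpow_one]
    have hvms : ms (ps n p) v = M := by
      rw [hv, fin_ms_mul, hU.2.1, mul_one, hcq]
    have hvc : Cen (fun z => |v z| ^ ps n p) := by
      intro i b
      have h2 : ∀ z, |v z| ^ ps n p * rz i b z = M * (|U z| ^ ps n p * rz i b z) := by
        intro z
        simp only [hv]
        rw [abs_mul, Real.mul_rpow (abs_nonneg _) (abs_nonneg _), hcq]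
        ring
      simp only [h2]
      rw [integral_const_mul, hUc i b, mul_zero]
    have hcp : |c| ^ p = M ^ th n p := by
      rw [abs_of_pos hc0, hc, ← Real.rpow_mul hM0.le]
      congr 1
      have h3 := hex.2.2
      field_simp
      linarith
    have hgve : en p gv = S * M ^ th n p := by
      rw [hgv, fin_en_smul, hU.2.2, hcp]
      ring
    have hcl0 : Cl p (u0 n) (hg (u0 n)) := (hUCL n hn p (by linarith) (by linarith)).1
    have hSR := hSOB n hn p S hp11 hpQ hS (u0 n) _ hcl0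
    have hN := hR p S hpδ1 hp2 hS v gv hvE hv0 hvc
    obtain ⟨hint, hl2, hl3, hl4⟩ := hL p S hp15.le hp2 hq2 hS v gv hvcl hv0 hvms
      (by rw [hgve]; exact hSR.trans hEu)
    have hN0 : 0 ≤ N2 p gv := integral_nonneg fun z => by positivity
    have hNsq : N2 p gv = Real.sqrt (N2 p gv) ^ 2 := (Real.sq_sqrt hN0).symm
    set m : ℝ := Real.sqrt (N2 p gv) with hm
    have hm0 : 0 ≤ m := Real.sqrt_nonneg _
    have h2p : 0 < 2 - p := by linarith
    have hm2 : m ^ 2 ≤ A1 ^ 2 * (2 - p) ^ 2 := by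
      rw [← mul_pow]
      exact pow_le_pow_left₀ hm0 hN 2
    have hMth : A0⁻¹ ≤ M ^ th n p := by
      have hi : A0⁻¹ ≤ 1 := inv_le_one_of_one_le₀ hA01
      calc A0⁻¹ = A0⁻¹ ^ (1 : ℝ) := (Real.rpow_one _).symm
        _ ≤ A0⁻¹ ^ th n p := Real.rpow_le_rpow_of_exponent_ge (inv_pos.2 hA0) hi hth1
        _ ≤ M ^ th n p := Real.rpow_le_rpow (inv_pos.2 hA0).le hMl (by linarith)
    have hMthp : 0 < M ^ th n p := Real.rpow_pos_of_pos hM0 _
    constructor
    · -- the constant
      have h1 : en p (hg (u0 n)) = Rq n p * M ^ th n p := by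
        unfold Rq
        rw [div_mul_cancel₀]
        exact hMthp.ne'
      have h2 : 0 ≤ p * (p - 1) / 2 * 2 ^ (p - 2) * N2 p gv := by
        have : 0 < p - 1 := by linarith
        positivity
      have h3 : p * (4 * (n : ℝ) ^ 2) * ((ps n p - 1) / 2) *
          (∫ z, bb (ps n p) (u0 n z) (v z) * (v z - u0 n z) ^ 2) ≤
          12 * (n : ℝ) ^ 2 * (A2 * m ^ 2) := by
        rw [hNsq] at hl3
        have h4 : p * (4 * (n : ℝ) ^ 2) * ((ps n p - 1) / 2) ≤ 12 * (n : ℝ) ^ 2 := by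
          have h5 : p * ((ps n p - 1) / 2) ≤ 2 * (3 / 2) :=
            mul_le_mul hp2.le (by linarith) (by linarith) (by norm_num)
          have h6 : 0 ≤ 4 * (n : ℝ) ^ 2 := by positivity
          have h7 := mul_le_mul_of_nonneg_right h5 h6
          calc p * (4 * (n : ℝ) ^ 2) * ((ps n p - 1) / 2) =
                p * ((ps n p - 1) / 2) * (4 * (n : ℝ) ^ 2) := by ring
            _ ≤ 2 * (3 / 2) * (4 * (n : ℝ) ^ 2) := h7
            _ = _ := by ring
        have h7 : 0 ≤ p * (4 * (n : ℝ) ^ 2) * ((ps n p - 1) / 2) := by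
          have : 0 < ps n p - 1 := by linarith
          positivity
        calc _ ≤ p * (4 * (n : ℝ) ^ 2) * ((ps n p - 1) / 2) * (A2 * m ^ 2) :=
              mul_le_mul_of_nonneg_left hl3 h7
          _ ≤ _ := mul_le_mul_of_nonneg_right h4 (by positivity)
      have h4 : (Rq n p - S) * M ^ th n p ≤ C3 * (2 - p) ^ 2 := by
        rw [hgve, h1] at hl4
        have h5 : 12 * (n : ℝ) ^ 2 * (A2 * m ^ 2) ≤
            12 * (n : ℝ) ^ 2 * (A2 * (A1 ^ 2 * (2 - p) ^ 2)) := by gcongr
        have h6 : A2 * (2 - p) * m ≤ A2 * (2 - p) * (A1 * (2 - p)) := by gcongr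
        have h7 : C3 * (2 - p) ^ 2 = 12 * (n : ℝ) ^ 2 * (A2 * (A1 ^ 2 * (2 - p) ^ 2)) +
            A2 * (2 - p) * (A1 * (2 - p)) := by
          rw [hC3]; ring
        rw [h7]
        linarith
      have h5 : Rq n p - S ≤ C3 * (2 - p) ^ 2 / M ^ th n p := by
        rw [le_div_iff₀ hMthp]
        exact h4
      refine h5.trans ?_
      rw [div_le_iff₀ hMthp]
      have h6 : 1 ≤ A0 * M ^ th n p := by
        have := mul_le_mul_of_nonneg_left hMth hA0.le
        rwa [mul_inv_cancel₀ hA0.ne'] at this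
      have h7 : 0 ≤ C3 * (2 - p) ^ 2 := by positivity
      calc C3 * (2 - p) ^ 2 ≤ C3 * (2 - p) ^ 2 * (A0 * M ^ th n p) :=
            le_mul_of_one_le_right h7 h6
        _ = _ := by ring
    · -- the extremals
      set w : H n → ℝ := fun z => 1 * v z + (-1) * u0 n z with hw
      have hwcl := hCLA n hn p hp11 hpQ _ _ _ _ 1 (-1) hvcl hcl0
      have hs := hSOB n hn p S hp11 hpQ hS _ _ hwcl
      have hge : (fun z => (1 : ℝ) • gv z + (-1 : ℝ) • hg (u0 n) z) =
          fun z => gv z - hg (u0 n) z := by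
        ext1 z
        rw [one_smul, neg_smul, one_smul, sub_eq_add_neg]
      rw [hge] at hs
      have hLS : L ≤ S := ((hLM p (by linarith) hp2.le).2 S hS).1
      have hmw0 : 0 ≤ ms (ps n p) w := integral_nonneg fun z => Real.rpow_nonneg (abs_nonneg _) _
      have h1 : L * ms (ps n p) w ^ th n p ≤ max 1 A2 * (A1 * (2 - p)) ^ p := by
        have h2 : L * ms (ps n p) w ^ th n p ≤ S * ms (ps n p) w ^ th n p :=
          mul_le_mul_of_nonneg_right hLS (Real.rpow_nonneg hmw0 _)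
        have h3 : A2 ^ (2 - p) ≤ max 1 A2 := by
          calc A2 ^ (2 - p) ≤ (max 1 A2) ^ (2 - p) :=
                Real.rpow_le_rpow hA2.le (le_max_right _ _) h2p.le
            _ ≤ (max 1 A2) ^ (1 : ℝ) :=
                Real.rpow_le_rpow_of_exponent_le (le_max_left _ _) (by linarith)
            _ = _ := Real.rpow_one _
        have h4 : N2 p gv ^ (p / 2) ≤ (A1 * (2 - p)) ^ p := by
          have h5 : N2 p gv ^ (p / 2) = m ^ p := by
            rw [hNsq, ← Real.rpow_natCast, ← Real.rpow_mul hm0]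
            congr 1
            push_cast
            ring
          rw [h5]
          exact Real.rpow_le_rpow hm0 hN hp0.le
        refine h2.trans (hs.trans (hl2.trans ?_))
        exact mul_le_mul h3 h4 (Real.rpow_nonneg hN0 _) (by positivity)
      have h2 : ms (ps n p) w ^ (1 / ps n p) ≤ K3 * (A1 * (2 - p)) := by
        have h3 : ms (ps n p) w ^ th n p ≤ K3 * (A1 * (2 - p)) ^ p := by
          have h4 : ms (ps n p) w ^ th n p ≤ max 1 A2 / L * (A1 * (2 - p)) ^ p := by
            rw [div_mul_eq_mul_div, le_div_iff₀ hLp]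
            linarith
          refine h4.trans ?_
          exact mul_le_mul_of_nonneg_right (le_max_right _ _)
            (Real.rpow_nonneg (by positivity) _)
        have h5 : ms (ps n p) w ^ (1 / ps n p) = (ms (ps n p) w ^ th n p) ^ (1 / p) := by
          rw [← Real.rpow_mul hmw0]
          congr 1
          have h6 := hex.2.2
          field_simp
          linarith
        have hb : 0 ≤ A1 * (2 - p) := by positivity
        rw [h5]
        calc (ms (ps n p) w ^ th n p) ^ (1 / p) ≤ (K3 * (A1 * (2 - p)) ^ p) ^ (1 / p) :=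
              Real.rpow_le_rpow (Real.rpow_nonneg hmw0 _) h3 (by positivity)
          _ = K3 ^ (1 / p) * (A1 * (2 - p)) := by
              rw [Real.mul_rpow (by linarith) (Real.rpow_nonneg hb _), ← Real.rpow_mul hb,
                mul_one_div, div_self hp0.ne', Real.rpow_one]
          _ ≤ K3 * (A1 * (2 - p)) := by
              refine mul_le_mul_of_nonneg_right ?_ hb
              calc K3 ^ (1 / p) ≤ K3 ^ (1 : ℝ) := Real.rpow_le_rpow_of_exponent_le hK31 (by
                    rw [div_le_one hp0]; exact hp11.le)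
                _ = K3 := Real.rpow_one _
      have h3 : (fun z => U z - yq n (ps n p) z) = fun z => M ^ (-(1 / ps n p)) * w z := by
        ext z
        simp only [hw, hv, yq]
        have : M ^ (-(1 / ps n p)) * (1 * (c * U z) + -1 * u0 n z) =
            (M ^ (-(1 / ps n p)) * c) * U z - M ^ (-(1 / ps n p)) * u0 n z := by ring
        rw [this, hcinv, one_mul]
      have hMn : 0 < M ^ (-(1 / ps n p)) := Real.rpow_pos_of_pos hM0 _
      rw [h3, fin_ms_mul, abs_of_pos hMn, Real.mul_rpow (Real.rpow_nonneg hMn.le _) hmw0,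
        ← Real.rpow_mul hMn.le, mul_one_div, div_self hq0.ne', Real.rpow_one]
      have h4 : M ^ (-(1 / ps n p)) ≤ A0 := by
        rw [Real.rpow_neg hM0.le, ← Real.inv_rpow hM0.le]
        have hMi : M⁻¹ ≤ A0 := by
          rw [inv_le_comm₀ hM0 hA0]; exact hMl
        calc M⁻¹ ^ (1 / ps n p) ≤ A0 ^ (1 / ps n p) :=
              Real.rpow_le_rpow (inv_pos.2 hM0).le hMi (by positivity)
          _ ≤ A0 ^ (1 : ℝ) := Real.rpow_le_rpow_of_exponent_le hA01 (by
              rw [div_le_one hq0]; linarith)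
          _ = A0 := Real.rpow_one _
      calc M ^ (-(1 / ps n p)) * ms (ps n p) w ^ (1 / ps n p) ≤ A0 * (K3 * (A1 * (2 - p))) :=
            mul_le_mul h4 h2 (Real.rpow_nonneg hmw0 _) hA0.le
        _ = _ := by ring
  refine ⟨C3 * A0 / L ^ 2 + A0 * K3 * A1, δ, by positivity, hδ0,
    (min_le_left _ _).trans hδ1', ?_⟩
  intro p S hp1 hp2 hS
  have h2p : 0 < 2 - p := by linarith
  have hδ8 : δ ≤ 1 / 8 := (min_le_left _ _).trans hδ1'
  have hp11 : 1 < p := by linarith
  obtain ⟨-, -, -, hRK, hK0, hSR⟩ := hUCL n hn p (by linarith) (by linarith)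
  have hS0 : 0 < S := hS.1
  have hSR' := hSR S hS
  have hR0 : 0 < Rq n p := hS0.trans_le hSR'
  have hKR : KK n p = (Rq n p)⁻¹ := by rw [hRK, inv_inv]
  have hLS : L ≤ S := ((hLM p (by linarith) hp2.le).2 S hS).1
  have hx1 : 0 ≤ A0 * K3 * A1 := by positivity
  have hx2 : 0 ≤ C3 * A0 / L ^ 2 := by positivity
  refine ⟨?_, ?_, ?_⟩
  · rw [hKR]
    exact inv_anti₀ hS0 hSR'
  · obtain ⟨U, g, hU, hU0, hUc⟩ := fin_exist hEXI hSGN hCLA hCLC hn hp11 hp2.le hS
    obtain ⟨h1, -⟩ := core p S hp1 hp2 hS U g hU (Eventually.of_forall hU0) hUc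
    have h2 : S⁻¹ - (Rq n p)⁻¹ ≤ C3 * A0 / L ^ 2 * (2 - p) ^ 2 := by
      have h3 : S⁻¹ - (Rq n p)⁻¹ = (Rq n p - S) / (S * Rq n p) := by
        have := hS0.ne'
        have := hR0.ne'
        field_simp
      rw [h3, div_le_iff₀ (mul_pos hS0 hR0)]
      have h4 : L ^ 2 ≤ S * Rq n p := by
        rw [pow_two]
        exact mul_le_mul hLS (hLS.trans hSR') hLp.le hS0.le
      have h5 : 0 ≤ C3 * A0 * (2 - p) ^ 2 := by positivity
      calc Rq n p - S ≤ C3 * A0 * (2 - p) ^ 2 := h1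
        _ = C3 * A0 / L ^ 2 * (2 - p) ^ 2 * L ^ 2 := by field_simp
        _ ≤ _ := mul_le_mul_of_nonneg_left h4 (by positivity)
    rw [hKR]
    have h6 : 0 ≤ A0 * K3 * A1 * (2 - p) ^ 2 := by positivity
    have h7 : (C3 * A0 / L ^ 2 + A0 * K3 * A1) * (2 - p) ^ 2 =
        C3 * A0 / L ^ 2 * (2 - p) ^ 2 + A0 * K3 * A1 * (2 - p) ^ 2 := by ring
    rw [h7]
    linarith
  · intro U g hU hU0 hUc
    obtain ⟨-, h1⟩ := core p S hp1 hp2 hS U g hU hU0 hUc
    refine h1.trans ?_
    have h7 : 0 ≤ C3 * A0 / L ^ 2 * (2 - p) := by positivity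
    rw [add_mul]
    exact le_add_of_nonneg_left h7

end Pool.Agent.H27.HB
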