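import Pool.Agent.H93.HQ.Targets

/-!
# Uniqueness of the extremals of the horizontal Sobolev inequality for `p` near `2`: definitions
-/

set_option autoImplicit false

namespace Pool.Agent.H27.HB
open MeasureTheory Set Filter Topology Pool.Agent.H80.HS Pool.Agent.H93.HQ
open scoped ContDiff ENNReal

/-- Horizontal vectors. -/
abbrev G (n : ℕ) := EuclideanSpace ℝ (Fin n ⊕ Fin n)

/-- The horizontal gradient `(X_1 u, ..., X_n u, Y_1 u, ..., Y_n u)` as a vector. -/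
noncomputable def hg {n : ℕ} (u : H n → ℝ) (z : H n) : G n :=
  WithLp.toLp 2 (Sum.elim (fun j => X u j z) (fun j => Y u j z))

/-- `p* = Q p / (Q - p)`. -/
noncomputable def ps (n : ℕ) (p : ℝ) : ℝ := (2 * n + 2) * p / (2 * n + 2 - p)

/-- `p / p* = (Q - p) / Q`. -/
noncomputable def th (n : ℕ) (p : ℝ) : ℝ := (2 * n + 2 - p) / (2 * n + 2)

/-- Real test functions. -/
def Tst {n : ℕ} (φ : H n → ℝ) : Prop := ContDiff ℝ ∞ φ ∧ HasCompactSupport φ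

/-- `∫ |u|^q`. -/
noncomputable def ms {n : ℕ} (q : ℝ) (u : H n → ℝ) : ℝ := ∫ z, |u z| ^ q

/-- `∫ |g|^p`. -/
noncomputable def en {n : ℕ} (p : ℝ) (g : H n → G n) : ℝ := ∫ z, ‖g z‖ ^ p

/-- `u` lies in the completion of the test functions and `g` is its horizontal gradient. -/
def Cl {n : ℕ} (p : ℝ) (u : H n → ℝ) (g : H n → G n) : Prop :=
  MemLp u (ENNReal.ofReal (ps n p)) ∧ MemLp g (ENNReal.ofReal p) ∧
  ∃ φ : ℕ → H n → ℝ, (∀ k, Tst (φ k)) ∧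
    Tendsto (fun k => ms (ps n p) (fun z => φ k z - u z)) atTop (𝓝 0) ∧
    Tendsto (fun k => en p (fun z => hg (φ k) z - g z)) atTop (𝓝 0)

/-- `S⁻¹` is the optimal constant. -/
def Opt (n : ℕ) (p S : ℝ) : Prop := 0 < S ∧ IsLeast {C : ℝ | SobolevIneq ℝ n p C} S⁻¹

/-- A normalised extremal with its gradient. -/
def Ext {n : ℕ} (p S : ℝ) (u : H n → ℝ) (g : H n → G n) : Prop :=
  Cl p u g ∧ ms (ps n p) u = 1 ∧ en p g = S

/-- `ν = 1 + |z|^2 - i t`. -/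
noncomputable def nu {n : ℕ} (z : H n) : ℂ := ⟨1 + sq z, -z.2.2⟩

/-- `z_j = x_j + i y_j`. -/
noncomputable def zc {n : ℕ} (j : Fin n) (z : H n) : ℂ := ⟨z.1 j, z.2.1 j⟩

/-- `w = (1 + |z|^2)^2 + t^2 = |ν|^2`. -/
noncomputable def ww {n : ℕ} (z : H n) : ℝ := (1 + sq z) ^ 2 + z.2.2 ^ 2

/-- The Jerison-Lee function `w^(-n/2)`. -/
noncomputable def u0 (n : ℕ) (z : H n) : ℝ := ww z ^ (-(n : ℝ) / 2)

/-- The Jerison-Lee function, normalised in `L^(2*)`. -/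
noncomputable def ub (n : ℕ) (z : H n) : ℝ := ms (ps n 2) (u0 n) ^ (-(1 / ps n 2)) * u0 n z

/-- The Cayley transform: `ζ_0 = 2 / ν - 1` (index `none`), `ζ_j = 2 z_j / ν` (index `some j`). -/
noncomputable def zz {n : ℕ} : Option (Fin n) → H n → ℂ
  | none, z => 2 / nu z - 1
  | some j, z => 2 * zc j z / nu z

/-- Real part (`true`) and imaginary part (`false`) of `ζ_i`. -/
noncomputable def rz {n : ℕ} (i : Option (Fin n)) (b : Bool) (z : H n) : ℝ :=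
  if b then (zz i z).re else (zz i z).im

/-- The weight `ρ` is centred. -/
def Cen {n : ℕ} (ρ : H n → ℝ) : Prop :=
  ∀ (i : Option (Fin n)) (b : Bool), ∫ z, ρ z * rz i b z = 0

/-- The action of `(a, r)`: `z ↦ dil r (mul a z)`, on functions. -/
noncomputable def act {n : ℕ} (p : ℝ) (a : H n) (r : ℝ) (u : H n → ℝ) (z : H n) : ℝ :=
  r ^ ((2 * n + 2 - p) / p) * u (dil r (mul a z))

/-- The action on gradients. -/
noncomputable def actg {n : ℕ} (p : ℝ) (a : H n) (r : ℝ) (g : H n → G n) (z : H n) : G n :=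
  (r ^ ((2 * n + 2 - p) / p) * r) • g (dil r (mul a z))

/-- The action of a complex `n × n` matrix on `z`. -/
noncomputable def ua {n : ℕ} (A : Matrix (Fin n) (Fin n) ℂ) (z : H n) : H n :=
  (WithLp.toLp 2 fun i => (∑ j, A i j * zc j z).re,
    WithLp.toLp 2 fun i => (∑ j, A i j * zc j z).im, z.2.2)

/-- The reflection `(z, t) ↦ (conj z, -t)`. -/
noncomputable def rfn {n : ℕ} (z : H n) : H n := (z.1, -z.2.1, -z.2.2)

/-- The monomials `u_0 z^α (conj z)^β ν^(-a) (conj ν)^(-b)`. -/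
noncomputable def EE {n : ℕ} (α β : Fin n → ℕ) (a b : ℕ) (z : H n) : ℂ :=
  (u0 n z : ℂ) * (∏ j, zc j z ^ α j) * (∏ j, (starRingEnd ℂ (zc j z)) ^ β j) /
    (nu z ^ a * (starRingEnd ℂ (nu z)) ^ b)

/-- `- w Δ EE`. -/
noncomputable def LL {n : ℕ} (α β : Fin n → ℕ) (a b : ℕ) (z : H n) : ℂ :=
  16 * ((n : ℂ) / 2 + a) * ((n : ℂ) / 2 + b) * EE α β a b z
    - 8 * ((n : ℂ) / 2 + a) * ((b : ℂ) - ((∑ j, β j : ℕ) : ℂ)) * EE α β a (b - 1) z
    - 8 * ((n : ℂ) / 2 + b) * ((a : ℂ) - ((∑ j, α j : ℕ) : ℂ)) * EE α β (a - 1) b z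
    - 4 * ∑ j, (α j : ℂ) * (β j : ℂ) *
        EE (Function.update α j (α j - 1)) (Function.update β j (β j - 1)) (a - 1) (b - 1) z

/-- The moments of `f`. -/
noncomputable def mo {n : ℕ} (f : H n → ℝ) (α β : Fin n → ℕ) (a b : ℕ) : ℂ :=
  ∫ z, (f z / ww z : ℝ) * EE α β a b z

/-- Weak solution of `- Δ f = (4 n^2 + 16 μ) f / w`. -/
def WS {n : ℕ} (μ : ℝ) (f : H n → ℝ) (g : H n → G n) : Prop :=
  Cl 2 f g ∧ ∀ φ : H n → ℝ, Tst φ →
    ∫ z, inner ℝ (g z) (hg φ z) = (4 * (n : ℝ) ^ 2 + 16 * μ) * ∫ z, f z * φ z / ww z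

/-- Divided difference of `s ↦ s^(q-1)/(q-1)`. -/
noncomputable def bq (q s t : ℝ) : ℝ :=
  if s = t then s ^ (q - 2) else (s ^ (q - 1) - t ^ (q - 1)) / ((q - 1) * (s - t))

/-- Divided difference of `s ↦ s^q/q`. -/
noncomputable def cq (q s t : ℝ) : ℝ :=
  if s = t then s ^ (q - 1) else (s ^ q - t ^ q) / (q * (s - t))

/-- The tails of `|φ_k|^(q_k)` are uniformly small. -/
def Tail {n : ℕ} (q : ℕ → ℝ) (φ : ℕ → H n → ℝ) : Prop :=
  ∀ η : ℝ, 0 < η → ∃ M R : ℝ, ∀ᶠ k in atTop,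
    Integrable (fun z => |φ k z| ^ q k) ∧
    ∫ z in {z | M < |φ k z| ∨ R < N z}, |φ k z| ^ q k ≤ η

/-- The extremals, as in the problem. -/
def Extr (n : ℕ) (p C : ℝ) (u : H n → ℝ) : Prop :=
  ¬ u =ᵐ[volume] 0 ∧ ∃ g : H n → G n, Cl p u g ∧ ms (ps n p) u ^ th n p = C * en p g

end Pool.Agent.H27.HB
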