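import Pool.Agent.H27.HB.FIN
import Pool.Agent.H27.HB.TX
import Pool.Agent.H27.HB.U0X

/-!
Row FI2 of MP_8352e3_an: the final statement with the asymptotics of the optimal constant.
-/

set_option autoImplicit false

namespace Pool.Agent.H27.HB
open MeasureTheory Set Filter Topology Pool.Agent.H80.HS Pool.Agent.H93.HQ
open scoped ContDiff ENNReal

/-- The optimal constant at `p = 2`. -/
lemma fi2_two (hUCL : T_UCL) (hOPT : T_OPT) (hU0X : T_U0X) (hHGA : T_HGA) {n : ℕ}
    (hn : 1 ≤ n) : IsLeast {C : ℝ | SobolevIneq ℝ n 2 C} (KK n 2) := by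
  have hn' : (1 : ℝ) ≤ n := by exact_mod_cast hn
  obtain ⟨T, hT⟩ : ∃ T, Opt n 2 T := by
    obtain ⟨L, M, -, h⟩ := hOPT n hn 2 2 (by norm_num) le_rfl (by linarith)
    exact (h 2 le_rfl le_rfl).1
  obtain ⟨-, hM0, -, hRK, -, -⟩ := hUCL n hn 2 (by norm_num) (by norm_num)
  obtain ⟨⟨-, -, hE⟩, -⟩ := hU0X n hn T hT
  obtain ⟨hq, hth, hqt⟩ := fin_exp hn (by norm_num : (1 : ℝ) < 2) (by linarith)
  set M : ℝ := ms (ps n 2) (u0 n) with hM
  set c : ℝ := M ^ (-(1 / ps n 2)) with hc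
  have hc0 : 0 < c := Real.rpow_pos_of_pos hM0 _
  have hgub : hg (ub n) = fun z => c • hg (u0 n) z := by
    ext1 z
    have hd := (u0x_u0_smooth (n := n)).differentiable (by simp) z
    have := (hHGA n (u0 n) (u0 n) z hd hd).1 c 0
    simp only [zero_mul, add_zero, zero_smul] at this
    exact this
  rw [hgub, fin_en_smul, abs_of_pos hc0] at hE
  have hcp : c ^ (2 : ℝ) = (M ^ th n 2)⁻¹ := by
    rw [hc, ← Real.rpow_mul hM0.le, ← Real.rpow_neg hM0.le]
    congr 1
    have h1 : ps n 2 ≠ 0 := by linarith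
    field_simp
    linarith
  rw [hcp] at hE
  have h1 : Rq n 2 = T := by
    rw [← hE]
    unfold Rq
    rw [div_eq_inv_mul]
  have h2 : KK n 2 = T⁻¹ := by
    rw [← h1, hRK, inv_inv]
  rw [h2]
  exact hT.2

theorem pf_FI2 (hEXI : T_EXI) (hSGN : T_SGN) (hUNQ : T_UNQ) (hCON : T_CON) (hUCL : T_UCL)
    (hOPT : T_OPT) (hCLA : T_CLA) (hCLC : T_CLC) (hCNT : T_CNT) (hACC : T_ACC) (hACV : T_ACV)
    (hUNA : T_UNA) (hCEQ : T_CEQ) (hU0X : T_U0X) (hHGA : T_HGA) : T_FI2 := by
  intro n hn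
  refine ⟨fi2_two hUCL hOPT hU0X hHGA hn, ?_⟩
  have hn' : (1 : ℝ) ≤ n := by exact_mod_cast hn
  obtain ⟨T, hT⟩ : ∃ T, Opt n 2 T := by
    obtain ⟨L, M, -, h⟩ := hOPT n hn 2 2 (by norm_num) le_rfl (by linarith)
    exact (h 2 le_rfl le_rfl).1
  have hT0 : 0 < T := hT.1
  obtain ⟨δ₁, hδ₁, hδ₁', hU⟩ := hUNQ n hn
  obtain ⟨A, δ₂, hA, hδ₂, hδ₂', hL⟩ := hCON n hn
  refine ⟨min δ₁ δ₂, A, lt_min hδ₁ hδ₂, lt_of_le_of_lt (min_le_left _ _) hδ₁', hA, ?_⟩
  intro p hp1 hp2
  have hpa : 2 - δ₁ < p := by have := min_le_left δ₁ δ₂; linarith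
  have hpb : 2 - δ₂ < p := by have := min_le_right δ₁ δ₂; linarith
  have hp : 1 < p := by linarith
  have hpQ : p < 2 * n + 2 := by linarith
  obtain ⟨hq, hth, hqt⟩ := fin_exp hn hp hpQ
  have hq0 : 0 < ps n p := by linarith
  obtain ⟨S, hS⟩ : ∃ S, Opt n p S := by
    obtain ⟨L, M, -, h⟩ := hOPT n hn p p hp le_rfl hpQ
    exact (h p le_rfl le_rfl).1
  have hS0 : 0 < S := hS.1
  obtain ⟨C, hCS⟩ : ∃ C : ℝ, C = S⁻¹ := ⟨_, rfl⟩
  obtain ⟨hL1, hL2, hL3⟩ := hL p S hpb hp2 hS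
  have hK0 : 0 < KK n p := (hUCL n hn p (by linarith) (by linarith)).2.2.2.2.1
  obtain ⟨U, g, hUg, hU0, hUc⟩ := fin_exist hEXI hSGN hCLA hCLC hn hp hp2.le hS
  have hU0' : ∀ᵐ z, 0 ≤ U z := Eventually.of_forall hU0
  -- uniqueness up to the action
  have key : ∀ (v : H n → ℝ) (h : H n → G n), Ext p S v h → (∀ᵐ z, 0 ≤ v z) →
      ∃ (a : H n) (r : ℝ), 0 < r ∧ v =ᵐ[volume] act p a r U := by
    intro v h hv hv0
    obtain ⟨a, r, hr, hc⟩ := hCNT n hn p hp hpQ v hv.1.1 (by rw [hv.2.1]; exact one_pos)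
    have h1 := fin_ext_act hACC hACV hn hp hpQ a hr hv
    have h2 : ∀ᵐ z, 0 ≤ act p a r v z := by
      filter_upwards [fin_ae hACV hn hp hpQ a hr hv0] with z hz
      exact mul_nonneg (Real.rpow_nonneg hr.le _) hz
    have h3 := hU p S hpa hp2 hS (act p a r v) U _ g h1 hUg h2 hU0' hc hUc
    refine ⟨dil r (-a), r⁻¹, inv_pos.2 hr, ?_⟩
    obtain ⟨-, -, -, -, -, -, h7⟩ := hACV n hn p hp hpQ a r hr
    have h4 := h7 v
    have h5 := fin_ae hACV hn hp hpQ (dil r (-a)) (inv_pos.2 hr) h3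
    filter_upwards [h5] with z hz
    have h6 := congrFun h4 z
    rw [← h6]
    simp only [act] at hz ⊢
    rw [hz]
  refine ⟨C, by rw [hCS]; exact hS.2, hK0, by rw [hCS]; exact hL1, by rw [hCS]; exact hL2, U,
    hU0, hUg.2.1, ?_, ?_, ?_, ?_, hL3 U g hUg hU0' hUc⟩
  · refine ⟨fun h => ?_, g, hUg.1, ?_⟩
    · have h1 : ms (ps n p) U = 0 := by
        unfold ms
        rw [integral_eq_zero_of_ae]
        filter_upwards [h] with z hz
        rw [hz]
        simp [Real.zero_rpow hq0.ne']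
      rw [hUg.2.1] at h1
      exact one_ne_zero h1
    · rw [hUg.2.1, hUg.2.2, hCS, Real.one_rpow, inv_mul_cancel₀ hS0.ne']
  · intro v
    constructor
    · rintro ⟨hv, h, hcl, heq⟩
      rw [hCS] at heq
      obtain ⟨hm, hx⟩ := fin_norm hCLA hn hp hpQ hS0 hv hcl heq
      set m := ms (ps n p) v with hmdef
      set κ := m ^ (-(1 / ps n p)) with hκ
      have hκ0 : 0 < κ := Real.rpow_pos_of_pos hm _
      have main : ∀ s : ℝ, |s| = 1 → (∀ᵐ z, 0 ≤ (s * κ) * v z) →
          ∃ (c : ℝ) (a : H n) (r : ℝ), c ≠ 0 ∧ 0 < r ∧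
            v =ᵐ[volume] fun z => c * U (dil r (mul a z)) := by
        intro s hs h0
        have hs0 : s ≠ 0 := by
          intro h; rw [h] at hs; simp at hs
        obtain ⟨a, r, hr, h1⟩ := key _ _ (hx s hs) h0
        refine ⟨(s * κ)⁻¹ * r ^ ((2 * n + 2 - p) / p), a, r, ?_, hr, ?_⟩
        · have : 0 < r ^ ((2 * n + 2 - p) / p) := Real.rpow_pos_of_pos hr _
          exact mul_ne_zero (inv_ne_zero (mul_ne_zero hs0 hκ0.ne')) this.ne'
        · filter_upwards [h1] with z hz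
          simp only [act] at hz
          rw [mul_assoc, ← hz, ← mul_assoc, inv_mul_cancel₀ (mul_ne_zero hs0 hκ0.ne'), one_mul]
      rcases hSGN n hn p S hp hpQ hS _ _ (hx 1 (by simp)) with h1 | h1
      · exact main 1 (by simp) h1
      · refine main (-1) (by simp) ?_
        filter_upwards [h1] with z hz
        nlinarith
    · rintro ⟨c, a, r, hc, hr, hv⟩
      have hrk : 0 < r ^ ((2 * n + 2 - p) / p) := Real.rpow_pos_of_pos hr _
      set c' : ℝ := c * (r ^ ((2 * n + 2 - p) / p))⁻¹ with hc'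
      have hc'0 : c' ≠ 0 := mul_ne_zero hc (inv_ne_zero hrk.ne')
      have h1 := fin_ext_act hACC hACV hn hp hpQ a hr hUg
      have h2 := fin_cl_smul hCLA hn hp hpQ h1.1 c'
      have h3 : (fun z => c' * act p a r U z) =ᵐ[volume] v := by
        filter_upwards [hv] with z hz
        rw [hz]
        simp only [act, hc']
        field_simp
      have hms : ms (ps n p) v = |c'| ^ ps n p := by
        have : ms (ps n p) v = ms (ps n p) (fun z => c' * act p a r U z) := by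
          refine integral_congr_ae ?_
          filter_upwards [h3] with z hz
          rw [hz]
        rw [this, fin_ms_mul, h1.2.1, mul_one]
      refine ⟨fun h => ?_, _, (hCLC n hn p hp hpQ).1 _ _ _ _ h2 h3 (EventuallyEq.refl _ _), ?_⟩
      · have h5 : ms (ps n p) v = 0 := by
          unfold ms
          rw [integral_eq_zero_of_ae]
          filter_upwards [h] with z hz
          rw [hz]
          simp [Real.zero_rpow hq0.ne']
        rw [hms] at h5
        have := Real.rpow_pos_of_pos (abs_pos.2 hc'0) (ps n p)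
        linarith
      · rw [hms, fin_en_smul, h1.2.2, hCS, ← Real.rpow_mul (abs_nonneg _), hqt]
        field_simp
  · intro B hB
    obtain ⟨hΦ, h1⟩ := hUNA n hn p hp hpQ (ua B) (Or.inl ⟨B, hB, rfl⟩)
    obtain ⟨g', h2, h3⟩ := h1 U g hUg.1
    have hint : Integrable (fun z => |U z| ^ ps n p) := by
      have := hUg.1.1.integrable_norm_rpow (by simpa using hq0) ENNReal.ofReal_ne_top
      simpa [ENNReal.toReal_ofReal hq0.le] using this
    have h4 : Ext p S (fun z => U (ua B z)) g' := by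
      refine ⟨h2, ?_, by rw [h3, hUg.2.2]⟩
      rw [← hUg.2.1]
      have h5 := integral_map (μ := (volume : Measure (H n))) hΦ.measurable.aemeasurable
        (f := fun z => |U z| ^ ps n p)
        (by rw [hΦ.map_eq]; exact hint.aestronglyMeasurable)
      rw [hΦ.map_eq] at h5
      exact h5.symm
    exact hU p S hpa hp2 hS _ U g' g h4 hUg (Eventually.of_forall fun z => hU0 _) hU0'
      (hCEQ n hn (ua B) (Or.inl ⟨B, hB, rfl⟩) _ hint hUc) hUc
  · obtain ⟨hΦ, h1⟩ := hUNA n hn p hp hpQ rfn (Or.inr rfl)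
    obtain ⟨g', h2, h3⟩ := h1 U g hUg.1
    have hint : Integrable (fun z => |U z| ^ ps n p) := by
      have := hUg.1.1.integrable_norm_rpow (by simpa using hq0) ENNReal.ofReal_ne_top
      simpa [ENNReal.toReal_ofReal hq0.le] using this
    have h4 : Ext p S (fun z => U (rfn z)) g' := by
      refine ⟨h2, ?_, by rw [h3, hUg.2.2]⟩
      rw [← hUg.2.1]
      have h5 := integral_map (μ := (volume : Measure (H n))) hΦ.measurable.aemeasurable
        (f := fun z => |U z| ^ ps n p)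
        (by rw [hΦ.map_eq]; exact hint.aestronglyMeasurable)
      rw [hΦ.map_eq] at h5
      exact h5.symm
    exact hU p S hpa hp2 hS _ U g' g h4 hUg (Eventually.of_forall fun z => hU0 _) hU0'
      (hCEQ n hn rfn (Or.inr rfl) _ hint hUc) hUc

end Pool.Agent.H27.HB
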