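import Pool.Agent.H27.HB.TA
import Pool.Agent.H27.HB.TD
import Pool.Agent.H27.HB.TF
import Pool.Agent.H27.HB.TG

/-!
Row FIN of MP_8352e3_an: the final statement.
-/

set_option autoImplicit false

namespace Pool.Agent.H27.HB
open MeasureTheory Set Filter Topology Pool.Agent.H80.HS Pool.Agent.H93.HQ
open scoped ContDiff ENNReal

lemma fin_exp {n : ℕ} (hn : 1 ≤ n) {p : ℝ} (hp : 1 < p) (hpQ : p < 2 * n + 2) :
    1 < ps n p ∧ 0 < th n p ∧ ps n p * th n p = p := by
  have h1 : (0 : ℝ) < 2 * n + 2 - p := by linarith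
  have h2 : (0 : ℝ) < 2 * n + 2 := by positivity
  refine ⟨?_, ?_, ?_⟩
  · unfold ps
    rw [lt_div_iff₀ h1]
    nlinarith
  · unfold th; positivity
  · unfold ps th
    rw [div_mul_div_comm, mul_comm ((2 * (n : ℝ) + 2) * p), mul_comm (2 * (n : ℝ) + 2 - p) (2 * n + 2),
      mul_comm (2 * (n : ℝ) + 2) p, ← mul_assoc, div_eq_iff (by positivity)]
    ring

lemma fin_ms_mul {n : ℕ} (q c : ℝ) (u : H n → ℝ) :
    ms q (fun z => c * u z) = |c| ^ q * ms q u := by
  unfold ms
  rw [← integral_const_mul]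
  refine integral_congr_ae (Eventually.of_forall fun z => ?_)
  simp only [abs_mul]
  exact Real.mul_rpow (abs_nonneg _) (abs_nonneg _)

lemma fin_en_smul {n : ℕ} (p c : ℝ) (g : H n → G n) :
    en p (fun z => c • g z) = |c| ^ p * en p g := by
  unfold en
  rw [← integral_const_mul]
  refine integral_congr_ae (Eventually.of_forall fun z => ?_)
  simp only [norm_smul, Real.norm_eq_abs]
  exact Real.mul_rpow (abs_nonneg _) (norm_nonneg _)

lemma fin_cl_smul (hCLA : T_CLA) {n : ℕ} (hn : 1 ≤ n) {p : ℝ} (hp : 1 < p)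
    (hpQ : p < 2 * n + 2) {u : H n → ℝ} {g : H n → G n} (h : Cl p u g) (c : ℝ) :
    Cl p (fun z => c * u z) (fun z => c • g z) := by
  have := hCLA n hn p hp hpQ u u g g c 0 h h
  simpa using this

/-- A normalised multiple of an extremal is a normalised extremal. -/
lemma fin_norm (hCLA : T_CLA) {n : ℕ} (hn : 1 ≤ n) {p S : ℝ} (hp : 1 < p)
    (hpQ : p < 2 * n + 2) (hS : 0 < S) {v : H n → ℝ} {h : H n → G n} (hv : ¬ v =ᵐ[volume] 0)
    (hcl : Cl p v h) (heq : ms (ps n p) v ^ th n p = S⁻¹ * en p h) :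
    0 < ms (ps n p) v ∧ ∀ s : ℝ, |s| = 1 →
      Ext p S (fun z => (s * ms (ps n p) v ^ (-(1 / ps n p))) * v z)
        (fun z => (s * ms (ps n p) v ^ (-(1 / ps n p))) • h z) := by
  obtain ⟨hq, hth, hqt⟩ := fin_exp hn hp hpQ
  have hq0 : 0 < ps n p := by linarith
  have hint : Integrable (fun z => |v z| ^ ps n p) := by
    have := hcl.1.integrable_norm_rpow (by simpa using hq0) ENNReal.ofReal_ne_top
    simpa [ENNReal.toReal_ofReal hq0.le] using this
  have hnn : 0 ≤ ms (ps n p) v := integral_nonneg fun z => Real.rpow_nonneg (abs_nonneg _) _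
  have hm : 0 < ms (ps n p) v := by
    rcases hnn.lt_or_eq with h1 | h1
    · exact h1
    · exfalso
      apply hv
      have h2 := (integral_eq_zero_iff_of_nonneg
        (fun z => Real.rpow_nonneg (abs_nonneg (v z)) (ps n p)) hint).1 h1.symm
      filter_upwards [h2] with z hz
      simp only [Pi.zero_apply] at hz ⊢
      have := (Real.rpow_eq_zero (abs_nonneg _) hq0.ne').1 hz
      exact abs_eq_zero.1 this
  refine ⟨hm, fun s hs => ⟨fin_cl_smul hCLA hn hp hpQ hcl _, ?_, ?_⟩⟩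
  · rw [fin_ms_mul, abs_mul, hs, one_mul, abs_of_nonneg (Real.rpow_nonneg hnn _),
      ← Real.rpow_mul hnn]
    have : -(1 / ps n p) * ps n p = -1 := by field_simp
    rw [this, Real.rpow_neg_one]
    exact inv_mul_cancel₀ hm.ne'
  · have h3 : en p h = S * ms (ps n p) v ^ th n p := by
      rw [heq, ← mul_assoc, mul_inv_cancel₀ hS.ne', one_mul]
    rw [fin_en_smul, abs_mul, hs, one_mul, abs_of_nonneg (Real.rpow_nonneg hnn _),
      ← Real.rpow_mul hnn, h3]
    have h4 : -(1 / ps n p) * p = - th n p := by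
      have : p = ps n p * th n p := hqt.symm
      field_simp
      linarith
    rw [h4, Real.rpow_neg hnn]
    have h5 : 0 < ms (ps n p) v ^ th n p := Real.rpow_pos_of_pos hm _
    field_simp

/-- The action preserves null sets. -/
lemma fin_ae (hACV : T_ACV) {n : ℕ} (hn : 1 ≤ n) {p : ℝ} (hp : 1 < p) (hpQ : p < 2 * n + 2)
    (a : H n) {r : ℝ} (hr : 0 < r) {P : H n → Prop} (h : ∀ᵐ z, P z) :
    ∀ᵐ z, P (dil r (mul a z)) := by
  obtain ⟨h1, h2, -⟩ := hACV n hn p hp hpQ a r hr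
  set E : Set (H n) := toMeasurable volume {z | ¬ P z} with hE
  have hE0 : volume E = 0 := by rw [hE, measure_toMeasurable]; exact h
  have hEm : MeasurableSet E := measurableSet_toMeasurable _ _
  set f : H n → ℝ := E.indicator 1 with hf
  have hfint : Integrable f := (integrable_indicator_iff hEm).2 (by
    have : IntegrableOn (1 : H n → ℝ) E := by
      rw [IntegrableOn, Measure.restrict_zero_set hE0]
      exact integrable_zero_measure
    exact this)
  have hf0 : ∫ z, f z = 0 := by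
    rw [hf, integral_indicator hEm, Measure.restrict_zero_set hE0, integral_zero_measure]
  have h3 := h1 f
  rw [hf0] at h3
  have hrp : (0 : ℝ) < r ^ (2 * n + 2) := by positivity
  have h4 : ∫ z, f (dil r (mul a z)) = 0 := by
    rcases mul_eq_zero.1 h3 with h | h
    · exact absurd h hrp.ne'
    · exact h
  have h5 := (integral_eq_zero_iff_of_nonneg (fun z => by
    exact Set.indicator_nonneg (fun _ _ => zero_le_one) _) (h2 f hfint)).1 h4
  filter_upwards [h5] with z hz
  by_contra hP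
  have hz' : dil r (mul a z) ∈ E := subset_toMeasurable _ _ hP
  have : f (dil r (mul a z)) = 1 := by rw [hf, Set.indicator_of_mem hz']; rfl
  simp only [Pi.zero_apply] at hz
  rw [this] at hz
  exact one_ne_zero hz

lemma fin_ext_act (hACC : T_ACC) (hACV : T_ACV) {n : ℕ} (hn : 1 ≤ n) {p S : ℝ} (hp : 1 < p)
    (hpQ : p < 2 * n + 2) (a : H n) {r : ℝ} (hr : 0 < r) {u : H n → ℝ} {g : H n → G n}
    (h : Ext p S u g) : Ext p S (act p a r u) (actg p a r g) := by
  obtain ⟨-, -, h3, -, h5, -, -⟩ := hACV n hn p hp hpQ a r hr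
  exact ⟨hACC n hn p hp hpQ a r hr u g h.1, by rw [h3, h.2.1], by rw [h5, h.2.2]⟩

lemma fin_ext_neg (hCLA : T_CLA) {n : ℕ} (hn : 1 ≤ n) {p S : ℝ} (hp : 1 < p)
    (hpQ : p < 2 * n + 2) {u : H n → ℝ} {g : H n → G n} (h : Ext p S u g) :
    Ext p S (fun z => (-1) * u z) (fun z => (-1 : ℝ) • g z) := by
  refine ⟨fin_cl_smul hCLA hn hp hpQ h.1 _, ?_, ?_⟩
  · rw [fin_ms_mul, h.2.1]; simp
  · rw [fin_en_smul, h.2.2]; simp

/-- A nonnegative representative. -/
lemma fin_pos (hCLC : T_CLC) {n : ℕ} (hn : 1 ≤ n) {p S : ℝ} (hp : 1 < p)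
    (hpQ : p < 2 * n + 2) {u : H n → ℝ} {g : H n → G n} (h : Ext p S u g)
    (h0 : ∀ᵐ z, 0 ≤ u z) : Ext p S (fun z => max (u z) 0) g ∧
      u =ᵐ[volume] fun z => max (u z) 0 := by
  have h1 : u =ᵐ[volume] fun z => max (u z) 0 := by
    filter_upwards [h0] with z hz
    exact (max_eq_left hz).symm
  refine ⟨⟨(hCLC n hn p hp hpQ).1 u _ g g h.1 h1 (EventuallyEq.refl _ _), ?_, h.2.2⟩, h1⟩
  rw [← h.2.1]
  refine integral_congr_ae ?_
  filter_upwards [h1] with z hz
  rw [← hz]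

lemma fin_cen_congr {n : ℕ} {ρ ρ' : H n → ℝ} (h : Cen ρ) (hρ : ρ =ᵐ[volume] ρ') : Cen ρ' := by
  intro i b
  rw [← h i b]
  refine integral_congr_ae ?_
  filter_upwards [hρ] with z hz
  rw [hz]

/-- Existence of a centred nonnegative extremal. -/
lemma fin_exist (hEXI : T_EXI) (hSGN : T_SGN) (hCLA : T_CLA) (hCLC : T_CLC) {n : ℕ}
    (hn : 1 ≤ n) {p S : ℝ} (hp : 1 < p) (hp2 : p ≤ 2) (hS : Opt n p S) :
    ∃ (U : H n → ℝ) (g : H n → G n), Ext p S U g ∧ (∀ z, 0 ≤ U z) ∧
      Cen (fun z => |U z| ^ ps n p) := by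
  have hn' : (1 : ℝ) ≤ n := by exact_mod_cast hn
  have hpQ : p < 2 * n + 2 := by linarith
  obtain ⟨u, g, hu, hc⟩ := hEXI n hn p S hp hp2 hS
  rcases hSGN n hn p S hp hpQ hS u g hu with h | h
  · obtain ⟨h1, h2⟩ := fin_pos hCLC hn hp hpQ hu h
    refine ⟨_, g, h1, fun z => le_max_right _ _, fin_cen_congr hc ?_⟩
    filter_upwards [h2] with z hz
    rw [← hz]
  · have h' : ∀ᵐ z, 0 ≤ (-1) * u z := by
      filter_upwards [h] with z hz
      linarith
    obtain ⟨h1, h2⟩ := fin_pos hCLC hn hp hpQ (fin_ext_neg hCLA hn hp hpQ hu) h'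
    refine ⟨_, _, h1, fun z => le_max_right _ _, fin_cen_congr hc ?_⟩
    filter_upwards [h2] with z hz
    rw [← hz]
    simp

lemma fin_ball {n : ℕ} (ρ : ℝ) : volume {z : H n | N z < ρ} ≠ ⊤ := by
  have hsub : {z : H n | N z < ρ} ⊆ Metric.closedBall 0 (max ρ (ρ ^ 2)) := by
    intro z hz
    have hz' : N z < ρ := hz
    have h0 := N_nonneg z
    have h4 := N_pow_four' z
    have hsq : sq z = ‖z.1‖ ^ 2 + ‖z.2.1‖ ^ 2 := rfl
    have hmz := mz_le_N z
    have hm2 := mz_sq z
    have hm0 := mz_nonneg z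
    have h1 : ‖z.1‖ ≤ ρ := by
      have : ‖z.1‖ ^ 2 ≤ mz z ^ 2 := by rw [hm2, hsq]; nlinarith [sq_nonneg ‖z.2.1‖]
      have := (pow_le_pow_iff_left₀ (norm_nonneg _) hm0 two_ne_zero).1 this
      linarith
    have h2 : ‖z.2.1‖ ≤ ρ := by
      have : ‖z.2.1‖ ^ 2 ≤ mz z ^ 2 := by rw [hm2, hsq]; nlinarith [sq_nonneg ‖z.1‖]
      have := (pow_le_pow_iff_left₀ (norm_nonneg _) hm0 two_ne_zero).1 this
      linarith
    have h3 : |z.2.2| ≤ ρ ^ 2 := by
      have h5 : |z.2.2| ^ 2 ≤ (N z ^ 2) ^ 2 := by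
        rw [sq_abs]; nlinarith [sq_nonneg (sq z)]
      have h6 := (pow_le_pow_iff_left₀ (abs_nonneg _) (by positivity) two_ne_zero).1 h5
      nlinarith
    rw [mem_closedBall_zero_iff, Prod.norm_def, Prod.norm_def, Real.norm_eq_abs]
    refine max_le (h1.trans (le_max_left _ _)) (max_le (h2.trans (le_max_left _ _)) ?_)
    exact h3.trans (le_max_right _ _)
  exact ((measure_mono hsub).trans_lt measure_closedBall_lt_top).ne


theorem pf_FIN (hEXI : T_EXI) (hSGN : T_SGN) (hUNQ : T_UNQ) (hLIM : T_LIM) (hOPT : T_OPT)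
    (hCLA : T_CLA) (hCLC : T_CLC) (hCNT : T_CNT) (hACC : T_ACC) (hACV : T_ACV) (hUNA : T_UNA)
    (hCEQ : T_CEQ) (hU0X : T_U0X) : T_FIN := by
  intro n hn ε hε
  have hn' : (1 : ℝ) ≤ n := by exact_mod_cast hn
  obtain ⟨T, hT⟩ : ∃ T, Opt n 2 T := by
    obtain ⟨L, M, -, h⟩ := hOPT n hn 2 2 (by norm_num) le_rfl (by linarith)
    exact (h 2 le_rfl le_rfl).1
  have hT0 : 0 < T := hT.1
  obtain ⟨δ₁, hδ₁, hδ₁', hU⟩ := hUNQ n hn
  set ε' : ℝ := min ε (min (T / 2) (ε * T ^ 2 / 2)) with hε'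
  have hε'0 : 0 < ε' := by positivity
  have hε'1 : ε' ≤ ε := min_le_left _ _
  have hε'2 : ε' ≤ T / 2 := (min_le_right _ _).trans (min_le_left _ _)
  have hε'3 : ε' ≤ ε * T ^ 2 / 2 := (min_le_right _ _).trans (min_le_right _ _)
  obtain ⟨δ₂, hδ₂, hδ₂', hL⟩ := hLIM n hn T hT ε' hε'0
  refine ⟨min δ₁ δ₂, lt_min hδ₁ hδ₂, lt_of_le_of_lt (min_le_left _ _) hδ₁', ?_⟩
  intro p hp1 hp2 C hC
  have hpa : 2 - δ₁ < p := by have := min_le_left δ₁ δ₂; linarith
  have hpb : 2 - δ₂ < p := by have := min_le_right δ₁ δ₂; linarith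
  have hp : 1 < p := by linarith
  have hpQ : p < 2 * n + 2 := by linarith
  obtain ⟨hq, hth, hqt⟩ := fin_exp hn hp hpQ
  have hq0 : 0 < ps n p := by linarith
  obtain ⟨S, hS⟩ : ∃ S, Opt n p S := by
    obtain ⟨L, M, -, h⟩ := hOPT n hn p p hp le_rfl hpQ
    exact (h p le_rfl le_rfl).1
  have hS0 : 0 < S := hS.1
  have hCS : C = S⁻¹ := hC.unique hS.2
  obtain ⟨U, g, hUg, hU0, hUc⟩ := fin_exist hEXI hSGN hCLA hCLC hn hp hp2.le hS
  have hU0' : ∀ᵐ z, 0 ≤ U z := Eventually.of_forall hU0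
  -- uniqueness up to the action
  have key : ∀ (v : H n → ℝ) (h : H n → G n), Ext p S v h → (∀ᵐ z, 0 ≤ v z) →
      ∃ (a : H n) (r : ℝ), 0 < r ∧ v =ᵐ[volume] act p a r U := by
    intro v h hv hv0
    obtain ⟨a, r, hr, hc⟩ := hCNT n hn p hp hpQ v hv.1.1 (by rw [hv.2.1]; exact one_pos)
    have h1 := fin_ext_act hACC hACV hn hp hpQ a hr hv
    have h2 : ∀ᵐ z, 0 ≤ act p a r v z := by
      filter_upwards [fin_ae hACV hn hp hpQ a hr hv0] with z hz
      exact mul_nonneg (Real.rpow_nonneg hr.le _) hz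
    have h3 := hU p S hpa hp2 hS (act p a r v) U _ g h1 hUg h2 hU0' hc hUc
    refine ⟨dil r (-a), r⁻¹, inv_pos.2 hr, ?_⟩
    obtain ⟨-, -, -, -, -, -, h7⟩ := hACV n hn p hp hpQ a r hr
    have h4 := h7 v
    have h5 := fin_ae hACV hn hp hpQ (dil r (-a)) (inv_pos.2 hr) h3
    filter_upwards [h5] with z hz
    have h6 := congrFun h4 z
    rw [← h6]
    simp only [act] at hz ⊢
    rw [hz]
  refine ⟨U, hU0, ?_, ?_, ?_, ?_, ?_, ?_⟩
  · refine ⟨fun h => ?_, g, hUg.1, ?_⟩
    · have h1 : ms (ps n p) U = 0 := by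
        unfold ms
        rw [integral_eq_zero_of_ae]
        filter_upwards [h] with z hz
        rw [hz]
        simp [Real.zero_rpow hq0.ne']
      rw [hUg.2.1] at h1
      exact one_ne_zero h1
    · rw [hUg.2.1, hUg.2.2, hCS, Real.one_rpow, inv_mul_cancel₀ hS0.ne']
  · intro v
    constructor
    · rintro ⟨hv, h, hcl, heq⟩
      rw [hCS] at heq
      obtain ⟨hm, hx⟩ := fin_norm hCLA hn hp hpQ hS0 hv hcl heq
      set m := ms (ps n p) v with hmdef
      set κ := m ^ (-(1 / ps n p)) with hκ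
      have hκ0 : 0 < κ := Real.rpow_pos_of_pos hm _
      have main : ∀ s : ℝ, |s| = 1 → (∀ᵐ z, 0 ≤ (s * κ) * v z) →
          ∃ (c : ℝ) (a : H n) (r : ℝ), c ≠ 0 ∧ 0 < r ∧
            v =ᵐ[volume] fun z => c * U (dil r (mul a z)) := by
        intro s hs h0
        have hs0 : s ≠ 0 := by
          intro h; rw [h] at hs; simp at hs
        obtain ⟨a, r, hr, h1⟩ := key _ _ (hx s hs) h0
        refine ⟨(s * κ)⁻¹ * r ^ ((2 * n + 2 - p) / p), a, r, ?_, hr, ?_⟩
        · have : 0 < r ^ ((2 * n + 2 - p) / p) := Real.rpow_pos_of_pos hr _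
          exact mul_ne_zero (inv_ne_zero (mul_ne_zero hs0 hκ0.ne')) this.ne'
        · filter_upwards [h1] with z hz
          simp only [act] at hz
          rw [mul_assoc, ← hz, ← mul_assoc, inv_mul_cancel₀ (mul_ne_zero hs0 hκ0.ne'), one_mul]
      rcases hSGN n hn p S hp hpQ hS _ _ (hx 1 (by simp)) with h1 | h1
      · exact main 1 (by simp) h1
      · refine main (-1) (by simp) ?_
        filter_upwards [h1] with z hz
        nlinarith
    · rintro ⟨c, a, r, hc, hr, hv⟩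
      have hrk : 0 < r ^ ((2 * n + 2 - p) / p) := Real.rpow_pos_of_pos hr _
      set c' : ℝ := c * (r ^ ((2 * n + 2 - p) / p))⁻¹ with hc'
      have hc'0 : c' ≠ 0 := mul_ne_zero hc (inv_ne_zero hrk.ne')
      have h1 := fin_ext_act hACC hACV hn hp hpQ a hr hUg
      have h2 := fin_cl_smul hCLA hn hp hpQ h1.1 c'
      have h3 : (fun z => c' * act p a r U z) =ᵐ[volume] v := by
        filter_upwards [hv] with z hz
        rw [hz]
        simp only [act, hc']
        field_simp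
      have hms : ms (ps n p) v = |c'| ^ ps n p := by
        have : ms (ps n p) v = ms (ps n p) (fun z => c' * act p a r U z) := by
          refine integral_congr_ae ?_
          filter_upwards [h3] with z hz
          rw [hz]
        rw [this, fin_ms_mul, h1.2.1, mul_one]
      refine ⟨fun h => ?_, _, (hCLC n hn p hp hpQ).1 _ _ _ _ h2 h3 (EventuallyEq.refl _ _), ?_⟩
      · have h5 : ms (ps n p) v = 0 := by
          unfold ms
          rw [integral_eq_zero_of_ae]
          filter_upwards [h] with z hz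
          rw [hz]
          simp [Real.zero_rpow hq0.ne']
        rw [hms] at h5
        have := Real.rpow_pos_of_pos (abs_pos.2 hc'0) (ps n p)
        linarith
      · rw [hms, fin_en_smul, h1.2.2, hCS, ← Real.rpow_mul (abs_nonneg _), hqt]
        field_simp
  · intro A hA
    obtain ⟨hΦ, h1⟩ := hUNA n hn p hp hpQ (ua A) (Or.inl ⟨A, hA, rfl⟩)
    obtain ⟨g', h2, h3⟩ := h1 U g hUg.1
    have hint : Integrable (fun z => |U z| ^ ps n p) := by
      have := hUg.1.1.integrable_norm_rpow (by simpa using hq0) ENNReal.ofReal_ne_top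
      simpa [ENNReal.toReal_ofReal hq0.le] using this
    have h4 : Ext p S (fun z => U (ua A z)) g' := by
      refine ⟨h2, ?_, by rw [h3, hUg.2.2]⟩
      rw [← hUg.2.1]
      have h5 := integral_map (μ := (volume : Measure (H n))) hΦ.measurable.aemeasurable
        (f := fun z => |U z| ^ ps n p)
        (by rw [hΦ.map_eq]; exact hint.aestronglyMeasurable)
      rw [hΦ.map_eq] at h5
      exact h5.symm
    exact hU p S hpa hp2 hS _ U g' g h4 hUg (Eventually.of_forall fun z => hU0 _) hU0'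
      (hCEQ n hn (ua A) (Or.inl ⟨A, hA, rfl⟩) _ hint hUc) hUc
  · obtain ⟨hΦ, h1⟩ := hUNA n hn p hp hpQ rfn (Or.inr rfl)
    obtain ⟨g', h2, h3⟩ := h1 U g hUg.1
    have hint : Integrable (fun z => |U z| ^ ps n p) := by
      have := hUg.1.1.integrable_norm_rpow (by simpa using hq0) ENNReal.ofReal_ne_top
      simpa [ENNReal.toReal_ofReal hq0.le] using this
    have h4 : Ext p S (fun z => U (rfn z)) g' := by
      refine ⟨h2, ?_, by rw [h3, hUg.2.2]⟩
      rw [← hUg.2.1]
      have h5 := integral_map (μ := (volume : Measure (H n))) hΦ.measurable.aemeasurable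
        (f := fun z => |U z| ^ ps n p)
        (by rw [hΦ.map_eq]; exact hint.aestronglyMeasurable)
      rw [hΦ.map_eq] at h5
      exact h5.symm
    exact hU p S hpa hp2 hS _ U g' g h4 hUg (Eventually.of_forall fun z => hU0 _) hU0'
      (hCEQ n hn rfn (Or.inr rfl) _ hint hUc) hUc
  · obtain ⟨-, h1⟩ := hL p S hpb hp2 hS
    have h2 := h1 U g hUg hU0' hUc
    refine lt_of_le_of_lt ?_ (h2.trans_le hε'1)
    have hsub : {z : H n | N z < 1 / ε} ⊆ {z : H n | N z < 1 / ε'} := by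
      intro z hz
      have hz' : N z < 1 / ε := hz
      exact lt_of_lt_of_le hz' (one_div_le_one_div_of_le hε'0 hε'1)
    refine setIntegral_mono_set ?_ (Eventually.of_forall fun z => abs_nonneg _)
      (Eventually.of_forall hsub)
    have hfin := fin_ball (n := n) (1 / ε')
    have : IsFiniteMeasure (volume.restrict {z : H n | N z < 1 / ε'}) :=
      ⟨by rw [Measure.restrict_apply_univ]; exact hfin.lt_top⟩
    obtain ⟨hq2, -, -⟩ := fin_exp hn (by norm_num : (1 : ℝ) < 2) (by linarith)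
    have hubm := ((hU0X n hn T hT).1.1.1).mono_measure
      (Measure.restrict_le_self (s := {z : H n | N z < 1 / ε'}))
    have hUm := (hUg.1.1).mono_measure
      (Measure.restrict_le_self (s := {z : H n | N z < 1 / ε'}))
    have h3 : Integrable U (volume.restrict {z : H n | N z < 1 / ε'}) :=
      hUm.integrable (by rw [ENNReal.one_le_ofReal]; exact hq.le)
    have h4 : Integrable (ub n) (volume.restrict {z : H n | N z < 1 / ε'}) :=
      hubm.integrable (by rw [ENNReal.one_le_ofReal]; exact hq2.le)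
    exact (h3.sub h4).abs
  · intro C' hC'
    have hCT : C' = T⁻¹ := hC'.unique hT.2
    obtain ⟨h1, -⟩ := hL p S hpb hp2 hS
    have h2 : T / 2 < S := by
      have := (abs_lt.1 h1).1
      linarith
    rw [hCS, hCT]
    have h3 : S⁻¹ - T⁻¹ = (T - S) / (S * T) := by field_simp
    rw [h3, abs_div, abs_of_pos (by positivity : 0 < S * T), div_lt_iff₀ (by positivity),
      abs_sub_comm]
    calc |S - T| < ε' := h1
      _ ≤ ε * T ^ 2 / 2 := hε'3
      _ = ε * ((T / 2) * T) := by ring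
      _ ≤ ε * (S * T) := by gcongr

end Pool.Agent.H27.HB
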