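import Pool.Agent.H27.HB.UNQ
import Pool.Agent.H27.HB.TX
import Pool.Agent.H27.HB.U0X

/-!
Row RAT of MP_8352e3_an: the rate of convergence of the extremals.
-/

set_option autoImplicit false

namespace Pool.Agent.H27.HB
open MeasureTheory Set Filter Topology Pool.Agent.H80.HS Pool.Agent.H93.HQ
open scoped ContDiff ENNReal

lemma rat_exp {n : ℕ} (hn : 1 ≤ n) {p : ℝ} (h1 : 2 - min (1 / 8) (2 / ((n : ℝ) + 2)) < p)
    (h2 : p < 2) : 15 / 8 < p ∧ 2 < ps n p ∧ ps n p ≤ 4 ∧ 1 / 2 ≤ th n p := by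
  have hn' : (1 : ℝ) ≤ n := by exact_mod_cast hn
  have hδh : min (1 / 8) (2 / ((n : ℝ) + 2)) ≤ 1 / 8 := min_le_left _ _
  have hδ2 : min (1 / 8) (2 / ((n : ℝ) + 2)) ≤ 2 / ((n : ℝ) + 2) := min_le_right _ _
  have h3 : (0 : ℝ) < 2 * n + 2 - p := by linarith
  refine ⟨by linarith, ?_, ?_, ?_⟩
  · unfold ps
    rw [lt_div_iff₀ h3]
    have h4 : 2 - 2 / ((n : ℝ) + 2) < p := by linarith
    have h5 : (2 - 2 / ((n : ℝ) + 2)) * (n + 2) = 2 * n + 2 := by field_simp; ring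
    nlinarith
  · unfold ps
    rw [div_le_iff₀ h3]
    nlinarith
  · unfold th
    rw [le_div_iff₀ (by positivity)]
    linarith

/-- Extraction of a weak limit. -/
lemma rat_extract (hREL : T_REL) (hLSC : T_LSC) (hSOB : T_SOB) (hOPT : T_OPT) (hCLT : T_CLT)
    {n : ℕ} (hn : 1 ≤ n) (p S A : ℕ → ℝ) (M1 : ℝ) (hM11 : 1 ≤ M1)
    (W : ℕ → H n → ℝ) (D : ℕ → H n → G n)
    (hp1 : ∀ k, 2 - min (1 / 8) (2 / ((n : ℝ) + 2)) < p k) (hp2 : ∀ k, p k < 2)
    (hpt : Tendsto p atTop (𝓝 2)) (hS : ∀ k, Opt n (p k) (S k))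
    (hW : ∀ k, Cl (p k) (W k) (D k)) (hDe : ∀ k, en (p k) (D k) ≤ A k) (hA0 : ∀ k, 0 < A k)
    (hAb : ∀ k, A k ≤ M1) (hAt : Tendsto A atTop (𝓝 1)) :
    ∃ K : ℝ, (∀ k, ms (ps n (p k)) (W k) ≤ K) ∧ ∃ (τ : ℕ → ℕ) (Z : H n → ℝ) (D' : H n → G n),
      StrictMono τ ∧ Measurable Z ∧ (∀ᵐ z, Tendsto (fun k => W (τ k) z) atTop (𝓝 (Z z))) ∧
      Cl 2 Z D' ∧ en 2 D' ≤ 1 := by
  have hn' : (1 : ℝ) ≤ n := by exact_mod_cast hn
  have hx := fun k => rat_exp hn (hp1 k) (hp2 k)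
  have hpQ : ∀ k, p k < 2 * n + 2 := fun k => by linarith [hp2 k]
  have hp11 : ∀ k, 1 < p k := fun k => by linarith [(hx k).1]
  obtain ⟨L, M, hL, hLM⟩ := hOPT n hn (3 / 2) 2 (by norm_num) (by norm_num) (by linarith)
  have hSL : ∀ k, L ≤ S k ∧ S k ≤ M := fun k =>
    (hLM (p k) (by linarith [(hx k).1]) (hp2 k).le).2 (S k) (hS k)
  -- approximation
  have Hψ : ∀ k, ∃ ψ : H n → ℝ, Tst ψ ∧ ms (ps n (p k)) (fun z => ψ z - W k z) ≤ (1 / 2) ^ k ∧
      en (p k) (fun z => hg ψ z - D k z) ≤ 1 / ((k : ℝ) + 1) := by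
    intro k
    obtain ⟨-, -, φ, h1, h2, h3⟩ := hW k
    have e1 := h2.eventually_le_const (by positivity : (0 : ℝ) < (1 / 2) ^ k)
    have e2 := h3.eventually_le_const (by positivity : (0 : ℝ) < 1 / ((k : ℝ) + 1))
    obtain ⟨m, hm1, hm2⟩ := (e1.and e2).exists
    exact ⟨φ m, h1 m, hm1, hm2⟩
  choose ψ hψ hψm hψe using Hψ
  have hq1 : ∀ k, 1 < ps n (p k) := fun k => (fin_exp hn (hp11 k) (hpQ k)).1
  have hψcl : ∀ k, Cl (p k) (ψ k) (hg (ψ k)) := fun k =>
    hCLT n hn (p k) (hp11 k) (hpQ k) (ψ k) (hψ k)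
  set B : ℕ → ℝ := fun k => (A k ^ (1 / p k) + (1 / ((k : ℝ) + 1)) ^ (1 / p k)) ^ p k with hB
  have hBe : ∀ k, en (p k) (hg (ψ k)) ≤ B k := by
    intro k
    have h1 := unq_mink (hp11 k).le (hψcl k).2.1 (hW k).2.1
    have h0 : 0 ≤ en (p k) (hg (ψ k)) :=
      integral_nonneg fun z => Real.rpow_nonneg (norm_nonneg _) _
    have hp0 : 0 < p k := by linarith [hp11 k]
    have h2 : en (p k) (hg (ψ k)) ^ (1 / p k) ≤
        A k ^ (1 / p k) + (1 / ((k : ℝ) + 1)) ^ (1 / p k) := by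
      refine h1.trans ?_
      rw [add_comm]
      refine add_le_add ?_ ?_
      · exact Real.rpow_le_rpow (integral_nonneg fun z => Real.rpow_nonneg (norm_nonneg _) _)
          (hDe k) (by positivity)
      · exact Real.rpow_le_rpow (integral_nonneg fun z => Real.rpow_nonneg (norm_nonneg _) _)
          (hψe k) (by positivity)
    calc en (p k) (hg (ψ k)) = (en (p k) (hg (ψ k)) ^ (1 / p k)) ^ p k := by
          rw [← Real.rpow_mul h0, one_div, inv_mul_cancel₀ hp0.ne', Real.rpow_one]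
      _ ≤ B k := Real.rpow_le_rpow (Real.rpow_nonneg h0 _) h2 hp0.le
  have hk1 : ∀ k : ℕ, (1 : ℝ) / ((k : ℝ) + 1) ≤ 1 := fun k => by
    rw [div_le_one (by positivity)]; linarith [k.cast_nonneg (α := ℝ)]
  have hBb : ∀ k, B k ≤ (M1 + 1) ^ (2 : ℝ) := by
    intro k
    have hp0 : 0 < p k := by linarith [hp11 k]
    have h1 : A k ^ (1 / p k) ≤ M1 := by
      calc A k ^ (1 / p k) ≤ M1 ^ (1 / p k) :=
            Real.rpow_le_rpow (hA0 k).le (hAb k) (by positivity)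
        _ ≤ M1 ^ (1 : ℝ) := Real.rpow_le_rpow_of_exponent_le hM11 (by
            rw [div_le_one hp0]; exact (hp11 k).le)
        _ = M1 := Real.rpow_one _
    have h2 : (1 / ((k : ℝ) + 1)) ^ (1 / p k) ≤ 1 :=
      Real.rpow_le_one (by positivity) (hk1 k) (by positivity)
    calc B k ≤ (M1 + 1) ^ p k := Real.rpow_le_rpow (by
          have := (hA0 k).le
          positivity) (by linarith) hp0.le
      _ ≤ _ := Real.rpow_le_rpow_of_exponent_le (by linarith) (hp2 k).le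
  set K : ℝ := max 1 (M1 / L) with hK
  have hK1 : 1 ≤ K := le_max_left _ _
  have hmsW : ∀ k, ms (ps n (p k)) (W k) ≤ K ^ (2 : ℝ) := by
    intro k
    have h0 : 0 ≤ ms (ps n (p k)) (W k) :=
      integral_nonneg fun z => Real.rpow_nonneg (abs_nonneg _) _
    have h1 := hSOB n hn (p k) (S k) (hp11 k) (hpQ k) (hS k) (W k) (D k) (hW k)
    have hth := (hx k).2.2.2
    have h2 : ms (ps n (p k)) (W k) ^ th n (p k) ≤ K := by
      refine le_trans ?_ (le_max_right _ _)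
      rw [le_div_iff₀ hL]
      have h3 : L * ms (ps n (p k)) (W k) ^ th n (p k) ≤
          S k * ms (ps n (p k)) (W k) ^ th n (p k) :=
        mul_le_mul_of_nonneg_right (hSL k).1 (Real.rpow_nonneg h0 _)
      have h4 := hDe k
      have h5 := hAb k
      linarith
    have hth0 : 0 < th n (p k) := by linarith
    calc ms (ps n (p k)) (W k) = (ms (ps n (p k)) (W k) ^ th n (p k)) ^ (1 / th n (p k)) := by
          rw [← Real.rpow_mul h0, mul_one_div, div_self hth0.ne', Real.rpow_one]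
      _ ≤ K ^ (1 / th n (p k)) := Real.rpow_le_rpow (Real.rpow_nonneg h0 _) h2 (by positivity)
      _ ≤ K ^ (2 : ℝ) := Real.rpow_le_rpow_of_exponent_le hK1 (by
          rw [div_le_iff₀ hth0]; linarith)
  have hKK : 1 ≤ K ^ (2 : ℝ) := Real.one_le_rpow hK1 (by norm_num)
  have hmsψ : ∀ k, ms (ps n (p k)) (ψ k) ≤ (1 + K ^ (2 : ℝ)) ^ (4 : ℝ) := by
    intro k
    have h0 : 0 ≤ ms (ps n (p k)) (ψ k) :=
      integral_nonneg fun z => Real.rpow_nonneg (abs_nonneg _) _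
    have h0W : 0 ≤ ms (ps n (p k)) (W k) :=
      integral_nonneg fun z => Real.rpow_nonneg (abs_nonneg _) _
    have h0D : 0 ≤ ms (ps n (p k)) (fun z => ψ k z - W k z) :=
      integral_nonneg fun z => Real.rpow_nonneg (abs_nonneg _) _
    have hq0 : 0 < ps n (p k) := by linarith [hq1 k]
    have h1 := unq_mink (hq1 k).le (hψcl k).1 (hW k).1
    simp only [Real.norm_eq_abs] at h1
    have h2 : ms (ps n (p k)) (fun z => ψ k z - W k z) ^ (1 / ps n (p k)) ≤ 1 :=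
      Real.rpow_le_one h0D ((hψm k).trans (pow_le_one₀ (by norm_num) (by norm_num)))
        (by positivity)
    have h3 : ms (ps n (p k)) (W k) ^ (1 / ps n (p k)) ≤ K ^ (2 : ℝ) := by
      calc ms (ps n (p k)) (W k) ^ (1 / ps n (p k)) ≤ (K ^ (2 : ℝ)) ^ (1 / ps n (p k)) :=
            Real.rpow_le_rpow h0W (hmsW k) (by positivity)
        _ ≤ (K ^ (2 : ℝ)) ^ (1 : ℝ) := Real.rpow_le_rpow_of_exponent_le hKK (by
            rw [div_le_one hq0]; exact (hq1 k).le)
        _ = _ := Real.rpow_one _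
    have h4 : ms (ps n (p k)) (ψ k) ^ (1 / ps n (p k)) ≤ 1 + K ^ (2 : ℝ) := by
      refine le_trans h1 ?_
      exact add_le_add h2 h3
    calc ms (ps n (p k)) (ψ k) = (ms (ps n (p k)) (ψ k) ^ (1 / ps n (p k))) ^ ps n (p k) := by
          rw [← Real.rpow_mul h0, one_div, inv_mul_cancel₀ hq0.ne', Real.rpow_one]
      _ ≤ (1 + K ^ (2 : ℝ)) ^ ps n (p k) :=
          Real.rpow_le_rpow (Real.rpow_nonneg h0 _) h4 hq0.le
      _ ≤ _ := Real.rpow_le_rpow_of_exponent_le (by linarith) (hx k).2.2.1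
  -- a convergent subsequence
  obtain ⟨τ, Z, hτ, hZm, hZ⟩ := hREL n hn (3 / 2) 2
    (max ((1 + K ^ (2 : ℝ)) ^ (4 : ℝ)) ((M1 + 1) ^ (2 : ℝ))) p ψ
    (by norm_num) (by norm_num) (by linarith) (fun k => ⟨by linarith [(hx k).1], (hp2 _).le⟩)
    (fun k => hψ _) (fun k => (hmsψ _).trans (le_max_left _ _))
    (fun k => ((hBe _).trans (hBb _)).trans (le_max_right _ _))
  have hdiff : ∀ᵐ z, Tendsto (fun k => ψ k z - W k z) atTop (𝓝 0) := by
    refine unq_ae (f := fun k z => ψ k z - W k z) (q := fun k => ps n (p k)) (B := 4)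
      (fun k => ⟨(hq1 k).le, (hx k).2.2.1⟩) (fun k => ?_) hψm
    have hq0 : 0 < ps n (p k) := by linarith [hq1 k]
    have := ((hψcl k).1.sub (hW k).1).integrable_norm_rpow (by simpa using hq0)
      ENNReal.ofReal_ne_top
    simpa [ENNReal.toReal_ofReal hq0.le] using this
  have hWZ : ∀ᵐ z, Tendsto (fun k => W (τ k) z) atTop (𝓝 (Z z)) := by
    filter_upwards [hZ, hdiff] with z h1 h2
    have h3 := h1.sub (h2.comp hτ.tendsto_atTop)
    rw [sub_zero] at h3
    refine h3.congr fun k => ?_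
    change ψ (τ k) z - (ψ (τ k) z - W (τ k) z) = W (τ k) z
    ring
  have hpρ : Tendsto (fun k => p (τ k)) atTop (𝓝 2) := hpt.comp hτ.tendsto_atTop
  have hAρ : Tendsto (fun k => A (τ k)) atTop (𝓝 1) := hAt.comp hτ.tendsto_atTop
  have hinv : Tendsto (fun k => 1 / p (τ k)) atTop (𝓝 (1 / 2)) :=
    tendsto_const_nhds.div hpρ (by norm_num)
  have hBρ : Tendsto (fun k => B (τ k)) atTop (𝓝 1) := by
    have h1 : Tendsto (fun k => A (τ k) ^ (1 / p (τ k))) atTop (𝓝 (1 ^ (1 / 2 : ℝ))) :=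
      hAρ.rpow hinv (Or.inl one_ne_zero)
    have h2 : Tendsto (fun k : ℕ => 1 / (((τ k : ℕ) : ℝ) + 1)) atTop (𝓝 0) :=
      (tendsto_one_div_add_atTop_nhds_zero_nat (𝕜 := ℝ)).comp hτ.tendsto_atTop
    have h3 : Tendsto (fun k => (1 / (((τ k : ℕ) : ℝ) + 1)) ^ (1 / p (τ k))) atTop
        (𝓝 (0 ^ (1 / 2 : ℝ))) := h2.rpow hinv (Or.inr (by norm_num))
    have h4 := (h1.add h3).rpow hpρ (Or.inr (by norm_num))
    rw [Real.one_rpow, Real.zero_rpow (by norm_num), add_zero, Real.one_rpow] at h4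
    exact h4
  obtain ⟨D', hD', hD'e⟩ := hLSC n hn (fun k => p (τ k)) (fun k => B (τ k)) 1
    ((1 + K ^ (2 : ℝ)) ^ (4 : ℝ)) (fun k => ψ (τ k)) Z (fun k => ⟨hp11 _, hpQ _⟩) hpρ hBρ
    (fun k => hψ _) hZm.aestronglyMeasurable hZ (fun k => hmsψ _) (fun k => hBe _)
  exact ⟨K ^ (2 : ℝ), hmsW, τ, Z, D', hτ, hZm, hWZ, hD', hD'e⟩

/-- Tails of bounded multiples. -/
lemma rat_tail {n : ℕ} {q c : ℕ → ℝ} {φ : ℕ → H n → ℝ} {C : ℝ} (h : Tail q φ)
    (hc : ∀ k, 0 < c k ∧ c k ≤ C) (hq : ∀ k, 0 < q k ∧ q k ≤ 4) (hC : 1 ≤ C) :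
    Tail q (fun k z => c k * φ k z) := by
  intro η hη
  obtain ⟨M, R, h1⟩ := h (η / C ^ (4 : ℝ)) (by positivity)
  refine ⟨C * max M 0, R, ?_⟩
  filter_upwards [h1] with k hk
  obtain ⟨h2, h3⟩ := hk
  obtain ⟨hc0, hcC⟩ := hc k
  obtain ⟨hq0, hq4⟩ := hq k
  have h4 : ∀ z, |c k * φ k z| ^ q k = c k ^ q k * |φ k z| ^ q k := by
    intro z
    rw [abs_mul, abs_of_pos hc0]
    exact Real.mul_rpow hc0.le (abs_nonneg _)
  simp only [h4]
  refine ⟨h2.const_mul _, ?_⟩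
  rw [integral_const_mul]
  have h5 : c k ^ q k ≤ C ^ (4 : ℝ) :=
    (Real.rpow_le_rpow hc0.le hcC hq0.le).trans (Real.rpow_le_rpow_of_exponent_le hC hq4)
  have hsub : {z : H n | C * max M 0 < |c k * φ k z| ∨ R < N z} ⊆
      {z : H n | M < |φ k z| ∨ R < N z} := by
    rintro z (hz | hz)
    · left
      rw [abs_mul, abs_of_pos hc0] at hz
      have h6 : c k * |φ k z| ≤ C * |φ k z| := mul_le_mul_of_nonneg_right hcC (abs_nonneg _)
      have h7 : C * max M 0 < C * |φ k z| := lt_of_lt_of_le hz h6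
      exact (le_max_left _ _).trans_lt (lt_of_mul_lt_mul_left h7 (by linarith))
    · exact Or.inr hz
  have h8 : ∫ z in {z : H n | C * max M 0 < |c k * φ k z| ∨ R < N z}, |φ k z| ^ q k ≤
      ∫ z in {z : H n | M < |φ k z| ∨ R < N z}, |φ k z| ^ q k :=
    setIntegral_mono_set h2.integrableOn
      (Eventually.of_forall fun z => Real.rpow_nonneg (abs_nonneg _) _)
      (Eventually.of_forall hsub)
  have h9 : 0 ≤ ∫ z in {z : H n | C * max M 0 < |c k * φ k z| ∨ R < N z}, |φ k z| ^ q k :=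
    integral_nonneg fun z => Real.rpow_nonneg (abs_nonneg _) _
  calc c k ^ q k * ∫ z in {z : H n | C * max M 0 < |c k * φ k z| ∨ R < N z}, |φ k z| ^ q k
      ≤ C ^ (4 : ℝ) * (η / C ^ (4 : ℝ)) :=
        mul_le_mul h5 (h8.trans h3) h9 (by positivity)
    _ = η := by field_simp


theorem pf_RAT (hCTS : T_CTS) (hGLI : T_GLI) (hGLJ : T_GLJ) (hLOW : T_LOW) (hUTL : T_UTL)
    (hUCL : T_UCL) (hU0X : T_U0X) (hREL : T_REL) (hLSC : T_LSC) (hSOB : T_SOB) (hGAP : T_GAP)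
    (hOPT : T_OPT) (hCLT : T_CLT) (hZID : T_ZID) (hBQE : T_BQE) (hCLA : T_CLA) (hEXI : T_EXI)
    (hSGN : T_SGN) (hCLC : T_CLC) (hCL2 : T_CL2) : T_RAT := by
  intro n hn
  have hn' : (1 : ℝ) ≤ n := by exact_mod_cast hn
  set δ₀ : ℝ := min (1 / 8) (2 / ((n : ℝ) + 2)) with hδ₀
  have hδ0 : 0 < δ₀ := by positivity
  have hδh : δ₀ ≤ 1 / 8 := min_le_left _ _
  by_contra hcon
  have H : ∀ k : ℕ, ∃ (p S : ℝ) (v : H n → ℝ) (g : H n → G n),
      2 - δ₀ / ((k : ℝ) + 1) < p ∧ p < 2 ∧ Opt n p S ∧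
      Ext p S (fun z => ms (ps n p) (u0 n) ^ (-(1 / ps n p)) * v z)
        (fun z => ms (ps n p) (u0 n) ^ (-(1 / ps n p)) • g z) ∧ (∀ᵐ z, 0 ≤ v z) ∧
      Cen (fun z => |v z| ^ ps n p) ∧ ((k : ℝ) + 1) * (2 - p) < Real.sqrt (N2 p g) := by
    intro k
    by_contra hk
    apply hcon
    have hk0 : (0 : ℝ) ≤ k := k.cast_nonneg
    refine ⟨(k : ℝ) + 1, δ₀ / ((k : ℝ) + 1), by positivity, by positivity,
      (div_le_self hδ0.le (by linarith)).trans hδh, ?_⟩
    intro p S h1 h2 h3 v g h4 h5 h6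
    by_contra h7
    rw [not_le] at h7
    exact hk ⟨p, S, v, g, h1, h2, h3, h4, h5, h6, h7⟩
  choose p S v g hp1 hp2 hS hu hv0 hvc hN using H
  have hpδ : ∀ k, 2 - δ₀ < p k := by
    intro k
    have : δ₀ / ((k : ℝ) + 1) ≤ δ₀ := div_le_self hδ0.le (by linarith [k.cast_nonneg (α := ℝ)])
    linarith [hp1 k]
  have hx := fun k => rat_exp hn (hpδ k) (hp2 k)
  have hpt : Tendsto p atTop (𝓝 2) := by
    have h1 : Tendsto (fun k : ℕ => 2 - δ₀ / ((k : ℝ) + 1)) atTop (𝓝 2) := by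
      have h2 : Tendsto (fun k : ℕ => δ₀ / ((k : ℝ) + 1)) atTop (𝓝 0) :=
        (tendsto_const_nhds (x := δ₀)).div_atTop
          (tendsto_natCast_atTop_atTop.atTop_add tendsto_const_nhds)
      simpa using (tendsto_const_nhds (x := (2 : ℝ))).sub h2
    exact tendsto_of_tendsto_of_tendsto_of_le_of_le h1 tendsto_const_nhds
      (fun k => (hp1 k).le) (fun k => (hp2 k).le)
  have hpQ : ∀ k, p k < 2 * n + 2 := fun k => by linarith [hp2 k]
  have hp11 : ∀ k, 1 < p k := fun k => by linarith [(hx k).1]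
  obtain ⟨T, hT⟩ : ∃ T, Opt n 2 T := by
    obtain ⟨L, M, -, h⟩ := hOPT n hn 2 2 (by norm_num) le_rfl (by linarith)
    exact (h 2 le_rfl le_rfl).1
  have hT0 : 0 < T := hT.1
  have hex := fun k => fin_exp hn (hp11 k) (hpQ k)
  have hq0 : ∀ k, 0 < ps n (p k) := fun k => by linarith [(hex k).1]
  obtain ⟨hU1, A1, hA1, hU2⟩ := hUTL n hn
  set M : ℕ → ℝ := fun k => ms (ps n (p k)) (u0 n) with hM
  have hMb : ∀ k, A1⁻¹ ≤ M k ∧ M k ≤ A1 ∧ en (p k) (hg (u0 n)) ≤ A1 ∧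
      ∫ z, |u0 n z ^ ps n (p k) - u0 n z ^ ps n 2| ≤ A1 * (2 - p k) := fun k =>
    hU2 (p k) (hx k).1.le (hp2 k).le
  have hM0 : ∀ k, 0 < M k := fun k => (inv_pos.2 hA1).trans_le (hMb k).1
  set c : ℕ → ℝ := fun k => M k ^ (1 / ps n (p k)) with hc
  have hc0 : ∀ k, 0 < c k := fun k => Real.rpow_pos_of_pos (hM0 k) _
  have hcinv : ∀ k, c k * M k ^ (-(1 / ps n (p k))) = 1 := by
    intro k
    rw [hc, ← Real.rpow_add (hM0 k)]
    simp
  have hvcl : ∀ k, Cl (p k) (v k) (g k) := by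
    intro k
    have h1 := fin_cl_smul hCLA hn (hp11 k) (hpQ k) (hu k).1 (c k)
    have h2 : (fun z => c k * (M k ^ (-(1 / ps n (p k))) * v k z)) = v k := by
      ext z
      rw [← mul_assoc, hcinv, one_mul]
    have h3 : (fun z => c k • (M k ^ (-(1 / ps n (p k))) • g k z)) = g k := by
      ext1 z
      rw [smul_smul, hcinv, one_smul]
    rw [h2, h3] at h1
    exact h1
  have hMpos : ∀ k, 0 < M k ^ (-(1 / ps n (p k))) := fun k => Real.rpow_pos_of_pos (hM0 k) _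
  have hvms : ∀ k, ms (ps n (p k)) (v k) = M k := by
    intro k
    have h1 := (hu k).2.1
    rw [fin_ms_mul, abs_of_pos (hMpos k), ← Real.rpow_mul (hM0 k).le] at h1
    have h2 : -(1 / ps n (p k)) * ps n (p k) = -1 := by
      have := (hq0 k).ne'
      field_simp
    rw [h2, Real.rpow_neg_one] at h1
    have h3 := (hM0 k).ne'
    field_simp at h1
    exact h1
  have hcl0 : ∀ k, Cl (p k) (u0 n) (hg (u0 n)) := fun k =>
    (hUCL n hn (p k) (by linarith [(hx k).1]) (by linarith [hp2 k])).1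
  have heng : ∀ k, en (p k) (g k) ≤ en (p k) (hg (u0 n)) := by
    intro k
    have h1 := (hu k).2.2
    rw [fin_en_smul, abs_of_pos (hMpos k), ← Real.rpow_mul (hM0 k).le] at h1
    have h2 : -(1 / ps n (p k)) * p k = - th n (p k) := by
      have h3 := (hex k).2.2
      have h4 := (hq0 k).ne'
      field_simp
      linarith
    rw [h2, Real.rpow_neg (hM0 k).le] at h1
    have h3 := hSOB n hn (p k) (S k) (hp11 k) (hpQ k) (hS k) (u0 n) _ (hcl0 k)
    have h4 : 0 < M k ^ th n (p k) := Real.rpow_pos_of_pos (hM0 k) _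
    have h5 : en (p k) (g k) = S k * M k ^ th n (p k) := by
      rw [← h1]; field_simp
    rw [h5]
    exact h3
  obtain ⟨A2, hA2, hL⟩ := hLOW n hn A1
  have hLk := fun k => hL (p k) (S k) (hx k).1.le (hp2 k) (hx k).2.1 (hS k) (v k) (g k) (hvcl k)
    (hv0 k) (hvms k) ((heng k).trans (hMb k).2.2.1)
  set m : ℕ → ℝ := fun k => Real.sqrt (N2 (p k) (g k)) with hm
  have hm0 : ∀ k, 0 < m k := fun k => by
    have : 0 ≤ ((k : ℝ) + 1) * (2 - p k) := by
      have := hp2 k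
      have := k.cast_nonneg (α := ℝ)
      exact mul_nonneg (by linarith) (by linarith)
    exact lt_of_le_of_lt this (hN k)
  have hmsq : ∀ k, m k ^ 2 = N2 (p k) (g k) := fun k =>
    Real.sq_sqrt (by
      by_contra h
      rw [not_le] at h
      have := Real.sqrt_eq_zero_of_nonpos h.le
      have h2 := hm0 k
      simp only [hm] at h2
      linarith)
  set W : ℕ → H n → ℝ := fun k z => (m k)⁻¹ * v k z + (-(m k)⁻¹) * u0 n z with hWdef
  set D : ℕ → H n → G n := fun k z => (m k)⁻¹ • g k z + (-(m k)⁻¹) • hg (u0 n) z with hDdef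
  have hW : ∀ k, Cl (p k) (W k) (D k) := fun k =>
    hCLA n hn (p k) (hp11 k) (hpQ k) _ _ _ _ _ _ (hvcl k) (hcl0 k)
  have hDe : ∀ k, en (p k) (D k) ≤ A2 ^ (2 - p k) := by
    intro k
    have h1 : D k = fun z => (m k)⁻¹ • (g k z - hg (u0 n) z) := by
      ext1 z
      simp only [hDdef]
      rw [smul_sub, neg_smul, sub_eq_add_neg]
    have hp0 : 0 < p k := by linarith [hp11 k]
    rw [h1, fin_en_smul, abs_of_pos (inv_pos.2 (hm0 k)), Real.inv_rpow (hm0 k).le]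
    have h2 := (hLk k).2.1
    have h3 : N2 (p k) (g k) ^ (p k / 2) = m k ^ p k := by
      rw [← hmsq k, ← Real.rpow_natCast, ← Real.rpow_mul (hm0 k).le]
      congr 1
      push_cast
      ring
    rw [h3] at h2
    have h4 : 0 < m k ^ p k := Real.rpow_pos_of_pos (hm0 k) _
    rw [inv_mul_le_iff₀ h4]
    linarith
  -- the tail of the sequence: centred extremals
  have hA2t : Tendsto (fun k => A2 ^ (2 - p k)) atTop (𝓝 1) := by
    have h1 : Tendsto (fun k => 2 - p k) atTop (𝓝 (2 - 2)) := tendsto_const_nhds.sub hpt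
    have h2 := (tendsto_const_nhds (x := A2)).rpow h1 (Or.inl hA2.ne')
    simpa using h2
  have hA2b : ∀ k, A2 ^ (2 - p k) ≤ max 1 A2 := by
    intro k
    have h1 : (1 : ℝ) ≤ max 1 A2 := le_max_left _ _
    calc A2 ^ (2 - p k) ≤ (max 1 A2) ^ (2 - p k) :=
          Real.rpow_le_rpow hA2.le (le_max_right _ _) (by linarith [hp2 k])
      _ ≤ (max 1 A2) ^ (1 : ℝ) := Real.rpow_le_rpow_of_exponent_le h1 (by linarith [hp11 k])
      _ = _ := Real.rpow_one _
  have hww : ∀ k z, (v k z - u0 n z) = m k * W k z := by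
    intro k z
    simp only [hWdef]
    have := (hm0 k).ne'
    field_simp
    ring
  have hkey : ∀ k, p k * (p k - 1) / 2 * 2 ^ (p k - 2) -
      p k * (4 * (n : ℝ) ^ 2) * ((ps n (p k) - 1) / 2) *
        ∫ z, bb (ps n (p k)) (u0 n z) (v k z) * W k z ^ 2 ≤ A2 * (1 / ((k : ℝ) + 1)) := by
    intro k
    have h1 : en (p k) (hg (u0 n)) + p k * (p k - 1) / 2 * 2 ^ (p k - 2) * N2 (p k) (g k)
        - p k * (4 * (n : ℝ) ^ 2) * ((ps n (p k) - 1) / 2) *
          (∫ z, bb (ps n (p k)) (u0 n z) (v k z) * (v k z - u0 n z) ^ 2)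
        - A2 * (2 - p k) * Real.sqrt (N2 (p k) (g k)) ≤ en (p k) (g k) := (hLk k).2.2.2
    have h2 := heng k
    have h3 : ∫ z, bb (ps n (p k)) (u0 n z) (v k z) * (v k z - u0 n z) ^ 2 =
        m k ^ 2 * ∫ z, bb (ps n (p k)) (u0 n z) (v k z) * W k z ^ 2 := by
      rw [← integral_const_mul]
      refine integral_congr_ae (Eventually.of_forall fun z => ?_)
      simp only
      rw [hww]
      ring
    rw [h3, ← hmsq k] at h1
    have h4 : Real.sqrt (m k ^ 2) = m k := Real.sqrt_sq (hm0 k).le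
    rw [h4] at h1
    have h5 := hN k
    have hk1 : (0 : ℝ) < (k : ℝ) + 1 := by positivity
    have h6 : (2 - p k) ≤ 1 / ((k : ℝ) + 1) * m k := by
      rw [one_div, ← div_eq_inv_mul, le_div_iff₀ hk1]
      have : ((k : ℝ) + 1) * (2 - p k) ≤ m k := h5.le
      linarith
    have h7 : A2 * (2 - p k) * m k ≤ A2 * (1 / ((k : ℝ) + 1)) * m k ^ 2 := by
      have := mul_le_mul_of_nonneg_left h6 (mul_nonneg hA2.le (hm0 k).le)
      nlinarith
    have h8 : (p k * (p k - 1) / 2 * 2 ^ (p k - 2) -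
      p k * (4 * (n : ℝ) ^ 2) * ((ps n (p k) - 1) / 2) *
        ∫ z, bb (ps n (p k)) (u0 n z) (v k z) * W k z ^ 2) * m k ^ 2 ≤
        (A2 * (1 / ((k : ℝ) + 1))) * m k ^ 2 := by
      linarith
    exact le_of_mul_le_mul_right h8 (by have := hm0 k; positivity)
  -- the centred extremals
  have hucen : ∀ k, Cen (fun z => |M k ^ (-(1 / ps n (p k))) * v k z| ^ ps n (p k)) := by
    intro k i b
    have h1 := hvc k i b
    have h2 : ∀ z, |M k ^ (-(1 / ps n (p k))) * v k z| ^ ps n (p k) * rz i b z =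
        (|M k ^ (-(1 / ps n (p k)))| ^ ps n (p k)) * (|v k z| ^ ps n (p k) * rz i b z) := by
      intro z
      rw [abs_mul, Real.mul_rpow (abs_nonneg _) (abs_nonneg _)]
      ring
    simp only [h2]
    rw [integral_const_mul, h1, mul_zero]
  obtain ⟨σ, hσ, hcσ, htσ, -⟩ := hCTS n hn p S T
    (fun k z => M k ^ (-(1 / ps n (p k))) * v k z) (fun k z => M k ^ (-(1 / ps n (p k))) • g k z)
    (fun k => ⟨hp11 k, (hp2 k).le⟩) hpt hS hT hu
    (fun k => by
      filter_upwards [hv0 k] with z hz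
      exact mul_nonneg (hMpos k).le hz) hucen
  obtain ⟨K, hmsW, τ, Z, D', hτ, hZm, hWZ, hD', hD'e⟩ := rat_extract hREL hLSC hSOB hOPT hCLT hn
    (fun k => p (σ k)) (fun k => S (σ k)) (fun k => A2 ^ (2 - p (σ k))) (max 1 A2)
    (le_max_left _ _) (fun k => W (σ k)) (fun k => D (σ k)) (fun k => hpδ _) (fun k => hp2 _)
    (hpt.comp hσ.tendsto_atTop) (fun k => hS _) (fun k => hW _) (fun k => hDe _)
    (fun k => Real.rpow_pos_of_pos hA2 _) (fun k => hA2b _) (hA2t.comp hσ.tendsto_atTop)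
  set ρ : ℕ → ℕ := fun k => σ (τ k) with hρdef
  have hρ : StrictMono ρ := hσ.comp hτ
  have hpρ : Tendsto (fun k => p (ρ k)) atTop (𝓝 2) := hpt.comp hρ.tendsto_atTop
  have hQ2 : ps n 2 = 2 + 2 / n := by
    unfold ps
    have : (n : ℝ) ≠ 0 := by positivity
    rw [eq_comm, eq_div_iff (by linarith)]
    have h3 : (2 : ℝ) / n * n = 2 := div_mul_cancel₀ _ this
    nlinarith
  have hQ2' : 2 < ps n 2 := by
    rw [hQ2]
    have : (0 : ℝ) < 2 / n := by positivity
    linarith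
  have hqt : Tendsto (fun k => ps n (p (ρ k))) atTop (𝓝 (ps n 2)) := by
    unfold ps
    refine Tendsto.div (hpρ.const_mul _) (tendsto_const_nhds.sub hpρ) ?_
    linarith
  obtain ⟨hMt, hTu0⟩ := hU1 (fun k => ps n (p (ρ k))) hqt
  set Mi : ℝ := ms (ps n 2) (u0 n) with hMinf
  have hMinf0 : 0 < Mi := (inv_pos.2 hA1).trans_le (hU2 2 (by norm_num) le_rfl).1
  have hct : Tendsto (fun k => c (ρ k)) atTop (𝓝 (Mi ^ (1 / ps n 2))) := by
    have h1 : Tendsto (fun k => 1 / ps n (p (ρ k))) atTop (𝓝 (1 / ps n 2)) :=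
      tendsto_const_nhds.div hqt (by linarith)
    exact hMt.rpow h1 (Or.inl hMinf0.ne')
  have hvlim : ∀ᵐ z, Tendsto (fun k => v (ρ k) z) atTop (𝓝 (u0 n z)) := by
    filter_upwards [hcσ] with z hz
    have h1 := hct.mul (hz.comp hτ.tendsto_atTop)
    have h2 : Mi ^ (1 / ps n 2) * ub n z = u0 n z := by
      change Mi ^ (1 / ps n 2) * (Mi ^ (-(1 / ps n 2)) * u0 n z) = u0 n z
      rw [← mul_assoc, ← Real.rpow_add hMinf0]
      simp
    rw [h2] at h1
    refine h1.congr fun k => ?_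
    simp only [Function.comp_apply]
    change c (ρ k) * (M (ρ k) ^ (-(1 / ps n (p (ρ k)))) * v (ρ k) z) = v (ρ k) z
    rw [← mul_assoc, hcinv, one_mul]
  have hTv : Tail (fun k => ps n (p (ρ k))) (fun k => v (ρ k)) := by
    have h1 := rat_tail (q := fun k => ps n (p (ρ k))) (c := fun k => c (ρ k))
      (C := max 1 A1) (unq_tail htσ hτ) (fun k => ⟨hc0 _, ?_⟩)
      (fun k => ⟨hq0 _, (hx _).2.2.1⟩) (le_max_left _ _)
    · have h2 : (fun (k : ℕ) (z : H n) => c (ρ k) *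
          (M (ρ k) ^ (-(1 / ps n (p (ρ k)))) * v (ρ k) z)) = fun k => v (ρ k) := by
        ext k z
        rw [← mul_assoc, hcinv, one_mul]
      rw [← h2]
      exact h1
    · have h3 : (1 : ℝ) ≤ max 1 A1 := le_max_left _ _
      calc c (ρ k) ≤ (max 1 A1) ^ (1 / ps n (p (ρ k))) :=
            Real.rpow_le_rpow (hM0 _).le ((hMb _).2.1.trans (le_max_right _ _))
              (by have := hq0 (ρ k); positivity)
        _ ≤ (max 1 A1) ^ (1 : ℝ) := Real.rpow_le_rpow_of_exponent_le h3 (by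
            rw [div_le_one (hq0 _)]; exact (hex _).1.le)
        _ = _ := Real.rpow_one _
  have hu0m : Measurable (u0 n : H n → ℝ) := u0x_u0_smooth.continuous.measurable
  have hWint : ∀ k, Integrable (fun z => |W (ρ k) z| ^ ps n (p (ρ k))) := by
    intro k
    have := (hW (ρ k)).1.integrable_norm_rpow (by simpa using hq0 (ρ k)) ENNReal.ofReal_ne_top
    simpa [ENNReal.toReal_ofReal (hq0 (ρ k)).le] using this
  have hl1 := hGLJ n (fun k => ps n (p (ρ k))) (ps n 2) K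
    (fun _ => u0 n) (fun k => v (ρ k)) (fun k => W (ρ k)) (u0 n) Z hQ2'
    (fun k => (hx _).2.1) hqt (fun z => u0x_u0_pos z) hu0m hZm.aestronglyMeasurable
    (fun k => hu0m.aestronglyMeasurable) (fun k => (hvcl _).1.aestronglyMeasurable)
    (fun k => (hW _).1.aestronglyMeasurable)
    (fun k => Eventually.of_forall fun z => (u0x_u0_pos z).le) (fun k => hv0 _)
    (Eventually.of_forall fun z => tendsto_const_nhds) hvlim hWZ hTu0 hTv
    (fun k => ⟨hWint k, hmsW _⟩)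
  obtain ⟨-, hl2⟩ := hGLI n (fun k => ps n (p (ρ k))) (ps n 2) K
    (fun k => v (ρ k)) (fun _ => u0 n) (fun k => W (ρ k)) (u0 n) Z hQ2'
    (fun k => (hx _).2.1) hqt (fun z => u0x_u0_pos z) hu0m hZm.aestronglyMeasurable
    (fun k => (hvcl _).1.aestronglyMeasurable) (fun k => hu0m.aestronglyMeasurable)
    (fun k => (hW _).1.aestronglyMeasurable) (fun k => hv0 _)
    (fun k => Eventually.of_forall fun z => (u0x_u0_pos z).le) hvlim
    (Eventually.of_forall fun z => tendsto_const_nhds) hWZ hTv hTu0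
    (fun k => ⟨hWint k, hmsW _⟩)
  -- the main inequality in the limit
  have hmain : 1 ≤ 4 * (n : ℝ) ^ 2 * (ps n 2 - 1) * ∫ z, u0 n z ^ (ps n 2 - 2) * Z z ^ 2 := by
    have h1 : Tendsto (fun k => p (ρ k) * (p (ρ k) - 1) / 2 * 2 ^ (p (ρ k) - 2) -
        p (ρ k) * (4 * (n : ℝ) ^ 2) * ((ps n (p (ρ k)) - 1) / 2) *
        ∫ z, bb (ps n (p (ρ k))) (u0 n z) (v (ρ k) z) * W (ρ k) z ^ 2) atTop
        (𝓝 ((2 : ℝ) * (2 - 1) / 2 * 2 ^ ((2 : ℝ) - 2) -
          2 * (4 * (n : ℝ) ^ 2) * ((ps n 2 - 1) / 2) *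
            ∫ z, u0 n z ^ (ps n 2 - 2) * Z z ^ 2)) := by
      refine Tendsto.sub ?_ ?_
      · refine Tendsto.mul ((hpρ.mul (hpρ.sub_const 1)).div_const 2) ?_
        exact (tendsto_const_nhds (x := (2 : ℝ))).rpow (hpρ.sub_const 2) (Or.inl (by norm_num))
      · exact ((hpρ.mul_const _).mul ((hqt.sub_const 1).div_const 2)).mul hl1
    have h2 : Tendsto (fun k : ℕ => A2 * (1 / (((ρ k : ℕ) : ℝ) + 1))) atTop (𝓝 (A2 * 0)) :=
      ((tendsto_one_div_add_atTop_nhds_zero_nat (𝕜 := ℝ)).comp hρ.tendsto_atTop).const_mul A2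
    have h3 := le_of_tendsto_of_tendsto' h1 h2 (fun k => hkey _)
    have h4 : (2 : ℝ) ^ ((2 : ℝ) - 2) = 1 := by norm_num
    rw [h4, mul_zero] at h3
    linarith
  -- integrability
  have hvint : ∀ k, Integrable (fun z => |v k z| ^ ps n (p k)) := by
    intro k
    have := (hvcl k).1.integrable_norm_rpow (by simpa using hq0 k) ENNReal.ofReal_ne_top
    simpa [ENNReal.toReal_ofReal (hq0 k).le] using this
  have hu0int : ∀ k, Integrable (fun z : H n => u0 n z ^ ps n (p k)) := by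
    intro k
    have := (hcl0 k).1.integrable_norm_rpow (by simpa using hq0 k) ENNReal.ofReal_ne_top
    simp only [Real.norm_eq_abs, ENNReal.toReal_ofReal (hq0 k).le] at this
    refine this.congr (Eventually.of_forall fun z => ?_)
    simp only
    rw [abs_of_pos (u0x_u0_pos z)]
  have hQint : Integrable (fun z : H n => u0 n z ^ ps n 2) := by
    have h1 := (hUCL n hn 2 (by norm_num) (by norm_num)).1.1
    have h2 : 0 < ps n 2 := by linarith
    have := h1.integrable_norm_rpow (by simpa using h2) ENNReal.ofReal_ne_top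
    simp only [Real.norm_eq_abs, ENNReal.toReal_ofReal h2.le] at this
    refine this.congr (Eventually.of_forall fun z => ?_)
    simp only
    rw [abs_of_pos (u0x_u0_pos z)]
  have hms0 : ∀ k, ∫ z : H n, u0 n z ^ ps n (p k) = M k := by
    intro k
    refine integral_congr_ae (Eventually.of_forall fun z => ?_)
    simp only
    rw [abs_of_pos (u0x_u0_pos z)]
  -- the divided difference
  have hcq : ∀ k, ∀ᵐ z, cq (ps n (p k)) (v k z) (u0 n z) * W k z =
      (ps n (p k) * m k)⁻¹ * (|v k z| ^ ps n (p k) - u0 n z ^ ps n (p k)) := by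
    intro k
    filter_upwards [hv0 k] with z hz
    have h1 := (hBQE.1 (ps n (p k)) (v k z) (u0 n z) (hx k).2.1 hz (u0x_u0_pos z).le).2.1
    rw [abs_of_nonneg hz, h1, hww]
    have h2 := (hm0 k).ne'
    have h3 := (hq0 k).ne'
    field_simp
  -- the centring of the Jerison-Lee function
  obtain ⟨U, gU, hU, hU0, hUc⟩ := fin_exist hEXI hSGN hCLA hCLC hn (by norm_num) le_rfl hT
  have hUub : U =ᵐ[volume] ub n := hCL2 n hn T hT U gU hU (Eventually.of_forall hU0) hUc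
  have hrz1 : ∀ (i : Option (Fin n)) (b : Bool) (z : H n), |rz i b z| ≤ 1 := (hZID n hn).2.1
  have hcpos : 0 < Mi ^ (-(1 / ps n 2)) := Real.rpow_pos_of_pos hMinf0 _
  have hubdef : ∀ z, ub n z = Mi ^ (-(1 / ps n 2)) * u0 n z := fun z => rfl
  have hQc : ∀ (i : Option (Fin n)) (b : Bool), ∫ z : H n, u0 n z ^ ps n 2 * rz i b z = 0 := by
    intro i b
    have h1 := hUc i b
    have h2 : ∫ z : H n, |U z| ^ ps n 2 * rz i b z =
        ∫ z : H n, (Mi ^ (-(1 / ps n 2))) ^ ps n 2 * (u0 n z ^ ps n 2 * rz i b z) := by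
      refine integral_congr_ae ?_
      filter_upwards [hUub] with z hz
      rw [hz, hubdef, abs_of_pos (mul_pos hcpos (u0x_u0_pos z)),
        Real.mul_rpow hcpos.le (u0x_u0_pos z).le]
      ring
    rw [h2, integral_const_mul] at h1
    have h3 : 0 < (Mi ^ (-(1 / ps n 2))) ^ ps n 2 := Real.rpow_pos_of_pos hcpos _
    exact (mul_eq_zero.1 h1).resolve_left h3.ne'
  have hbdd : ∀ (f : H n → ℝ) (i : Option (Fin n)) (b : Bool), Integrable f →
      Integrable (fun z => f z * rz i b z) := by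
    intro f i b hf
    refine hf.mul_bdd (c := 1) (unq_rz i b).aestronglyMeasurable
      (Eventually.of_forall fun z => ?_)
    rw [Real.norm_eq_abs]
    exact hrz1 i b z
  have hu0c : ∀ (k : ℕ) (i : Option (Fin n)) (b : Bool),
      |∫ z : H n, u0 n z ^ ps n (p k) * rz i b z| ≤ A1 * (2 - p k) := by
    intro k i b
    have h1 : ∫ z : H n, u0 n z ^ ps n (p k) * rz i b z =
        ∫ z : H n, (u0 n z ^ ps n (p k) - u0 n z ^ ps n 2) * rz i b z := by
      have h2 := integral_sub (hbdd _ i b (hu0int k)) (hbdd _ i b hQint)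
      rw [hQc, sub_zero] at h2
      rw [← h2]
      refine integral_congr_ae (Eventually.of_forall fun z => ?_)
      simp only
      ring
    rw [h1]
    refine le_trans ?_ (hMb k).2.2.2
    refine (abs_integral_le_integral_abs).trans ?_
    refine integral_mono (hbdd _ i b ((hu0int k).sub hQint)).abs
      ((hu0int k).sub hQint).abs fun z => ?_
    simp only
    rw [abs_mul]
    exact mul_le_of_le_one_right (abs_nonneg _) (hrz1 i b z)
  have horth : ∫ z, u0 n z ^ (ps n 2 - 1) * Z z = 0 := by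
    have h1 := hl2 (fun _ => 1) measurable_const (fun z => by simp)
    simp only [mul_one] at h1
    refine tendsto_nhds_unique h1 ?_
    have h2 : ∀ k, ∫ z, cq (ps n (p (ρ k))) (v (ρ k) z) (u0 n z) * W (ρ k) z = 0 := by
      intro k
      rw [integral_congr_ae (hcq (ρ k)), integral_const_mul,
        integral_sub (hvint _) (hu0int _), hms0]
      have h3 : ∫ z, |v (ρ k) z| ^ ps n (p (ρ k)) = M (ρ k) := hvms (ρ k)
      rw [h3, sub_self, mul_zero]
    simp only [h2]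
    exact tendsto_const_nhds
  have horth2 : ∀ (i : Option (Fin n)) (b : Bool),
      ∫ z, u0 n z ^ (ps n 2 - 1) * Z z * rz i b z = 0 := by
    intro i b
    have h1 := hl2 (rz i b) (unq_rz i b) (hrz1 i b)
    refine tendsto_nhds_unique h1 ?_
    have h2 : ∀ k, |∫ z, cq (ps n (p (ρ k))) (v (ρ k) z) (u0 n z) * W (ρ k) z * rz i b z| ≤
        A1 * (1 / (((ρ k : ℕ) : ℝ) + 1)) := by
      intro k
      have h3 : ∫ z, cq (ps n (p (ρ k))) (v (ρ k) z) (u0 n z) * W (ρ k) z * rz i b z =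
          (ps n (p (ρ k)) * m (ρ k))⁻¹ * ((∫ z, |v (ρ k) z| ^ ps n (p (ρ k)) * rz i b z) -
            ∫ z, u0 n z ^ ps n (p (ρ k)) * rz i b z) := by
        rw [← integral_sub (hbdd _ i b (hvint _)) (hbdd _ i b (hu0int _)), ← integral_const_mul]
        refine integral_congr_ae ?_
        filter_upwards [hcq (ρ k)] with z hz
        rw [hz]
        ring
      have h4 : ∫ z, |v (ρ k) z| ^ ps n (p (ρ k)) * rz i b z = 0 := hvc (ρ k) i b
      rw [h3, h4, zero_sub, abs_mul, abs_neg]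
      have h5 := hu0c (ρ k) i b
      have hm' := hm0 (ρ k)
      have hq' := (hex (ρ k)).1
      have hqm : 0 < ps n (p (ρ k)) * m (ρ k) := mul_pos (by linarith) hm'
      rw [abs_of_pos (inv_pos.2 hqm), inv_mul_le_iff₀ hqm]
      have h6 := hN (ρ k)
      have hk1 : (0 : ℝ) < ((ρ k : ℕ) : ℝ) + 1 := by positivity
      have h7 : (2 - p (ρ k)) ≤ 1 / (((ρ k : ℕ) : ℝ) + 1) * m (ρ k) := by
        rw [one_div, ← div_eq_inv_mul, le_div_iff₀ hk1]
        have : (((ρ k : ℕ) : ℝ) + 1) * (2 - p (ρ k)) ≤ m (ρ k) := h6.le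
        linarith
      have h8 : 0 ≤ 1 / (((ρ k : ℕ) : ℝ) + 1) * m (ρ k) := by positivity
      calc |∫ z, u0 n z ^ ps n (p (ρ k)) * rz i b z| ≤ A1 * (2 - p (ρ k)) := h5
        _ ≤ A1 * (1 / (((ρ k : ℕ) : ℝ) + 1) * m (ρ k)) := mul_le_mul_of_nonneg_left h7 hA1.le
        _ ≤ ps n (p (ρ k)) * (A1 * (1 / (((ρ k : ℕ) : ℝ) + 1) * m (ρ k))) :=
          le_mul_of_one_le_left (mul_nonneg hA1.le h8) hq'.le
        _ = _ := by ring
    have h9 : Tendsto (fun k : ℕ => A1 * (1 / (((ρ k : ℕ) : ℝ) + 1))) atTop (𝓝 (A1 * 0)) :=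
      ((tendsto_one_div_add_atTop_nhds_zero_nat (𝕜 := ℝ)).comp hρ.tendsto_atTop).const_mul A1
    rw [mul_zero] at h9
    exact squeeze_zero_norm (fun k => by rw [Real.norm_eq_abs]; exact h2 k) h9
  -- translation to the normalised function
  obtain ⟨-, -, hubw, -⟩ := hU0X n hn T hT
  have hu0w : ∀ z : H n, u0 n z ^ (ps n 2 - 2) = (ww z)⁻¹ := by
    intro z
    have h1 : -(n : ℝ) / 2 * (ps n 2 - 2) = -1 := by
      rw [hQ2]
      have : (n : ℝ) ≠ 0 := by positivity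
      field_simp
      ring
    unfold u0
    rw [← Real.rpow_mul (u0x_ww_pos z).le, h1, Real.rpow_neg_one]
  have hub2 : ∀ z : H n, T * ub n z ^ (ps n 2 - 2) = 4 * (n : ℝ) ^ 2 * u0 n z ^ (ps n 2 - 2) := by
    intro z
    rw [hubw, hu0w, div_eq_mul_inv]
  have hub1 : ∀ z : H n, ub n z ^ (ps n 2 - 1) =
      (Mi ^ (-(1 / ps n 2))) ^ (ps n 2 - 1) * u0 n z ^ (ps n 2 - 1) := by
    intro z
    rw [hubdef, Real.mul_rpow hcpos.le (u0x_u0_pos z).le]
  have hZ0 := hGAP n hn T hT Z D' hD' (by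
      have h1 : ∀ z, ub n z ^ (ps n 2 - 1) * Z z =
          (Mi ^ (-(1 / ps n 2))) ^ (ps n 2 - 1) * (u0 n z ^ (ps n 2 - 1) * Z z) := by
        intro z
        rw [hub1]; ring
      simp only [h1]
      rw [integral_const_mul, horth, mul_zero])
    (by
      intro i b
      have h1 : ∀ z, ub n z ^ (ps n 2 - 1) * Z z * rz i b z =
          (Mi ^ (-(1 / ps n 2))) ^ (ps n 2 - 1) * (u0 n z ^ (ps n 2 - 1) * Z z * rz i b z) := by
        intro z
        rw [hub1]; ring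
      simp only [h1]
      rw [integral_const_mul, horth2, mul_zero])
    (by
      have h1 : T * (ps n 2 - 1) * ∫ z, ub n z ^ (ps n 2 - 2) * Z z ^ 2 =
          4 * (n : ℝ) ^ 2 * (ps n 2 - 1) * ∫ z, u0 n z ^ (ps n 2 - 2) * Z z ^ 2 := by
        rw [← integral_const_mul, ← integral_const_mul]
        refine integral_congr_ae (Eventually.of_forall fun z => ?_)
        simp only
        have := hub2 z
        linear_combination (ps n 2 - 1) * Z z ^ 2 * this
      rw [h1]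
      exact hD'e.trans hmain)
  have h0 : ∫ z, u0 n z ^ (ps n 2 - 2) * Z z ^ 2 = 0 := by
    rw [integral_eq_zero_of_ae]
    filter_upwards [hZ0] with z hz
    rw [hz]
    simp
  rw [h0, mul_zero] at hmain
  linarith

end Pool.Agent.H27.HB
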