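import Pool.Agent.H27.HB.FIN

/-!
Row UNQ of MP_8352e3_an: uniqueness of the centred extremals for `p` near `2`.
-/

set_option autoImplicit false

namespace Pool.Agent.H27.HB
open MeasureTheory Set Filter Topology Pool.Agent.H80.HS Pool.Agent.H93.HQ
open scoped ContDiff ENNReal

lemma unq_norm {n : ℕ} {E : Type*} [NormedAddCommGroup E] {p : ℝ} (hp : 1 ≤ p) {f : H n → E}
    (hf : MemLp f (ENNReal.ofReal p)) :
    (eLpNorm f (ENNReal.ofReal p) volume).toReal = (∫ z, ‖f z‖ ^ p) ^ (1 / p) := by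
  have hp0 : 0 < p := by linarith
  rw [hf.eLpNorm_eq_integral_rpow_norm (by simpa using hp0) ENNReal.ofReal_ne_top,
    ENNReal.toReal_ofReal hp0.le, ENNReal.toReal_ofReal, one_div]
  exact Real.rpow_nonneg (integral_nonneg fun z => Real.rpow_nonneg (norm_nonneg _) _) _

/-- Minkowski. -/
lemma unq_mink {n : ℕ} {E : Type*} [NormedAddCommGroup E] {p : ℝ} (hp : 1 ≤ p) {f g : H n → E}
    (hf : MemLp f (ENNReal.ofReal p)) (hg : MemLp g (ENNReal.ofReal p)) :
    (∫ z, ‖f z‖ ^ p) ^ (1 / p) ≤ (∫ z, ‖f z - g z‖ ^ p) ^ (1 / p) +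
      (∫ z, ‖g z‖ ^ p) ^ (1 / p) := by
  have h1 : MemLp (fun z => f z - g z) (ENNReal.ofReal p) := hf.sub hg
  rw [← unq_norm hp hf, ← unq_norm hp h1, ← unq_norm hp hg,
    ← ENNReal.toReal_add h1.eLpNorm_ne_top hg.eLpNorm_ne_top]
  refine ENNReal.toReal_mono (by
    exact ENNReal.add_ne_top.2 ⟨h1.eLpNorm_ne_top, hg.eLpNorm_ne_top⟩) ?_
  have h2 : f = (fun z => f z - g z) + g := by ext z; simp
  calc eLpNorm f (ENNReal.ofReal p) volume
      = eLpNorm ((fun z => f z - g z) + g) (ENNReal.ofReal p) volume := by rw [← h2]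
    _ ≤ _ := eLpNorm_add_le h1.aestronglyMeasurable hg.aestronglyMeasurable (by
        rw [ENNReal.one_le_ofReal]; exact hp)

/-- Summable power integrals give convergence to zero. -/
lemma unq_ae {n : ℕ} {f : ℕ → H n → ℝ} {q : ℕ → ℝ} {B : ℝ} (hq : ∀ k, 1 ≤ q k ∧ q k ≤ B)
    (hi : ∀ k, Integrable (fun z => |f k z| ^ q k))
    (h : ∀ k, ∫ z, |f k z| ^ q k ≤ (1 / 2 : ℝ) ^ k) :
    ∀ᵐ z, Tendsto (fun k => f k z) atTop (𝓝 0) := by
  have h1 : ∀ k, ∫⁻ z, ENNReal.ofReal (|f k z| ^ q k) ≤ ENNReal.ofReal ((1 / 2 : ℝ) ^ k) := by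
    intro k
    rw [← ofReal_integral_eq_lintegral_ofReal (hi k)
      (Eventually.of_forall fun z => Real.rpow_nonneg (abs_nonneg _) _)]
    exact ENNReal.ofReal_le_ofReal (h k)
  have h2 : ∑' k : ℕ, ENNReal.ofReal ((1 / 2 : ℝ) ^ k) ≠ ⊤ := by
    have hs : Summable (fun k : ℕ => (1 / 2 : ℝ) ^ k) := summable_geometric_two
    exact hs.tsum_ofReal_ne_top
  have h3 : ∫⁻ z, ∑' k, ENNReal.ofReal (|f k z| ^ q k) ≠ ⊤ := by
    rw [lintegral_tsum fun k => (hi k).aestronglyMeasurable.aemeasurable.ennreal_ofReal]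
    exact ne_top_of_le_ne_top h2 (ENNReal.tsum_le_tsum h1)
  have h4 := ae_lt_top' (AEMeasurable.tsum fun k =>
    (hi k).aestronglyMeasurable.aemeasurable.ennreal_ofReal) h3
  filter_upwards [h4] with z hz
  have h5 : Tendsto (fun k => ENNReal.ofReal (|f k z| ^ q k)) atTop (𝓝 0) := by
    have := ENNReal.tendsto_atTop_zero_of_tsum_ne_top hz.ne
    exact this
  have h6 : Tendsto (fun k => |f k z| ^ q k) atTop (𝓝 0) := by
    have h7 := (ENNReal.tendsto_toReal ENNReal.zero_ne_top).comp h5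
    simp only [ENNReal.toReal_zero] at h7
    refine h7.congr fun k => ?_
    simp only [Function.comp_apply]
    exact ENNReal.toReal_ofReal (Real.rpow_nonneg (abs_nonneg _) _)
  have hB : 1 ≤ B := (hq 0).1.trans (hq 0).2
  have h8 : Tendsto (fun k => (|f k z| ^ q k) ^ (1 / B)) atTop (𝓝 0) := by
    have := h6.rpow_const (p := 1 / B) (Or.inr (by positivity))
    rwa [Real.zero_rpow (by positivity)] at this
  rw [tendsto_zero_iff_norm_tendsto_zero]
  refine squeeze_zero' (Eventually.of_forall fun k => norm_nonneg _) ?_ h8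
  have h9 : ∀ᶠ k in atTop, |f k z| ^ q k < 1 := h6.eventually_lt_const one_pos
  filter_upwards [h9] with k hk
  have hf1 : |f k z| ≤ 1 := by
    by_contra hc
    rw [not_le] at hc
    have := Real.one_le_rpow hc.le (by linarith [(hq k).1] : 0 ≤ q k)
    linarith
  rw [← Real.rpow_mul (abs_nonneg _), Real.norm_eq_abs]
  rcases eq_or_lt_of_le (abs_nonneg (f k z)) with h0 | h0
  · rw [← h0]
    exact Real.rpow_nonneg le_rfl _
  · calc |f k z| = |f k z| ^ (1 : ℝ) := (Real.rpow_one _).symm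
      _ ≤ |f k z| ^ (q k * (1 / B)) := by
        apply Real.rpow_le_rpow_of_exponent_ge h0 hf1
        rw [mul_one_div, div_le_one (by linarith)]
        exact (hq k).2

lemma unq_tail {n : ℕ} {q : ℕ → ℝ} {φ : ℕ → H n → ℝ} (h : Tail q φ) {σ : ℕ → ℕ}
    (hσ : StrictMono σ) : Tail (fun k => q (σ k)) (fun k => φ (σ k)) := by
  intro η hη
  obtain ⟨M, R, h1⟩ := h η hη
  exact ⟨M, R, hσ.tendsto_atTop.eventually h1⟩

lemma unq_ub {n : ℕ} : Measurable (ub n : H n → ℝ) := by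
  unfold ub u0
  have h : Continuous (fun z : H n => ww z) := by
    have := continuous_sq (n := n)
    unfold ww; fun_prop
  exact (h.measurable.pow_const _).const_mul _

lemma unq_rz {n : ℕ} (i : Option (Fin n)) (b : Bool) : Measurable (rz i b : H n → ℝ) := by
  have h1 : Continuous (fun z : H n => nu z) := by
    have h2 := continuous_sq (n := n)
    have h3 : (fun z : H n => nu z) = fun z => ((1 + sq z : ℝ) : ℂ) + ((-z.2.2 : ℝ) : ℂ) * Complex.I := by
      ext z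
      simp [nu, Complex.ext_iff]
    rw [h3]
    fun_prop
  have h2 : Measurable (fun z : H n => zz i z) := by
    cases i with
    | none =>
      simp only [zz]
      exact (measurable_const.div h1.measurable).sub measurable_const
    | some j =>
      have h4 : Continuous (fun z : H n => zc j z) := by
        have h3 : (fun z : H n => zc j z) = fun z => ((z.1 j : ℝ) : ℂ) + ((z.2.1 j : ℝ) : ℂ) * Complex.I := by
          ext z
          simp [zc, Complex.ext_iff]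
        rw [h3]
        fun_prop
      simp only [zz]
      exact (measurable_const.mul h4.measurable).div h1.measurable
  unfold rz
  cases b
  · simp only [Bool.false_eq_true, if_false]
    exact Complex.measurable_im.comp h2
  · simp only [if_true]
    exact Complex.measurable_re.comp h2

theorem pf_UNQ (hCTS : T_CTS) (hNQ : T_NQ) (hREL : T_REL) (hLSC : T_LSC) (hSOB : T_SOB)
    (hGLI : T_GLI) (hGAP : T_GAP) (hOPT : T_OPT) (hU0X : T_U0X) (hCLT : T_CLT)
    (hZID : T_ZID) : T_UNQ := by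
  intro n hn
  have hn' : (1 : ℝ) ≤ n := by exact_mod_cast hn
  -- the exponents
  set δ₀ : ℝ := min (1 / 2) (2 / ((n : ℝ) + 2)) with hδ₀
  have hδ0 : 0 < δ₀ := by positivity
  have hδh : δ₀ ≤ 1 / 2 := min_le_left _ _
  have hδ2 : δ₀ ≤ 2 / ((n : ℝ) + 2) := min_le_right _ _
  have hps2 : ∀ p : ℝ, 2 - δ₀ < p → p < 2 → 2 < ps n p ∧ ps n p ≤ 4 ∧ 1 / 2 ≤ th n p := by
    intro p h1 h2
    have h3 : (0 : ℝ) < 2 * n + 2 - p := by linarith
    refine ⟨?_, ?_, ?_⟩
    · unfold ps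
      rw [lt_div_iff₀ h3]
      have h4 : 2 - 2 / ((n : ℝ) + 2) < p := by linarith
      have h5 : (2 - 2 / ((n : ℝ) + 2)) * (n + 2) = 2 * n + 2 := by field_simp; ring
      nlinarith
    · unfold ps
      rw [div_le_iff₀ h3]
      nlinarith
    · unfold th
      rw [le_div_iff₀ (by positivity)]
      linarith
  by_contra hcon
  have H : ∀ k : ℕ, ∃ (p S : ℝ) (u v : H n → ℝ) (g h : H n → G n),
      2 - δ₀ / ((k : ℝ) + 1) < p ∧ p < 2 ∧ Opt n p S ∧ Ext p S u g ∧ Ext p S v h ∧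
      (∀ᵐ z, 0 ≤ u z) ∧ (∀ᵐ z, 0 ≤ v z) ∧ Cen (fun z => |u z| ^ ps n p) ∧
      Cen (fun z => |v z| ^ ps n p) ∧ ¬ u =ᵐ[volume] v := by
    intro k
    by_contra hk
    apply hcon
    refine ⟨δ₀ / ((k : ℝ) + 1), by positivity, ?_, ?_⟩
    · have : δ₀ / ((k : ℝ) + 1) ≤ δ₀ := div_le_self hδ0.le (by linarith [k.cast_nonneg (α := ℝ)])
      linarith
    · intro p S h1 h2 h3 u v g h h4 h5 h6 h7 h8 h9
      by_contra h10
      exact hk ⟨p, S, u, v, g, h, h1, h2, h3, h4, h5, h6, h7, h8, h9, h10⟩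
  choose p S u v g h hp1 hp2 hS hu hv hu0 hv0 huc hvc huv using H
  have hpδ : ∀ k, 2 - δ₀ < p k := by
    intro k
    have : δ₀ / ((k : ℝ) + 1) ≤ δ₀ := div_le_self hδ0.le (by linarith [k.cast_nonneg (α := ℝ)])
    linarith [hp1 k]
  have hp32 : ∀ k, 3 / 2 < p k := fun k => by linarith [hpδ k]
  have hpt : Tendsto p atTop (𝓝 2) := by
    have h1 : Tendsto (fun k : ℕ => 2 - δ₀ / ((k : ℝ) + 1)) atTop (𝓝 2) := by
      have h2 : Tendsto (fun k : ℕ => δ₀ / ((k : ℝ) + 1)) atTop (𝓝 0) :=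
        (tendsto_const_nhds (x := δ₀)).div_atTop
          (tendsto_natCast_atTop_atTop.atTop_add tendsto_const_nhds)
      simpa using (tendsto_const_nhds (x := (2 : ℝ))).sub h2
    exact tendsto_of_tendsto_of_tendsto_of_le_of_le h1 tendsto_const_nhds
      (fun k => (hp1 k).le) (fun k => (hp2 k).le)
  have hpQ : ∀ k, p k < 2 * n + 2 := fun k => by linarith [hp2 k]
  have hp11 : ∀ k, 1 < p k := fun k => by linarith [hp32 k]
  obtain ⟨T, hT⟩ : ∃ T, Opt n 2 T := by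
    obtain ⟨L, M, -, h⟩ := hOPT n hn 2 2 (by norm_num) le_rfl (by linarith)
    exact (h 2 le_rfl le_rfl).1
  have hT0 : 0 < T := hT.1
  obtain ⟨L, M, hL, hLM⟩ := hOPT n hn (3 / 2) 2 (by norm_num) (by norm_num) (by linarith)
  have hSL : ∀ k, L ≤ S k ∧ S k ≤ M := fun k =>
    (hLM (p k) (hp32 k).le (hp2 k).le).2 (S k) (hS k)
  have hM : 0 < M := hL.trans_le ((hSL 0).1.trans (hSL 0).2)
  -- convergence of both families
  obtain ⟨σ₁, hσ₁, hc₁, ht₁, hs₁⟩ := hCTS n hn p S T u g (fun k => ⟨hp11 k, (hp2 k).le⟩) hpt hS hT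
    hu hu0 huc
  obtain ⟨σ₂, hσ₂, hc₂, ht₂, hs₂⟩ := hCTS n hn (fun k => p (σ₁ k)) (fun k => S (σ₁ k)) T
    (fun k => v (σ₁ k)) (fun k => h (σ₁ k)) (fun k => ⟨hp11 _, (hp2 _).le⟩)
    (hpt.comp hσ₁.tendsto_atTop) (fun k => hS _) hT (fun k => hv _) (fun k => hv0 _)
    (fun k => hvc _)
  set σ : ℕ → ℕ := fun k => σ₁ (σ₂ k) with hσdef
  have hσ : StrictMono σ := hσ₁.comp hσ₂
  -- the normalised differences
  have HW : ∀ k, ∃ (W : H n → ℝ) (D : H n → G n), Cl (p k) W D ∧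
      en (p k) D ≤ (2 ^ p k * S k) ^ ((2 - p k) / 2) ∧
      p k - 1 ≤ S k * (ps n (p k) - 1) * ∫ z, bq (ps n (p k)) (u k z) (v k z) * W z ^ 2 ∧
      ∫ z, cq (ps n (p k)) (u k z) (v k z) * W z = 0 ∧
      ∀ i b, ∫ z, cq (ps n (p k)) (u k z) (v k z) * W z * rz i b z = 0 := fun k =>
    hNQ n hn (p k) (S k) (hp11 k) (hp2 k) (hps2 _ (hpδ k) (hp2 k)).1 (hS k) (u k) (v k) (g k)
      (h k) (hu k) (hv k) (hu0 k) (hv0 k) (huc k) (hvc k) (huv k)
  choose W D hW hDe hWb hWc hWr using HW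
  set A : ℕ → ℝ := fun k => (2 ^ p k * S k) ^ ((2 - p k) / 2) with hA
  have hA0 : ∀ k, 0 < A k := fun k => by
    have := (hS k).1
    simp only [hA]
    positivity
  have hAb : ∀ k, A k ≤ max 1 (4 * M) := by
    intro k
    have h1 : (2 : ℝ) ^ p k * S k ≤ 4 * M := by
      have h2 : (2 : ℝ) ^ p k ≤ 2 ^ (2 : ℝ) :=
        Real.rpow_le_rpow_of_exponent_le (by norm_num) (hp2 k).le
      have h3 : (2 : ℝ) ^ (2 : ℝ) = 4 := by norm_num
      have := (hS k).1
      nlinarith [(hSL k).2]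
    have h4 : 0 < (2 : ℝ) ^ p k * S k := by have := (hS k).1; positivity
    have h5 : (1 : ℝ) ≤ max 1 (4 * M) := le_max_left _ _
    calc A k ≤ (max 1 (4 * M)) ^ ((2 - p k) / 2) :=
          Real.rpow_le_rpow h4.le (h1.trans (le_max_right _ _)) (by linarith [hp2 k])
      _ ≤ (max 1 (4 * M)) ^ (1 : ℝ) :=
          Real.rpow_le_rpow_of_exponent_le h5 (by linarith [hp32 k])
      _ = _ := Real.rpow_one _
  -- approximation
  have Hψ : ∀ k, ∃ ψ : H n → ℝ, Tst ψ ∧ ms (ps n (p k)) (fun z => ψ z - W k z) ≤ (1 / 2) ^ k ∧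
      en (p k) (fun z => hg ψ z - D k z) ≤ 1 / ((k : ℝ) + 1) := by
    intro k
    obtain ⟨-, -, φ, h1, h2, h3⟩ := hW k
    have e1 := h2.eventually_le_const (by positivity : (0 : ℝ) < (1 / 2) ^ k)
    have e2 := h3.eventually_le_const (by positivity : (0 : ℝ) < 1 / ((k : ℝ) + 1))
    obtain ⟨m, hm1, hm2⟩ := (e1.and e2).exists
    exact ⟨φ m, h1 m, hm1, hm2⟩
  choose ψ hψ hψm hψe using Hψ
  have hq1 : ∀ k, 1 < ps n (p k) := fun k => (fin_exp hn (hp11 k) (hpQ k)).1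
  have hψcl : ∀ k, Cl (p k) (ψ k) (hg (ψ k)) := fun k =>
    hCLT n hn (p k) (hp11 k) (hpQ k) (ψ k) (hψ k)
  set B : ℕ → ℝ := fun k => (A k ^ (1 / p k) + (1 / ((k : ℝ) + 1)) ^ (1 / p k)) ^ p k with hB
  have hBe : ∀ k, en (p k) (hg (ψ k)) ≤ B k := by
    intro k
    have h1 := unq_mink (hp11 k).le (hψcl k).2.1 (hW k).2.1
    have h0 : 0 ≤ en (p k) (hg (ψ k)) :=
      integral_nonneg fun z => Real.rpow_nonneg (norm_nonneg _) _
    have hp0 : 0 < p k := by linarith [hp11 k]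
    have h2 : en (p k) (hg (ψ k)) ^ (1 / p k) ≤
        A k ^ (1 / p k) + (1 / ((k : ℝ) + 1)) ^ (1 / p k) := by
      refine h1.trans ?_
      rw [add_comm]
      refine add_le_add ?_ ?_
      · exact Real.rpow_le_rpow (integral_nonneg fun z => Real.rpow_nonneg (norm_nonneg _) _)
          (hDe k) (by positivity)
      · exact Real.rpow_le_rpow (integral_nonneg fun z => Real.rpow_nonneg (norm_nonneg _) _)
          (hψe k) (by positivity)
    calc en (p k) (hg (ψ k)) = (en (p k) (hg (ψ k)) ^ (1 / p k)) ^ p k := by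
          rw [← Real.rpow_mul h0, one_div, inv_mul_cancel₀ hp0.ne', Real.rpow_one]
      _ ≤ B k := Real.rpow_le_rpow (Real.rpow_nonneg h0 _) h2 hp0.le
  set M1 : ℝ := max 1 (4 * M) with hM1
  have hM11 : 1 ≤ M1 := le_max_left _ _
  have hk1 : ∀ k : ℕ, (1 : ℝ) / ((k : ℝ) + 1) ≤ 1 := fun k => by
    rw [div_le_one (by positivity)]; linarith [k.cast_nonneg (α := ℝ)]
  have hBb : ∀ k, B k ≤ (M1 + 1) ^ (2 : ℝ) := by
    intro k
    have hp0 : 0 < p k := by linarith [hp11 k]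
    have h1 : A k ^ (1 / p k) ≤ M1 := by
      calc A k ^ (1 / p k) ≤ M1 ^ (1 / p k) :=
            Real.rpow_le_rpow (hA0 k).le (hAb k) (by positivity)
        _ ≤ M1 ^ (1 : ℝ) := Real.rpow_le_rpow_of_exponent_le hM11 (by
            rw [div_le_one hp0]; exact (hp11 k).le)
        _ = M1 := Real.rpow_one _
    have h2 : (1 / ((k : ℝ) + 1)) ^ (1 / p k) ≤ 1 :=
      Real.rpow_le_one (by positivity) (hk1 k) (by positivity)
    calc B k ≤ (M1 + 1) ^ p k := Real.rpow_le_rpow (by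
          have := (hA0 k).le
          positivity) (by linarith) hp0.le
      _ ≤ _ := Real.rpow_le_rpow_of_exponent_le (by linarith) (hp2 k).le
  set K : ℝ := max 1 (M1 / L) with hK
  have hK1 : 1 ≤ K := le_max_left _ _
  have hmsW : ∀ k, ms (ps n (p k)) (W k) ≤ K ^ (2 : ℝ) := by
    intro k
    have h0 : 0 ≤ ms (ps n (p k)) (W k) :=
      integral_nonneg fun z => Real.rpow_nonneg (abs_nonneg _) _
    have h1 := hSOB n hn (p k) (S k) (hp11 k) (hpQ k) (hS k) (W k) (D k) (hW k)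
    obtain ⟨-, -, hth⟩ := hps2 _ (hpδ k) (hp2 k)
    have h2 : ms (ps n (p k)) (W k) ^ th n (p k) ≤ K := by
      refine le_trans ?_ (le_max_right _ _)
      rw [le_div_iff₀ hL]
      have h3 : L * ms (ps n (p k)) (W k) ^ th n (p k) ≤
          S k * ms (ps n (p k)) (W k) ^ th n (p k) :=
        mul_le_mul_of_nonneg_right (hSL k).1 (Real.rpow_nonneg h0 _)
      have h4 := hDe k
      have h5 := hAb k
      simp only [hA] at h5
      linarith
    have hth0 : 0 < th n (p k) := by linarith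
    calc ms (ps n (p k)) (W k) = (ms (ps n (p k)) (W k) ^ th n (p k)) ^ (1 / th n (p k)) := by
          rw [← Real.rpow_mul h0, mul_one_div, div_self hth0.ne', Real.rpow_one]
      _ ≤ K ^ (1 / th n (p k)) := Real.rpow_le_rpow (Real.rpow_nonneg h0 _) h2 (by positivity)
      _ ≤ K ^ (2 : ℝ) := Real.rpow_le_rpow_of_exponent_le hK1 (by
          rw [div_le_iff₀ hth0]; linarith)
  have hKK : 1 ≤ K ^ (2 : ℝ) := Real.one_le_rpow hK1 (by norm_num)
  have hmsψ : ∀ k, ms (ps n (p k)) (ψ k) ≤ (1 + K ^ (2 : ℝ)) ^ (4 : ℝ) := by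
    intro k
    have h0 : 0 ≤ ms (ps n (p k)) (ψ k) :=
      integral_nonneg fun z => Real.rpow_nonneg (abs_nonneg _) _
    have h0W : 0 ≤ ms (ps n (p k)) (W k) :=
      integral_nonneg fun z => Real.rpow_nonneg (abs_nonneg _) _
    have h0D : 0 ≤ ms (ps n (p k)) (fun z => ψ k z - W k z) :=
      integral_nonneg fun z => Real.rpow_nonneg (abs_nonneg _) _
    have hq0 : 0 < ps n (p k) := by linarith [hq1 k]
    have h1 := unq_mink (hq1 k).le (hψcl k).1 (hW k).1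
    simp only [Real.norm_eq_abs] at h1
    have h2 : ms (ps n (p k)) (fun z => ψ k z - W k z) ^ (1 / ps n (p k)) ≤ 1 :=
      Real.rpow_le_one h0D ((hψm k).trans (pow_le_one₀ (by norm_num) (by norm_num)))
        (by positivity)
    have h3 : ms (ps n (p k)) (W k) ^ (1 / ps n (p k)) ≤ K ^ (2 : ℝ) := by
      calc ms (ps n (p k)) (W k) ^ (1 / ps n (p k)) ≤ (K ^ (2 : ℝ)) ^ (1 / ps n (p k)) :=
            Real.rpow_le_rpow h0W (hmsW k) (by positivity)
        _ ≤ (K ^ (2 : ℝ)) ^ (1 : ℝ) := Real.rpow_le_rpow_of_exponent_le hKK (by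
            rw [div_le_one hq0]; exact (hq1 k).le)
        _ = _ := Real.rpow_one _
    have h4 : ms (ps n (p k)) (ψ k) ^ (1 / ps n (p k)) ≤ 1 + K ^ (2 : ℝ) := by
      refine le_trans h1 ?_
      exact add_le_add h2 h3
    calc ms (ps n (p k)) (ψ k) = (ms (ps n (p k)) (ψ k) ^ (1 / ps n (p k))) ^ ps n (p k) := by
          rw [← Real.rpow_mul h0, one_div, inv_mul_cancel₀ hq0.ne', Real.rpow_one]
      _ ≤ (1 + K ^ (2 : ℝ)) ^ ps n (p k) :=
          Real.rpow_le_rpow (Real.rpow_nonneg h0 _) h4 hq0.le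
      _ ≤ _ := Real.rpow_le_rpow_of_exponent_le (by linarith) (hps2 _ (hpδ k) (hp2 k)).2.1
  -- a convergent subsequence
  obtain ⟨τ, Z, hτ, hZm, hZ⟩ := hREL n hn (3 / 2) 2
    (max ((1 + K ^ (2 : ℝ)) ^ (4 : ℝ)) ((M1 + 1) ^ (2 : ℝ))) (fun k => p (σ k)) (fun k => ψ (σ k))
    (by norm_num) (by norm_num) (by linarith) (fun k => ⟨(hp32 _).le, (hp2 _).le⟩)
    (fun k => hψ _) (fun k => (hmsψ _).trans (le_max_left _ _))
    (fun k => ((hBe _).trans (hBb _)).trans (le_max_right _ _))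
  set ρ : ℕ → ℕ := fun k => σ (τ k) with hρdef
  have hρ : StrictMono ρ := hσ.comp hτ
  have hdiff : ∀ᵐ z, Tendsto (fun k => ψ k z - W k z) atTop (𝓝 0) := by
    refine unq_ae (f := fun k z => ψ k z - W k z) (q := fun k => ps n (p k)) (B := 4)
      (fun k => ⟨(hq1 k).le, (hps2 _ (hpδ k) (hp2 k)).2.1⟩) (fun k => ?_) hψm
    have hq0 : 0 < ps n (p k) := by linarith [hq1 k]
    have := ((hψcl k).1.sub (hW k).1).integrable_norm_rpow (by simpa using hq0)
      ENNReal.ofReal_ne_top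
    simpa [ENNReal.toReal_ofReal hq0.le] using this
  have hWZ : ∀ᵐ z, Tendsto (fun k => W (ρ k) z) atTop (𝓝 (Z z)) := by
    filter_upwards [hZ, hdiff] with z h1 h2
    have h3 := h1.sub (h2.comp hρ.tendsto_atTop)
    rw [sub_zero] at h3
    refine h3.congr fun k => ?_
    change ψ (ρ k) z - (ψ (ρ k) z - W (ρ k) z) = W (ρ k) z
    ring
  have hpρ : Tendsto (fun k => p (ρ k)) atTop (𝓝 2) := hpt.comp hρ.tendsto_atTop
  have hSρ : Tendsto (fun k => S (ρ k)) atTop (𝓝 T) := hs₂.comp hτ.tendsto_atTop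
  have hAρ : Tendsto (fun k => A (ρ k)) atTop (𝓝 1) := by
    have h1 : Tendsto (fun k => (2 : ℝ) ^ p (ρ k) * S (ρ k)) atTop (𝓝 ((2 : ℝ) ^ (2 : ℝ) * T)) :=
      ((tendsto_const_nhds (x := (2 : ℝ))).rpow hpρ (Or.inl (by norm_num))).mul hSρ
    have h2 : Tendsto (fun k => (2 - p (ρ k)) / 2) atTop (𝓝 ((2 - 2) / 2)) :=
      (tendsto_const_nhds.sub hpρ).div_const 2
    have h3 := h1.rpow h2 (Or.inl (by positivity))
    simpa using h3
  have hinv : Tendsto (fun k => 1 / p (ρ k)) atTop (𝓝 (1 / 2)) :=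
    tendsto_const_nhds.div hpρ (by norm_num)
  have hBρ : Tendsto (fun k => B (ρ k)) atTop (𝓝 1) := by
    have h1 : Tendsto (fun k => A (ρ k) ^ (1 / p (ρ k))) atTop (𝓝 (1 ^ (1 / 2 : ℝ))) :=
      hAρ.rpow hinv (Or.inl one_ne_zero)
    have h2 : Tendsto (fun k : ℕ => 1 / (((ρ k : ℕ) : ℝ) + 1)) atTop (𝓝 0) :=
      (tendsto_one_div_add_atTop_nhds_zero_nat (𝕜 := ℝ)).comp hρ.tendsto_atTop
    have h3 : Tendsto (fun k => (1 / (((ρ k : ℕ) : ℝ) + 1)) ^ (1 / p (ρ k))) atTop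
        (𝓝 (0 ^ (1 / 2 : ℝ))) := h2.rpow hinv (Or.inr (by norm_num))
    have h4 := (h1.add h3).rpow hpρ (Or.inr (by norm_num))
    rw [Real.one_rpow, Real.zero_rpow (by norm_num), add_zero, Real.one_rpow] at h4
    exact h4
  obtain ⟨D', hD', hD'e⟩ := hLSC n hn (fun k => p (ρ k)) (fun k => B (ρ k)) 1
    ((1 + K ^ (2 : ℝ)) ^ (4 : ℝ)) (fun k => ψ (ρ k)) Z (fun k => ⟨hp11 _, hpQ _⟩) hpρ hBρ
    (fun k => hψ _) hZm.aestronglyMeasurable hZ (fun k => hmsψ _) (fun k => hBe _)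
  -- the limits of the integrals
  have hQ2 : ps n 2 = 2 + 2 / n := by
    unfold ps
    have : (n : ℝ) ≠ 0 := by positivity
    rw [eq_comm, eq_div_iff (by linarith)]
    have h3 : (2 : ℝ) / n * n = 2 := div_mul_cancel₀ _ this
    nlinarith
  have hQ2' : 2 < ps n 2 := by rw [hQ2]; have : (0 : ℝ) < 2 / n := by positivity
                               linarith
  have hqt : Tendsto (fun k => ps n (p (ρ k))) atTop (𝓝 (ps n 2)) := by
    unfold ps
    refine Tendsto.div (hpρ.const_mul _) (tendsto_const_nhds.sub hpρ) ?_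
    linarith
  obtain ⟨hubE, hub0, -, -⟩ := hU0X n hn T hT
  have hmeas : ∀ (k : ℕ) (f : H n → ℝ) (q : ℝ), MemLp f (ENNReal.ofReal q) →
      AEStronglyMeasurable f volume := fun _ _ _ h => h.aestronglyMeasurable
  obtain ⟨hl1, hl2⟩ := hGLI n (fun k => ps n (p (ρ k))) (ps n 2) (K ^ (2 : ℝ))
    (fun k => u (ρ k)) (fun k => v (ρ k)) (fun k => W (ρ k)) (ub n) Z hQ2'
    (fun k => (hps2 _ (hpδ _) (hp2 _)).1) hqt hub0 unq_ub hZm.aestronglyMeasurable
    (fun k => (hu _).1.1.aestronglyMeasurable) (fun k => (hv _).1.1.aestronglyMeasurable)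
    (fun k => (hW _).1.aestronglyMeasurable) (fun k => hu0 _) (fun k => hv0 _)
    (by
      filter_upwards [hc₁] with z hz
      exact hz.comp (hσ₂.comp hτ).tendsto_atTop)
    (by
      filter_upwards [hc₂] with z hz
      exact hz.comp hτ.tendsto_atTop)
    hWZ (unq_tail ht₁ (hσ₂.comp hτ)) (unq_tail ht₂ hτ)
    (fun k => ⟨by
      have hq0 : 0 < ps n (p (ρ k)) := by linarith [hq1 (ρ k)]
      have := (hW (ρ k)).1.integrable_norm_rpow (by simpa using hq0) ENNReal.ofReal_ne_top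
      simpa [ENNReal.toReal_ofReal hq0.le] using this, hmsW _⟩)
  have hmain : 1 ≤ T * (ps n 2 - 1) * ∫ z, ub n z ^ (ps n 2 - 2) * Z z ^ 2 := by
    have h1 : Tendsto (fun k => p (ρ k) - 1) atTop (𝓝 (2 - 1)) := hpρ.sub_const 1
    have h2 : Tendsto (fun k => S (ρ k) * (ps n (p (ρ k)) - 1) *
        ∫ z, bq (ps n (p (ρ k))) (u (ρ k) z) (v (ρ k) z) * W (ρ k) z ^ 2) atTop
        (𝓝 (T * (ps n 2 - 1) * ∫ z, ub n z ^ (ps n 2 - 2) * Z z ^ 2)) :=
      (hSρ.mul (hqt.sub_const 1)).mul hl1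
    have h3 := le_of_tendsto_of_tendsto' h1 h2 (fun k => hWb _)
    linarith
  have horth : ∫ z, ub n z ^ (ps n 2 - 1) * Z z = 0 := by
    have h1 := hl2 (fun _ => 1) measurable_const (fun z => by simp)
    simp only [mul_one] at h1
    refine tendsto_nhds_unique h1 ?_
    simp only [hWc]
    exact tendsto_const_nhds
  have horth2 : ∀ (i : Option (Fin n)) (b : Bool),
      ∫ z, ub n z ^ (ps n 2 - 1) * Z z * rz i b z = 0 := by
    intro i b
    have h1 := hl2 (rz i b) (unq_rz i b) ((hZID n hn).2.1 i b)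
    refine tendsto_nhds_unique h1 ?_
    simp only [hWr]
    exact tendsto_const_nhds
  have hZ0 := hGAP n hn T hT Z D' hD' horth horth2 (hD'e.trans hmain)
  have h0 : ∫ z, ub n z ^ (ps n 2 - 2) * Z z ^ 2 = 0 := by
    rw [integral_eq_zero_of_ae]
    filter_upwards [hZ0] with z hz
    rw [hz]
    simp
  rw [h0, mul_zero] at hmain
  linarith

end Pool.Agent.H27.HB
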