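import Pool.Agent.H27.HB.TD

/-!
# Targets, block C: centring
-/

set_option autoImplicit false

namespace Pool.Agent.H27.HB
open MeasureTheory Set Filter Topology Pool.Agent.H80.HS Pool.Agent.H93.HQ
open scoped ContDiff ENNReal

/-- Constant coefficient of `ν(dil r (mul a x)) / (r ν(x))` in terms of `ζ`. -/
noncomputable def cA {n : ℕ} (a : H n) (r : ℝ) : ℂ := (r⁻¹ + r + r * (nu a - 1)) / 2

/-- Linear coefficients of `ν(dil r (mul a x)) / (r ν(x))` in terms of `ζ`. -/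
noncomputable def cB {n : ℕ} (a : H n) (r : ℝ) : Option (Fin n) → ℂ
  | none => (r⁻¹ - r + r * (nu a - 1)) / 2
  | some j => r * starRingEnd ℂ (zc j a)

/-- The function to be minimised. -/
noncomputable def Psi {n : ℕ} (ρ : H n → ℝ) (q : H n × ℝ) : ℝ :=
  ∫ x, ρ x * Real.log (ww (dil q.2 (mul q.1 x)) / (q.2 ^ 2 * ww x))

/-- QF: `ν` along the action. -/
def T_QF : Prop := ∀ (n : ℕ) (x a : H n) (r : ℝ), 0 < r →
  nu (dil r (mul a x)) = r * nu x * (cA a r + ∑ i, cB a r i * zz i x) ∧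
  ‖cA a r‖ ^ 2 = 1 + ∑ i, ‖cB a r i‖ ^ 2 ∧
  ∑ i, ‖zz i x‖ ^ 2 = 1 ∧ 0 < ww x ∧ ‖nu x‖ ^ 2 = ww x

/-- LGB: bounds for the logarithm. -/
def T_LGB : Prop := ∀ (n : ℕ) (x a : H n) (r : ℝ), 0 < r → 1 ≤ ‖cA a r‖ ∧
  |Real.log (ww (dil r (mul a x)) / (r ^ 2 * ww x))| ≤ 2 * Real.log (2 * ‖cA a r‖)

/-- NAT: no atoms, uniformly over directions. -/
def T_NAT : Prop := ∀ (n : ℕ) (ρ : H n → ℝ) (η : ℝ), Integrable ρ → (∀ z, 0 ≤ ρ z) →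
  0 < η → ∃ δ : ℝ, 0 < δ ∧ ∀ e : Option (Fin n) → ℂ, ∑ i, ‖e i‖ ^ 2 = 1 →
    ∫ x in {x | ‖1 + ∑ i, e i * zz i x‖ < δ}, ρ x ≤ η

/-- PRO: properness. -/
def T_PRO : Prop := ∀ n : ℕ, 1 ≤ n → ∀ ρ : H n → ℝ, Integrable ρ → (∀ z, 0 ≤ ρ z) →
  0 < ∫ z, ρ z → ∀ K : ℝ, ∃ T : ℝ, ∀ (a : H n) (r : ℝ), 0 < r → T ≤ ‖cA a r‖ →
    K ≤ Psi ρ (a, r)

/-- MNC: the minimum is attained. -/
def T_MNC : Prop := ∀ n : ℕ, 1 ≤ n → ∀ ρ : H n → ℝ, Integrable ρ → (∀ z, 0 ≤ ρ z) →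
  0 < ∫ z, ρ z → ∃ (a : H n) (r : ℝ), 0 < r ∧
    ∀ (a' : H n) (r' : ℝ), 0 < r' → Psi ρ (a, r) ≤ Psi ρ (a', r')

/-- DRV: derivatives of `log w` along the generators. -/
def T_DRV : Prop := ∀ (n : ℕ) (y : H n) (s : ℝ),
  HasDerivAt (fun s => Real.log (ww (dil (Real.exp s) y)) - 2 * s)
    (-2 * rz none true (dil (Real.exp s) y)) s ∧
  HasDerivAt (fun s : ℝ => Real.log (ww (mul ((0, 0, s) : H n) y)))
    (rz none false (mul ((0, 0, s) : H n) y)) s ∧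
  ∀ j : Fin n,
    HasDerivAt (fun s : ℝ => Real.log (ww (mul
      ((EuclideanSpace.single j s, 0, 0) : H n) y)))
      (2 * rz (some j) true (mul ((EuclideanSpace.single j s, 0, 0) : H n) y)) s ∧
    HasDerivAt (fun s : ℝ => Real.log (ww (mul
      ((0, EuclideanSpace.single j s, 0) : H n) y)))
      (2 * rz (some j) false (mul ((0, EuclideanSpace.single j s, 0) : H n) y)) s

/-- GRP: rules for the group. -/
def T_GRP : Prop := ∀ (n : ℕ) (a b c : H n) (r s : ℝ),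
  mul (mul a b) c = mul a (mul b c) ∧ mul a (-a) = 0 ∧ mul (-a) a = 0 ∧
  dil r (mul a b) = mul (dil r a) (dil r b) ∧ dil r (dil s a) = dil (r * s) a ∧
  N (mul a b) ≤ N a + N b ∧ N (-a) = N a

/-- CRI: a minimum point gives the centring. -/
def T_CRI : Prop := ∀ n : ℕ, 1 ≤ n → ∀ ρ : H n → ℝ, Integrable ρ → (∀ z, 0 ≤ ρ z) →
  ∀ (a : H n) (r : ℝ), 0 < r →
  (∀ (a' : H n) (r' : ℝ), 0 < r' → Psi ρ (a, r) ≤ Psi ρ (a', r')) →
  ∀ (i : Option (Fin n)) (b : Bool), ∫ z, ρ z * rz i b (dil r (mul a z)) = 0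

end Pool.Agent.H27.HB
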