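import Pool.Agent.H1.HB.ACV
import Pool.Agent.H1.HB.CLC
import Pool.Agent.H1.HB.LPN
import Pool.Agent.H10.HB.MO3
import Pool.Agent.H11.HB.CLA
import Pool.Agent.H11.HB.GRU
import Pool.Agent.H11.HB.IBP
import Pool.Agent.H11.HB.MIN
import Pool.Agent.H11.HB.MO1
import Pool.Agent.H11.HB.NCC
import Pool.Agent.H11.HB.UCL
import Pool.Agent.H13.HB.CNT
import Pool.Agent.H15.HB.CEN
import Pool.Agent.H15.HB.CRI
import Pool.Agent.H15.HB.LGB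
import Pool.Agent.H15.HB.MNC
import Pool.Agent.H15.HB.PRO
import Pool.Agent.H17.HB.HGC
import Pool.Agent.H17.HB.LNA
import Pool.Agent.H17.HB.REL
import Pool.Agent.H2.HB.SEP
import Pool.Agent.H20.HB.CAL
import Pool.Agent.H20.HB.EXI
import Pool.Agent.H26.HBE.KR0
import Pool.Agent.H26.HBE.KR1
import Pool.Agent.H26.HBE.RIE
import Pool.Agent.H27.HB.CNX
import Pool.Agent.H27.HB.FI2
import Pool.Agent.H27.HB.RAT
import Pool.Agent.H27.HB.U0X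
import Pool.Agent.H27.HB.UNQ
import Pool.Agent.H35.HBE.EQI
import Pool.Agent.H35.HBE.LOWt
import Pool.Agent.H35.HBE.UTL
import Pool.Agent.H36.HB.LIP
import Pool.Agent.H36.HB.LSC
import Pool.Agent.H36.HB.OPT
import Pool.Agent.H38.HB.DIF
import Pool.Agent.H38.HB.NAT
import Pool.Agent.H4.HB.ELQ
import Pool.Agent.H40.HB.MO2
import Pool.Agent.H40.HB.TRE
import Pool.Agent.H40.HB.WIN
import Pool.Agent.H42.HB.ABS
import Pool.Agent.H42.HB.CUT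
import Pool.Agent.H44.HB.CTS
import Pool.Agent.H46.HB.GLI
import Pool.Agent.H46.HB.GSE
import Pool.Agent.H46.HB.VIT
import Pool.Agent.H46.HB.VTQ
import Pool.Agent.H46.HB.ZIQ
import Pool.Agent.H47.HB.BQE
import Pool.Agent.H47.HB.DRV
import Pool.Agent.H47.HB.GRP
import Pool.Agent.H47.HB.MNO
import Pool.Agent.H47.HB.QF
import Pool.Agent.H49.HB.JJI
import Pool.Agent.H51.HBE.GAP
import Pool.Agent.H54.HB.BBE
import Pool.Agent.H54.HB.GLJ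
import Pool.Agent.H54.HB.NQ
import Pool.Agent.H54.HB.SGP
import Pool.Agent.H54.HB.ZID
import Pool.Agent.H60.HB.APX
import Pool.Agent.H60.HB.CLT
import Pool.Agent.H60.HB.CVS
import Pool.Agent.H60.HB.LNB
import Pool.Agent.H60.HB.MOM
import Pool.Agent.H60.HB.SGN
import Pool.Agent.H60.HB.TQ
import Pool.Agent.H60.HB.WKP
import Pool.Agent.H61.HB.SPB
import Pool.Agent.H61.HB.TRM
import Pool.Agent.H68.HB.CHI
import Pool.Agent.H68.HB.SOB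
import Pool.Agent.H68.HB.UNA
import Pool.Agent.H68.HB.ZER
import Pool.Agent.H73.HB.KOL
import Pool.Agent.H79.HB.BND
import Pool.Agent.H79.HB.CL2
import Pool.Agent.H79.HB.CVX
import Pool.Agent.H79.HB.SUP
import Pool.Agent.H8.HB.CEQ
import Pool.Agent.H80.HB.SPL
import Pool.Agent.H86.HB.ACT
import Pool.Agent.H86.HB.HGA
import Pool.Agent.H86.HB.PRD
import Pool.Agent.H89.HB.ACC
import Pool.Agent.H89.HB.MOL
import Pool.Agent.H91.HBE.GSI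
import Pool.Agent.H91.HBE.MEM
import Pool.Agent.H91.HBE.SV2
import Pool.Agent.H91.HBE.WKE
import Pool.Agent.H27.HB.UF

/-!
Assembly of the rows for MP_8352e3_an.
-/

set_option autoImplicit false

namespace Pool.Agent.H27.HB
open MeasureTheory Set Filter Topology Pool.Agent.H80.HS Pool.Agent.H93.HQ

theorem hb_main : T_FI2 := by
  have h_ACT : T_ACT := Pool.Agent.H86.HB.pf_ACT
  have h_ACV : T_ACV := Pool.Agent.H1.HB.pf_ACV UF.qDIL UF.qTR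
  have h_ACC : T_ACC := Pool.Agent.H89.HB.pf_ACC h_ACT h_ACV
  have h_BBE : T_BBE := Pool.Agent.H54.HB.pf_BBE
  have h_BND : T_BND := Pool.Agent.H79.HB.pf_BND
  have h_BQE : T_BQE := Pool.Agent.H47.HB.pf_BQE
  have h_CAL : T_CAL := Pool.Agent.H20.HB.pf_CAL
  have h_CHI : T_CHI := Pool.Agent.H68.HB.pf_CHI
  have h_CLC : T_CLC := Pool.Agent.H1.HB.pf_CLC
  have h_DRV : T_DRV := Pool.Agent.H47.HB.pf_DRV
  have h_GRP : T_GRP := Pool.Agent.H47.HB.pf_GRP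
  have h_HGA : T_HGA := Pool.Agent.H86.HB.pf_HGA
  have h_CLA : T_CLA := Pool.Agent.H11.HB.pf_CLA h_HGA
  have h_GRU : T_GRU := Pool.Agent.H11.HB.pf_GRU h_HGA
  have h_HGC : T_HGC := Pool.Agent.H17.HB.pf_HGC
  have h_CLT : T_CLT := Pool.Agent.H60.HB.pf_CLT h_HGC
  have h_ABS : T_ABS := Pool.Agent.H42.HB.pf_ABS h_HGA h_HGC h_CLC h_CLT
  have h_CUT : T_CUT := Pool.Agent.H42.HB.pf_CUT h_HGA h_HGC h_CHI h_ACV h_ACT
  have h_IBP : T_IBP := Pool.Agent.H11.HB.pf_IBP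
  have h_JJI : T_JJI := Pool.Agent.H49.HB.pf_JJI
  have h_KOL : T_KOL := Pool.Agent.H73.HB.pf_KOL UF.qTR
  have h_LIP : T_LIP := Pool.Agent.H36.HB.pf_LIP
  have h_LNA : T_LNA := Pool.Agent.H17.HB.pf_LNA h_GRU h_JJI
  have h_LNB : T_LNB := Pool.Agent.H60.HB.LNB.pf_LNB h_JJI
  have h_LPN : T_LPN := Pool.Agent.H1.HB.pf_LPN
  have h_APX : T_APX := Pool.Agent.H60.HB.APX.pf_APX h_LPN h_HGA h_CLT h_LIP
  have h_MNO : T_MNO := Pool.Agent.H47.HB.pf_MNO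
  have h_CVS : T_CVS := Pool.Agent.H60.HB.CVS.pf_CVS h_MNO
  have h_CVX : T_CVX := Pool.Agent.H79.HB.pf_CVX h_MNO
  have h_MO1 : T_MO1 := Pool.Agent.H11.HB.pf_MO1 UF.qTR
  have h_MO2 : T_MO2 := Pool.Agent.H40.HB.M2.pf_MO2 h_MO1 UF.qTR h_GRP
  have h_MO3 : T_MO3 := Pool.Agent.H10.HB.pf_MO3
  have h_MOL : T_MOL := Pool.Agent.H89.HB.pf_MOL h_MO1 h_MO2 h_MO3 h_CUT h_CLC h_CHI
  have h_OPT : T_OPT := Pool.Agent.H36.HB.pf_OPT UF.qFI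
  have h_PRD : T_PRD := Pool.Agent.H86.HB.pf_PRD h_HGA h_HGC h_CLT h_LPN
  have h_QF : T_QF := Pool.Agent.H47.HB.pf_QF
  have h_LGB : T_LGB := Pool.Agent.H15.HB.pf_LGB h_QF
  have h_CRI : T_CRI := Pool.Agent.H15.HB.pf_CRI h_QF h_DRV h_LGB h_GRP
  have h_NAT : T_NAT := Pool.Agent.H38.HB.pf_NAT h_QF
  have h_PRO : T_PRO := Pool.Agent.H15.HB.pf_PRO h_QF h_LGB h_NAT
  have h_MNC : T_MNC := Pool.Agent.H15.HB.pf_MNC h_QF h_LGB h_PRO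
  have h_CEN : T_CEN := Pool.Agent.H15.HB.pf_CEN h_MNC h_CRI
  have h_CNT : T_CNT := Pool.Agent.H13.HB.pf_CNT h_CEN h_ACV
  have h_RIE : T_RIE := Pool.Agent.H26.HBE.pf_RIE
  have h_TQ : T_TQ := Pool.Agent.H60.HB.TQ.pf_TQ h_HGA
  have h_MIN : T_MIN := Pool.Agent.H11.HB.pf_MIN h_TQ h_CNT h_ACT h_ACV h_CLT
  have h_SOB : T_SOB := Pool.Agent.H68.HB.pf_SOB h_TQ h_CLT h_LPN
  have h_ELQ : T_ELQ := Pool.Agent.H4.HB.pf_ELQ h_CLA h_SOB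
  have h_DIF : T_DIF := Pool.Agent.H38.HB.pf_DIF h_ELQ h_CLA h_MNO h_BQE
  have h_NQ : T_NQ := Pool.Agent.H54.HB.pf_NQ h_DIF h_CLA h_SOB h_BQE
  have h_SGN : T_SGN := Pool.Agent.H60.HB.SGN.pf_SGN h_CLA h_ABS h_SOB
  have h_SPL : T_SPL := Pool.Agent.H80.HB.pf_SPL h_CHI h_OPT h_TQ h_HGA h_HGC h_ACV
  have h_SPB : T_SPB := Pool.Agent.H61.HB.pf_SPB h_SPL h_ACT h_ACV
  have h_NCC : T_NCC := Pool.Agent.H11.HB.pf_NCC h_SPB h_LIP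
  have h_SUP : T_SUP := Pool.Agent.H79.HB.pf_SUP h_TQ h_HGA h_HGC h_CLT
  have h_SV2 : T_SV2 := Pool.Agent.H91.HBE.pf_SV2 h_CLA h_SOB
  have h_TRE : T_TRE := Pool.Agent.H40.HB.pf_TRE UF.qTR h_GRP
  have h_REL : T_REL := Pool.Agent.H17.HB.pf_REL h_TRE h_KOL h_HGA
  have h_TRM : T_TRM := Pool.Agent.H61.HB.pf_TRM h_HGA h_HGC
  have h_EQI : T_EQI := Pool.Agent.H35.HBE.pf_EQI h_NCC h_TRM h_CHI h_OPT h_TQ h_HGA h_HGC h_ACT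
      UF.qTR UF.qDIL
  have h_UCL : T_UCL := Pool.Agent.H11.HB.pf_UCL h_GRU h_JJI h_CUT h_SOB
  have h_UNA : T_UNA := Pool.Agent.H68.HB.pf_UNA h_HGA h_HGC
  have h_CEQ : T_CEQ := Pool.Agent.H8.HB.pf_CEQ h_UNA
  have h_UTL : T_UTL := Pool.Agent.H35.HBE.pf_UTL h_GRU h_JJI
  have h_VIT : T_VIT := Pool.Agent.H46.HB.pf_VIT
  have h_GLI : T_GLI := Pool.Agent.H46.HB.pf_GLI h_BQE h_VIT
  have h_GLJ : T_GLJ := Pool.Agent.H54.HB.pf_GLJ h_BBE h_VIT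
  have h_LSC : T_LSC := Pool.Agent.H36.HB.pf_LSC h_RIE h_MOL h_IBP h_HGC h_VIT
  have h_VTQ : T_VTQ := Pool.Agent.H46.HB.pf_VTQ h_VIT
  have h_EXI : T_EXI := Pool.Agent.H20.HB.pf_EXI h_MIN h_EQI h_REL h_VTQ h_CVX h_OPT h_TQ h_HGA
      h_CLT
  have h_WIN : T_WIN := Pool.Agent.H40.HB.pf_WIN
  have h_MEM : T_MEM := Pool.Agent.H91.HBE.pf_MEM h_CAL h_BND h_WIN h_CUT h_HGC h_HGA
  have h_SEP : T_SEP := Pool.Agent.H2.HB.pf_SEP h_WIN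
  have h_WKE : T_WKE := Pool.Agent.H91.HBE.pf_WKE h_CAL h_BND h_WIN h_IBP h_HGC h_HGA
  have h_GSI : T_GSI := Pool.Agent.H91.HBE.pf_GSI h_WKE h_IBP h_HGA h_HGC h_WIN h_MEM h_BND
  have h_GSE : T_GSE := Pool.Agent.H46.HB.pf_GSE h_GSI h_CLA h_CLT h_HGC
  have h_MOM : T_MOM := Pool.Agent.H60.HB.MOM.pf_MOM h_WKE h_MEM h_BND h_WIN
  have h_KR0 : T_KR0 := Pool.Agent.H26.HBE.pf_KR0 h_MOM h_SEP h_WKE h_MEM h_CLA h_WIN h_CLT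
  have h_WKP : T_WKP := Pool.Agent.H60.HB.WKP.pf_WKP h_WKE h_UCL h_LNA h_HGC h_CLT
  have h_LOW : T_LOW := Pool.Agent.H35.HBE.pf_LOW h_UCL h_UTL h_LNA h_LNB h_WKP h_CVS h_BBE h_CLA
      h_SOB h_OPT
  have h_ZER : T_ZER := Pool.Agent.H68.HB.pf_ZER h_IBP h_HGC h_HGA
  have h_ZID : T_ZID := Pool.Agent.H54.HB.pf_ZID h_HGA
  have h_KR1 : T_KR1 := Pool.Agent.H26.HBE.pf_KR1 h_MOM h_SEP h_WKE h_ZID
  have h_ZIQ : T_ZIQ := Pool.Agent.H46.HB.pf_ZIQ h_ZID h_WIN h_HGC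
  have h_CL2 : T_CL2 := Pool.Agent.H79.HB.pf_CL2 h_ZID h_ZIQ h_SV2 h_PRD h_GSE h_KR0 h_WIN
  have h_CTS : T_CTS := Pool.Agent.H44.HB.pf_CTS h_APX h_EQI h_REL h_VTQ h_LSC h_SUP h_CL2 h_OPT
      h_SOB h_CLT h_ZID
  have h_U0X : T_U0X := Pool.Agent.H27.HB.pf_U0X h_CL2 h_EXI h_SGN h_CLA h_CLC h_MEM h_ZER h_WKE
      h_HGA
  have h_SGP : T_SGP := Pool.Agent.H54.HB.pf_SGP h_SV2 h_U0X h_CLA h_CLT h_GSI h_LPN h_HGA
  have h_GAP : T_GAP := Pool.Agent.H51.HBE.pf_GAP h_SGP h_U0X h_KR1 h_CLA h_CLT h_GSI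
  have h_RAT : T_RAT := Pool.Agent.H27.HB.pf_RAT h_CTS h_GLI h_GLJ h_LOW h_UTL h_UCL h_U0X h_REL
      h_LSC h_SOB h_GAP h_OPT h_CLT h_ZID h_BQE h_CLA h_EXI h_SGN h_CLC h_CL2
  have h_CON : T_CON := Pool.Agent.H27.HB.pf_CON h_RAT h_LOW h_UCL h_UTL h_OPT h_CLA h_SOB h_EXI
      h_SGN h_CLC
  have h_UNQ : T_UNQ := Pool.Agent.H27.HB.pf_UNQ h_CTS h_NQ h_REL h_LSC h_SOB h_GLI h_GAP h_OPT
      h_U0X h_CLT h_ZID
  have h_FI2 : T_FI2 := Pool.Agent.H27.HB.pf_FI2 h_EXI h_SGN h_UNQ h_CON h_UCL h_OPT h_CLA h_CLC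
      h_CNT h_ACC h_ACV h_UNA h_CEQ h_U0X h_HGA
  exact h_FI2

end Pool.Agent.H27.HB
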