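import Pool.Agent.H27.HB.Defs

/-!
# Targets, block A: the class `Cl` and the Euler-Lagrange equation
-/

set_option autoImplicit false

namespace Pool.Agent.H27.HB
open MeasureTheory Set Filter Topology Pool.Agent.H80.HS Pool.Agent.H93.HQ
open scoped ContDiff ENNReal

/-! ### The calculus of `hg` -/

/-- HGA: algebra of the horizontal gradient. -/
def T_HGA : Prop := ∀ (n : ℕ) (u v : H n → ℝ) (z : H n), DifferentiableAt ℝ u z →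
  DifferentiableAt ℝ v z →
  (∀ a b : ℝ, hg (fun x => a * u x + b * v x) z = a • hg u z + b • hg v z) ∧
  hg (fun x => u x * v x) z = u z • hg v z + v z • hg u z ∧
  (∀ (F : ℝ → ℝ) (F' : ℝ), HasDerivAt F F' (u z) →
    hg (fun x => F (u x)) z = F' • hg u z) ∧
  ‖hg u z‖ = grad u z

/-- HGC: continuity and support of the horizontal gradient. -/
def T_HGC : Prop := ∀ (n : ℕ) (u : H n → ℝ),
  (ContDiff ℝ 1 u → Continuous (hg u)) ∧ (ContDiff ℝ ∞ u → ContDiff ℝ ∞ (hg u)) ∧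
  (∀ z, z ∉ tsupport u → hg u z = 0) ∧ (HasCompactSupport u → HasCompactSupport (hg u))

/-- LPN: convergence of `p`-th power integrals. -/
def T_LPN : Prop := ∀ (n : ℕ) (E : Type) [NormedAddCommGroup E] (p : ℝ)
  (f : ℕ → H n → E) (g : H n → E), 1 ≤ p → (∀ k, MemLp (f k) (ENNReal.ofReal p)) →
  MemLp g (ENNReal.ofReal p) →
  Tendsto (fun k => ∫ z, ‖f k z - g z‖ ^ p) atTop (𝓝 0) →
  Tendsto (fun k => ∫ z, ‖f k z‖ ^ p) atTop (𝓝 (∫ z, ‖g z‖ ^ p))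

/-- IBP: integration by parts. -/
def T_IBP : Prop := ∀ (n : ℕ) (φ : H n → ℝ) (F : H n → ℂ) (j : Fin n), Tst φ →
  ContDiff ℝ 1 F →
  ∫ z, ((X φ j z : ℝ) : ℂ) * F z = - ∫ z, ((φ z : ℝ) : ℂ) * X F j z ∧
  ∫ z, ((Y φ j z : ℝ) : ℂ) * F z = - ∫ z, ((φ z : ℝ) : ℂ) * Y F j z

/-! ### The optimal constant -/

/-- OPT: existence and local bounds of the optimal constant. -/
def T_OPT : Prop := ∀ n : ℕ, 1 ≤ n → ∀ a b : ℝ, 1 < a → a ≤ b → b < 2 * n + 2 →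
  ∃ L M : ℝ, 0 < L ∧ ∀ p : ℝ, a ≤ p → p ≤ b → (∃ S : ℝ, Opt n p S) ∧
    ∀ S : ℝ, Opt n p S → L ≤ S ∧ S ≤ M

/-- TQ: the Sobolev quotient on test functions. -/
def T_TQ : Prop := ∀ n : ℕ, 1 ≤ n → ∀ p S : ℝ, 1 < p → p < 2 * n + 2 → Opt n p S →
  (∀ φ : H n → ℝ, Tst φ → S * ms (ps n p) φ ^ th n p ≤ en p (hg φ)) ∧
  ∀ ε : ℝ, 0 < ε → ∃ φ : H n → ℝ, Tst φ ∧ ms (ps n p) φ = 1 ∧ en p (hg φ) < S + ε

/-! ### The class `Cl` -/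

/-- CLT: test functions. -/
def T_CLT : Prop := ∀ n : ℕ, 1 ≤ n → ∀ p : ℝ, 1 < p → p < 2 * n + 2 →
  ∀ φ : H n → ℝ, Tst φ → Cl p φ (hg φ)

/-- CLA: linear combinations. -/
def T_CLA : Prop := ∀ n : ℕ, 1 ≤ n → ∀ p : ℝ, 1 < p → p < 2 * n + 2 →
  ∀ (u v : H n → ℝ) (g h : H n → G n) (a b : ℝ), Cl p u g → Cl p v h →
  Cl p (fun z => a * u z + b * v z) (fun z => a • g z + b • h z)

/-- CLC: changing on null sets, and closedness. -/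
def T_CLC : Prop := ∀ n : ℕ, 1 ≤ n → ∀ p : ℝ, 1 < p → p < 2 * n + 2 →
  (∀ (u v : H n → ℝ) (g h : H n → G n), Cl p u g → u =ᵐ[volume] v → g =ᵐ[volume] h →
    Cl p v h) ∧
  ∀ (u : H n → ℝ) (g : H n → G n) (v : ℕ → H n → ℝ) (h : ℕ → H n → G n),
    (∀ k, Cl p (v k) (h k)) → MemLp u (ENNReal.ofReal (ps n p)) →
    MemLp g (ENNReal.ofReal p) →
    Tendsto (fun k => ms (ps n p) (fun z => v k z - u z)) atTop (𝓝 0) →
    Tendsto (fun k => en p (fun z => h k z - g z)) atTop (𝓝 0) → Cl p u g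

/-- SOB: the Sobolev inequality on `Cl`. -/
def T_SOB : Prop := ∀ n : ℕ, 1 ≤ n → ∀ p S : ℝ, 1 < p → p < 2 * n + 2 → Opt n p S →
  ∀ (u : H n → ℝ) (g : H n → G n), Cl p u g → S * ms (ps n p) u ^ th n p ≤ en p g

/-- ZER: the gradient of zero is zero. -/
def T_ZER : Prop := ∀ n : ℕ, 1 ≤ n → ∀ p : ℝ, 1 < p → p < 2 * n + 2 →
  ∀ g : H n → G n, Cl p (fun _ => 0) g → g =ᵐ[volume] 0

/-- ABS: the absolute value. -/
def T_ABS : Prop := ∀ n : ℕ, 1 ≤ n → ∀ p : ℝ, 1 < p → p < 2 * n + 2 →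
  ∀ (u : H n → ℝ) (g : H n → G n), Cl p u g →
  Cl p (fun z => |u z|) (fun z => Real.sign (u z) • g z)

/-- SGN: extremals have a sign. -/
def T_SGN : Prop := ∀ n : ℕ, 1 ≤ n → ∀ p S : ℝ, 1 < p → p < 2 * n + 2 → Opt n p S →
  ∀ (u : H n → ℝ) (g : H n → G n), Ext p S u g → (∀ᵐ z, 0 ≤ u z) ∨ (∀ᵐ z, u z ≤ 0)

/-- PRD: products with bounded smooth functions. -/
def T_PRD : Prop := ∀ n : ℕ, 1 ≤ n → ∀ p : ℝ, 1 < p → p < 2 * n + 2 →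
  ∀ (u : H n → ℝ) (g : H n → G n) (χ : H n → ℝ), Cl p u g → ContDiff ℝ ∞ χ →
  (∀ z, |χ z| ≤ 1) → Integrable (fun z => ‖hg χ z‖ ^ (2 * (n : ℝ) + 2)) →
  Cl p (fun z => χ z * u z) (fun z => χ z • g z + u z • hg χ z)

/-- CUT: smooth functions of finite energy. -/
def T_CUT : Prop := ∀ n : ℕ, 1 ≤ n → ∀ p : ℝ, 1 < p → p < 2 * n + 2 →
  ∀ u : H n → ℝ, ContDiff ℝ ∞ u → MemLp u (ENNReal.ofReal (ps n p)) →
  MemLp (hg u) (ENNReal.ofReal p) → Cl p u (hg u)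

/-! ### Group actions -/

/-- ACV: change of variables for the action. -/
def T_ACV : Prop := ∀ n : ℕ, 1 ≤ n → ∀ p : ℝ, 1 < p → p < 2 * n + 2 →
  ∀ (a : H n) (r : ℝ), 0 < r →
  (∀ f : H n → ℝ, r ^ (2 * n + 2) * ∫ z, f (dil r (mul a z)) = ∫ z, f z) ∧
  (∀ f : H n → ℝ, Integrable f → Integrable (fun z => f (dil r (mul a z)))) ∧
  (∀ u : H n → ℝ, ms (ps n p) (act p a r u) = ms (ps n p) u) ∧
  (∀ (u : H n → ℝ) (θ : H n → ℝ), ∫ z, |act p a r u z| ^ ps n p * θ (dil r (mul a z)) =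
    ∫ z, |u z| ^ ps n p * θ z) ∧
  (∀ g : H n → G n, en p (actg p a r g) = en p g) ∧
  (∀ u : H n → ℝ, act p a r (act p (dil r (-a)) r⁻¹ u) = u) ∧
  (∀ u : H n → ℝ, act p (dil r (-a)) r⁻¹ (act p a r u) = u)

/-- ACT: the action on test functions. -/
def T_ACT : Prop := ∀ n : ℕ, 1 ≤ n → ∀ p : ℝ, 1 < p → p < 2 * n + 2 →
  ∀ (a : H n) (r : ℝ), 0 < r → ∀ φ : H n → ℝ, Tst φ →
  Tst (act p a r φ) ∧ hg (act p a r φ) = actg p a r (hg φ)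

/-- ACC: the action on `Cl`. -/
def T_ACC : Prop := ∀ n : ℕ, 1 ≤ n → ∀ p : ℝ, 1 < p → p < 2 * n + 2 →
  ∀ (a : H n) (r : ℝ), 0 < r → ∀ (u : H n → ℝ) (g : H n → G n), Cl p u g →
  Cl p (act p a r u) (actg p a r g)

/-- UNA: unitary maps and the reflection act on `Cl`. -/
def T_UNA : Prop := ∀ n : ℕ, 1 ≤ n → ∀ p : ℝ, 1 < p → p < 2 * n + 2 →
  ∀ Φ : H n → H n,
  ((∃ A ∈ Matrix.unitaryGroup (Fin n) ℂ, Φ = ua A) ∨ Φ = rfn) →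
  MeasurePreserving Φ (volume : Measure (H n)) volume ∧
  ∀ (u : H n → ℝ) (g : H n → G n), Cl p u g →
    ∃ g' : H n → G n, Cl p (fun z => u (Φ z)) g' ∧ en p g' = en p g

/-! ### Convexity and the Euler-Lagrange equation -/

/-- MNO: strong monotonicity for `1 < p ≤ 2`. -/
def T_MNO : Prop := ∀ (n : ℕ) (p : ℝ), 1 < p → p ≤ 2 → ∀ a b : G n,
  (p - 1) * (‖a‖ + ‖b‖) ^ (p - 2) * ‖a - b‖ ^ 2 ≤
    inner ℝ (‖a‖ ^ (p - 2) • a - ‖b‖ ^ (p - 2) • b) (a - b)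

/-- CVX: uniform convexity for `1 < p ≤ 2`. -/
def T_CVX : Prop := ∀ (n : ℕ) (p : ℝ), 1 < p → p ≤ 2 → ∃ C : ℝ, 0 < C ∧
  ∀ f g : H n → G n, MemLp f (ENNReal.ofReal p) → MemLp g (ENNReal.ofReal p) →
  en p (fun z => f z - g z) ≤ C * (en p f + en p g) ^ (1 - p / 2) *
    (en p f + en p g - 2 * en p (fun z => (1 / 2 : ℝ) • (f z + g z))) ^ (p / 2)

/-- ELQ: the Euler-Lagrange equation. -/
def T_ELQ : Prop := ∀ n : ℕ, 1 ≤ n → ∀ p S : ℝ, 1 < p → p < 2 * n + 2 → Opt n p S →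
  ∀ (u : H n → ℝ) (g : H n → G n), Ext p S u g → (∀ᵐ z, 0 ≤ u z) →
  ∀ (f : H n → ℝ) (h : H n → G n), Cl p f h →
    Integrable (fun z => inner ℝ (‖g z‖ ^ (p - 2) • g z) (h z)) ∧
    Integrable (fun z => u z ^ (ps n p - 1) * f z) ∧
    ∫ z, inner ℝ (‖g z‖ ^ (p - 2) • g z) (h z) = S * ∫ z, u z ^ (ps n p - 1) * f z

end Pool.Agent.H27.HB
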